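import Pool.Agent.W_9986fc_h24.Defs
import Pool.Agent.W_9986fc_h15.SurfB
import Pool.Agent.W_9986fc_h15.AlgC

/-!
Surfaces.
-/

set_option autoImplicit false
set_option maxSynthPendingDepth 3

open scoped ContDiff
open Pool.Agent.W_9986fc_h15 MeasureTheory

namespace Pool.Agent.W_9986fc_h24

variable {G : Type} [Group G] [MulAction G (R 2)]

/-- The translation between the definitions: `IsCover (R 2) G`, `Orient (R 2) G`, `Part`, `Form2`,
`Form1` are `IsBase 2 G`, `Oriented 2 G`, `IsPart`, `BInv2`, `BInv1` of helper15. -/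
theorem isBase_of_isCover (h : IsCover (R 2) G) : IsBase 2 G :=
  ⟨h.smooth, h.proper, h.cocompact⟩

/-- The top power with respect to an arbitrary basis of `ℝ²` is a positive multiple of the one with
respect to the standard basis in a suitable order: `top B q = det (P) * top (standard basis) q` for
the matrix `P` of the basis, `top_bilinearComp` / `top_two`, `top_perm`. (`n = 1` since the
cardinality of `Fin n × Fin 2` is the dimension.) -/
theorem exists_pi {n : ℕ} (B : Module.Basis (Fin n × Fin 2) ℝ (R 2)) :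
    ∃ (π : Fin n × Fin 2 ≃ Fin 2) (s : ℝ), 0 < s ∧
      ∀ q : R 2 →L[ℝ] R 2 →L[ℝ] ℝ, (∀ u, q u u = 0) → top B q = s * top (fun i => stdR (π i)) q := by
  have π₀ : Fin n × Fin 2 ≃ Fin 2 := B.indexEquiv (Pi.basisFun ℝ (Fin 2))
  obtain ⟨B', hB'⟩ := exists_basisR π₀
  have hB'' : (fun i => stdR (π₀ i)) = fun i => B' i := funext fun i => (hB' i).symm
  obtain ⟨P, hP, hPB⟩ : ∃ P : R 2 →L[ℝ] R 2, P.det ≠ 0 ∧ ∀ i, P (B' i) = B i := by
    refine ⟨((B'.equiv B (Equiv.refl _)).toContinuousLinearEquiv : R 2 →L[ℝ] R 2), ?_, fun i => ?_⟩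
    · exact (LinearEquiv.isUnit_det' (B'.equiv B (Equiv.refl _))).ne_zero
    · change B'.equiv B (Equiv.refl _) (B' i) = B i
      rw [Module.Basis.equiv_apply]
      rfl
  have htop : ∀ q : R 2 →L[ℝ] R 2 →L[ℝ] ℝ,
      top B q = P.det * top (fun i => stdR (π₀ i)) q := by
    intro q
    rw [hB'', ← top_bilinearComp B' P q]
    unfold top
    simp only [ContinuousLinearMap.bilinearComp_apply, hPB]
  rcases lt_or_gt_of_ne hP with h | h
  · have hne : π₀.symm 0 ≠ π₀.symm 1 := by
      intro h1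
      exact absurd (π₀.symm.injective h1) (by decide)
    refine ⟨(Equiv.swap (π₀.symm 0) (π₀.symm 1)).trans π₀, -P.det, by linarith, fun q _ => ?_⟩
    rw [htop]
    have h2 := top_perm (fun i => (stdR (π₀ i) : R 2)) q (Equiv.swap (π₀.symm 0) (π₀.symm 1))
    rw [Equiv.Perm.sign_swap hne] at h2
    have h3 : top (fun i => (stdR (((Equiv.swap (π₀.symm 0) (π₀.symm 1)).trans π₀) i) : R 2)) q =
        top (fun i => (stdR (π₀ (Equiv.swap (π₀.symm 0) (π₀.symm 1) i)) : R 2)) q := rfl
    rw [h3, h2]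
    push_cast
    ring
  · exact ⟨π₀, P.det, h, fun q _ => htop q⟩

/-- Closed oriented surfaces covered by the plane satisfy the strong form of the statement
(`strongB_two`, SurfB of helper15). -/
theorem strong_two (h : IsCover (R 2) G) (hO : Orient (R 2) G) : Strong (R 2) G := by
  intro n B χ α hχ hα hcl hpos
  obtain ⟨π, s, hs, hπ⟩ := exists_pi B
  have h1 : ∀ x, χ x * top B (α x) = s * (χ x * top (fun i => stdR (π i)) (α x)) := by
    intro x
    rw [hπ (α x) (hα.alt x)]
    ring
  simp only [h1] at hpos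
  rw [integral_const_mul] at hpos
  have hpos' : 0 < ∫ x, χ x * top (fun i => stdR (π i)) (α x) := by
    by_contra hcon
    exact absurd hpos (not_lt.2 (mul_nonpos_of_nonneg_of_nonpos hs.le (not_lt.1 hcon)))
  obtain ⟨η, hη, hη2⟩ := strongB_two (isBase_of_isCover h) hO n π χ α
    ⟨hχ.smooth, hχ.compact, hχ.sum⟩ ⟨hα.toIsForm, hα.invariant⟩ hcl hpos'
  refine ⟨η, ⟨hη.smooth, hη.invariant⟩, fun x => ?_⟩
  rw [hπ]
  · exact mul_pos hs (hη2 x)
  · intro u
    rw [add_apply, add_apply, hα.alt x u, zero_add, d1, sub_apply, sub_apply,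
      ContinuousLinearMap.flip_apply, sub_self]

end Pool.Agent.W_9986fc_h24
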