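import Pool.Agent.W_9986fc_h24.Nil.Core
import Pool.Agent.W_9986fc_h24.Nil.SurfN
import Pool.Agent.W_9986fc_h24.Prod.DecA

/-!
The theorem on bundles of nilmanifolds with large monodromy.
-/

set_option autoImplicit false
set_option maxSynthPendingDepth 3

open scoped ContDiff
open Pool.Agent.W_9986fc_h15 MeasureTheory

namespace Pool.Agent.W_9986fc_h24

namespace NilBundle

variable {k b : ℕ} {N : NilLaw k} {Γ G : Type} [Group Γ] [Group G]
    [MulAction Γ (V k b)] [MulAction G (R b)] (X : NilBundle N b Γ G)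

include X in
/-- Class-wise form. With the data of `nil_core` and `ηb` from `Strong (R b) G` (`exists_part` for the
partition on the base), the 1-form `lift ηb - η` has the required property (`form1_lift`,
`d1_lift_nil`, `d1_add`). -/
theorem strong_class (hE : IsCover (V k b) Γ) (hO : Orient (V k b) Γ) (hG : IsCover (R b) G)
    (hs : Orient (R b) G → Strong (R b) G)
    {n : ℕ} (B : Module.Basis (Fin n × Fin 2) ℝ (V k b)) {χ : V k b → ℝ}
    (hχ : Part Γ χ) (α : V k b → V k b →L[ℝ] V k b →L[ℝ] ℝ) (hα : Form2 Γ α) (hc : Closed α)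
    (hL : ∀ z, Module.finrank ℝ (kerC (cpart (mean (N.hat2 α) z))) ≤ b →
      kerC (cpart (mean (N.hat2 α) z)) = ⊥)
    (hpos : 0 < ∫ p, χ p * top B (α p)) :
    ∃ η, Form1 Γ η ∧ ∀ p, 0 < top B (α p + d1 η p) := by
  obtain ⟨χB, hχB, _⟩ := exists_part hG
  obtain ⟨hOb, mb, Bb, h, α₀, η, hh, hhc, hint, hα0, hα0c, hη, hdec, htop⟩ :=
    X.nil_core hE hO hG B hχ α hα hc hL hpos hχB
  obtain ⟨ηb, hηb, hpb⟩ := hs hOb mb Bb χB h hχB hh hhc hint
  have hl := X.form1_lift hE hG ηb hηb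
  refine ⟨fun p => (ηb p.2).comp (ContinuousLinearMap.snd ℝ (R k) (R b)) - η p, ?_, ?_⟩
  · refine { smooth := hl.smooth.sub hη.smooth, invariant := ?_ }
    intro g x
    have h1 := hl.invariant g x
    have h2 := hη.invariant g x
    refine ContinuousLinearMap.ext fun u => ?_
    have h3 := congrArg (fun q => q u) h1
    have h4 := congrArg (fun q => q u) h2
    simp only [pull1, ContinuousLinearMap.comp_apply] at h3 h4
    simp only [pull1, ContinuousLinearMap.comp_apply, _root_.sub_apply]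
    rw [h3, h4]
  · intro p
    rw [d1_sub hl.smooth hη.smooth, d1_lift_nil ηb hηb.smooth, hdec p]
    have h1 : α₀ p + d1 η p + (lift2 (d1 ηb p.2) - d1 η p) = α₀ p + lift2 (d1 ηb p.2) := by
      abel
    rw [h1]
    refine htop p _ (fun u => ?_) (hpb p.2)
    simp [d1]

include X in
/-- With the data of `nil_core` and a symplectic form `s` on the base, the form
`α₀ + lift2 (s - h)` is closed, invariant and has positive top power. -/
theorem weak_class (hE : IsCover (V k b) Γ) (hO : Orient (V k b) Γ) (hG : IsCover (R b) G)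
    (hs : Orient (R b) G → Weak (R b) G)
    {n : ℕ} (B : Module.Basis (Fin n × Fin 2) ℝ (V k b)) {χ : V k b → ℝ}
    (hχ : Part Γ χ) (α : V k b → V k b →L[ℝ] V k b →L[ℝ] ℝ) (hα : Form2 Γ α) (hc : Closed α)
    (hL : ∀ z, Module.finrank ℝ (kerC (cpart (mean (N.hat2 α) z))) ≤ b →
      kerC (cpart (mean (N.hat2 α) z)) = ⊥)
    (hpos : 0 < ∫ p, χ p * top B (α p)) : Symp Γ B := by
  obtain ⟨χB, hχB, _⟩ := exists_part hG
  obtain ⟨hOb, mb, Bb, h, α₀, η, hh, hhc, hint, hα0, hα0c, hη, hdec, htop⟩ :=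
    X.nil_core hE hO hG B hχ α hα hc hL hpos hχB
  obtain ⟨s, hs2, hsc, hsp⟩ := hs hOb mb Bb ⟨χB, h, hχB, hh, hhc, hint⟩
  have hq : Form2 G (fun z => s z + (-1 : ℝ) • h z) := hs2.add (hh.smul (-1))
  have hqc : Closed (fun z => s z + (-1 : ℝ) • h z) :=
    closed_add hs2.toIsForm (hh.smul (-1)).toIsForm hsc (closed_smul hh.toIsForm hhc (-1))
  have hl := X.form2_lift_nil hE hG _ hq
  refine ⟨fun p => α₀ p + lift2 (s p.2 + (-1 : ℝ) • h p.2), hα0.add hl, ?_, ?_⟩
  · exact closed_add hα0.toIsForm hl.toIsForm hα0c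
      (closed_lift2 (fun z => s z + (-1 : ℝ) • h z) hq.smooth hqc)
  · intro p
    refine htop p _ (fun u => hq.alt p.2 u) ?_
    have h1 : h p.2 + (s p.2 + (-1 : ℝ) • h p.2) = s p.2 := by
      rw [neg_one_smul]
      abel
    rw [h1]
    exact hsp p.2

include X in
/-- If the monodromy is large, the hypothesis on the fibre parts is satisfied: they are closed with
invariant class (`mform_mean`, `MForm.closedC`, `invClass_cpart`, `mean_hat2`). -/
theorem large_fibre (hE : IsCover (V k b) Γ) (hG : IsCover (R b) G) (hL : X.Large)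
    {α : V k b → V k b →L[ℝ] V k b →L[ℝ] ℝ} (hα : Form2 Γ α) (hc : Closed α) (z : R b)
    (hz : Module.finrank ℝ (kerC (cpart (mean (N.hat2 α) z))) ≤ b) :
    kerC (cpart (mean (N.hat2 α) z)) = ⊥ := by
  have hm := X.mform_mean hE hG hα hc
  exact hL _ (hm.closedC z) (X.invClass_cpart hE hG hm (fun γ z => X.mean_hat2 hE hG hα γ z) z) hz

end NilBundle

/-- Bundles over surfaces, class-wise form. -/
theorem NilBundle.strong_class_two {k : ℕ} {N : NilLaw k} {Γ G : Type} [Group Γ] [Group G]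
    [MulAction Γ (V k 2)] [MulAction G (R 2)] (X : NilBundle N 2 Γ G)
    (hE : IsCover (V k 2) Γ) (hO : Orient (V k 2) Γ) (hG : IsCover (R 2) G)
    {n : ℕ} (B : Module.Basis (Fin n × Fin 2) ℝ (V k 2)) {χ : V k 2 → ℝ}
    (hχ : Part Γ χ) (α : V k 2 → V k 2 →L[ℝ] V k 2 →L[ℝ] ℝ) (hα : Form2 Γ α) (hc : Closed α)
    (hL : ∀ z, Module.finrank ℝ (kerC (cpart (mean (N.hat2 α) z))) ≤ 2 →
      kerC (cpart (mean (N.hat2 α) z)) = ⊥)
    (hpos : 0 < ∫ p, χ p * top B (α p)) :
    ∃ η, Form1 Γ η ∧ ∀ p, 0 < top B (α p + d1 η p) :=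
  X.strong_class hE hO hG (fun h => strong_two hG h) B hχ α hα hc hL hpos

end Pool.Agent.W_9986fc_h24
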