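import Pool.Agent.W_9986fc_h24.Nil.HatB
import Pool.Agent.W_9986fc_h24.Unf

/-!
The action of `Γ` on the frame, on coefficients and on means.
-/

set_option autoImplicit false
set_option maxSynthPendingDepth 3

open scoped ContDiff
open Pool.Agent.W_9986fc_h15 MeasureTheory

namespace Pool.Agent.W_9986fc_h24

namespace NilBundle

variable {k b : ℕ} {N : NilLaw k} {Γ G : Type} [Group Γ] [Group G]
    [MulAction Γ (V k b)] [MulAction G (R b)] (X : NilBundle N b Γ G)

include X in
theorem A_zero (γ : Γ) : X.A γ 0 = 0 := by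
  have h := X.hom γ 0 0
  rw [N.mul_zero] at h
  refine (N.mul_left_cancel (X.A γ 0) 0 (X.A γ 0) ?_).symm
  rw [N.mul_zero]
  exact h

include X in
/-- The first component of the action is `A γ x * m γ z`, the second one `π γ • z`. -/
theorem smul_snd (γ : Γ) (p : V k b) : (γ • p).2 = X.π γ • p.2 := by
  have h := X.act γ p.1 p.2
  have h2 : ((p.1, p.2) : V k b) = p := rfl
  rw [h2] at h
  rw [h]

include X in
theorem ActA_smul_fst (γ : Γ) (p : V k b) : (γ • p).1 = N.mul (X.A γ p.1) (X.m γ p.2) := by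
  have h := X.act γ p.1 p.2
  have h2 : ((p.1, p.2) : V k b) = p := rfl
  rw [h2] at h
  rw [h]

include X in
theorem ActA_smul_left (γ : Γ) (x y : R k) (z : R b) :
    γ • ((N.mul x y, z) : V k b) =
      (N.mul (X.A γ x) (γ • ((y, z) : V k b)).1, (γ • ((y, z) : V k b)).2) := by
  rw [X.act, X.act, X.hom, N.assoc]

include X in
/-- The elements of `Γ` normalize the lattice translations. -/
theorem smul_lattice (γ : Γ) (n : Fin k → ℤ) : ∃ l : Fin k → ℤ, ∀ x z,
    γ • ((N.mul (intV n) x, z) : V k b) =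
      (N.mul (intV l) (γ • ((x, z) : V k b)).1, (γ • ((x, z) : V k b)).2) := by
  obtain ⟨l, hl⟩ := X.lat γ n
  refine ⟨l, fun x z => ?_⟩
  rw [ActA_smul_left X, hl]

include X in
/-- Invariance under the lattice is preserved by the action. -/
theorem lam_smul {H : Type*} (γ : Γ) {F : V k b → H} (hL : N.Lam F) :
    N.Lam (fun p => F (γ • p)) := by
  intro n x z
  obtain ⟨l, hl⟩ := smul_lattice X γ n
  change F (γ • ((N.mul (intV n) x, z) : V k b)) = F (γ • ((x, z) : V k b))
  rw [hl x z, hL l]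

omit [Group G] [MulAction G (R b)] in
/-- The defining property of `Th` (`inverse_Q`). -/
theorem Q_Th (γ : Γ) (p : V k b) :
    (N.Q (γ • p)).comp (Th N γ p) = (fderiv ℝ (fun x : V k b => γ • x) p).comp (N.Q p) := by
  unfold Th
  rw [← ContinuousLinearMap.comp_assoc, (N.inverse_Q (γ • p)).2, ContinuousLinearMap.id_comp]

theorem ActA_Q_zero (z : R b) : N.Q ((0, z) : V k b) = ContinuousLinearMap.id ℝ (V k b) := by
  refine ContinuousLinearMap.ext fun u => ?_
  rw [NilLaw.Q_apply]
  change ((N.q 0) u.1, u.2) = u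
  rw [NilLaw.q_zero]
  rfl

theorem ActA_diff_left (x : R k) :
    Differentiable ℝ (fun p : V k b => ((N.mul x p.1, p.2) : V k b)) := by
  have h : ContDiff ℝ ∞ (fun p : V k b => ((N.mul x p.1, p.2) : V k b)) :=
    (N.smooth.comp (contDiff_const.prodMk contDiff_fst)).prodMk contDiff_snd
  exact h.differentiable (by simp)

include X in
/-- `Th` does not depend on the first coordinate. Let `L_x (y, z) = (x * y, z)`. Then
`γ • L_x (y, z) = L_(A x) (γ • (y, z))` by `act`, `hom`, `assoc`. Differentiate at `(0, z)`, and use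
`left_Q` and `Q (0, z) = id`: `D γ (x, z) ∘ Q (x, z) = Q (γ (x, z)) ∘ Q (γ (0, z))⁻¹ ∘ D γ (0, z)`. -/
theorem Th_eq (hE : IsCover (V k b) Γ) (γ : Γ) (p : V k b) :
    Th N γ p = Th N γ ((0, p.2) : V k b) := by
  obtain ⟨x, z⟩ := p
  change Th N γ ((x, z) : V k b) = Th N γ ((0, z) : V k b)
  have hL := fun y => (ActA_diff_left (N := N) (b := b) y)
  -- the derivative of the left translation by `x` at `(0, z)`
  have e1 : fderiv ℝ (fun p : V k b => ((N.mul x p.1, p.2) : V k b)) ((0, z) : V k b) =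
      N.Q ((x, z) : V k b) := by
    have h := N.left_Q x ((0, z) : V k b)
    rw [ActA_Q_zero, ContinuousLinearMap.comp_id] at h
    rw [h]
    change N.Q ((N.mul x 0, z) : V k b) = _
    rw [N.mul_zero]
  have e2 : (fderiv ℝ (fun p : V k b => ((N.mul (X.A γ x) p.1, p.2) : V k b))
      (γ • ((0, z) : V k b))).comp (N.Q (γ • ((0, z) : V k b))) = N.Q (γ • ((x, z) : V k b)) := by
    rw [N.left_Q]
    have h := ActA_smul_left X γ x 0 z
    rw [N.mul_zero] at h
    rw [h]
  -- the chain rule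
  have e3 : (fun p : V k b => γ • ((N.mul x p.1, p.2) : V k b)) =
      fun p : V k b => ((N.mul (X.A γ x) (γ • p).1, (γ • p).2) : V k b) := by
    funext p
    exact ActA_smul_left X γ x p.1 p.2
  have e4 : HasFDerivAt (fun p : V k b => γ • ((N.mul x p.1, p.2) : V k b))
      ((fderiv ℝ (fun x : V k b => γ • x) ((x, z) : V k b)).comp (N.Q ((x, z) : V k b)))
      ((0, z) : V k b) := by
    have h1 := (hL x ((0, z) : V k b)).hasFDerivAt
    rw [e1] at h1
    have h2 := smul_hasFDerivAt hE γ ((x, z) : V k b)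
    have h3 : ((x, z) : V k b) = (fun p : V k b => ((N.mul x p.1, p.2) : V k b)) ((0, z) : V k b) := by
      change _ = ((N.mul x 0, z) : V k b)
      rw [N.mul_zero]
    have h4 : HasFDerivAt (fun x : V k b => γ • x)
        (fderiv ℝ (fun x : V k b => γ • x) ((x, z) : V k b))
        ((fun p : V k b => ((N.mul x p.1, p.2) : V k b)) ((0, z) : V k b)) := by
      rw [← h3]
      exact h2
    exact h4.comp ((0, z) : V k b) h1
  have e5 : HasFDerivAt (fun p : V k b => ((N.mul (X.A γ x) (γ • p).1, (γ • p).2) : V k b))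
      ((fderiv ℝ (fun p : V k b => ((N.mul (X.A γ x) p.1, p.2) : V k b))
        (γ • ((0, z) : V k b))).comp (fderiv ℝ (fun x : V k b => γ • x) ((0, z) : V k b)))
      ((0, z) : V k b) := by
    have h1 := (hL (X.A γ x) (γ • ((0, z) : V k b))).hasFDerivAt
    have h2 := smul_hasFDerivAt hE γ ((0, z) : V k b)
    exact h1.comp ((0, z) : V k b) h2
  rw [e3] at e4
  have e6 := e4.unique e5
  have e7 : (N.Q (γ • ((x, z) : V k b))).comp (Th N γ ((0, z) : V k b)) =
      (fderiv ℝ (fun x : V k b => γ • x) ((x, z) : V k b)).comp (N.Q ((x, z) : V k b)) := by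
    rw [e6, ← e2, ContinuousLinearMap.comp_assoc, Q_Th, ActA_Q_zero, ContinuousLinearMap.comp_id]
  unfold Th at e7 ⊢
  rw [← e7, ← ContinuousLinearMap.comp_assoc, (N.inverse_Q (γ • ((x, z) : V k b))).1,
    ContinuousLinearMap.id_comp]

include X in
/-- The block form: the component in `ℝ^b` of `Th γ p u` is the derivative of `π γ`. -/
theorem Th_snd (hE : IsCover (V k b) Γ) (hG : IsCover (R b) G) (γ : Γ) (p u : V k b) :
    (Th N γ p u).2 = fderiv ℝ (fun z : R b => X.π γ • z) p.2 u.2 := by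
  have h1 := DFunLike.congr_fun (Q_Th (N := N) γ p) u
  have h2 : (Th N γ p u).2 = (fderiv ℝ (fun x : V k b => γ • x) p (N.Q p u)).2 := by
    have h3 := congrArg Prod.snd h1
    exact h3
  rw [h2]
  have h4 := (smul_hasFDerivAt hE γ p).snd
  have h5 : (fun x : V k b => (γ • x).2) = fun x : V k b => X.π γ • x.2 := by
    funext x
    exact smul_snd X γ x
  rw [h5] at h4
  have h6 : HasFDerivAt (fun z : R b => X.π γ • z)
      (fderiv ℝ (fun z : R b => X.π γ • z) p.2) p.2 :=
    (((hG.smooth (X.π γ)).differentiable (by simp)) p.2).hasFDerivAt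
  have h7 : HasFDerivAt (fun x : V k b => X.π γ • x.2)
      ((fderiv ℝ (fun z : R b => X.π γ • z) p.2).comp (ContinuousLinearMap.snd ℝ (R k) (R b))) p :=
    h6.comp p hasFDerivAt_snd
  have h8 := DFunLike.congr_fun (h4.unique h7) (N.Q p u)
  exact h8

omit [Group G] [MulAction G (R b)] in
/-- Coefficients of pullbacks. -/
theorem hat2_pull2 (α : V k b → V k b →L[ℝ] V k b →L[ℝ] ℝ) (γ : Γ) (p : V k b) :
    N.hat2 (pull2 (fun x : V k b => γ • x) α) p =
      (N.hat2 α (γ • p)).bilinearComp (Th N γ p) (Th N γ p) := by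
  refine ContinuousLinearMap.ext fun u => ContinuousLinearMap.ext fun v => ?_
  have h1 := fun u => DFunLike.congr_fun (Q_Th (N := N) γ p) u
  rw [NilLaw.hat2_apply]
  change α (γ • p) (fderiv ℝ (fun x : V k b => γ • x) p (N.Q p u))
    (fderiv ℝ (fun x : V k b => γ • x) p (N.Q p v)) =
    α (γ • p) (N.Q (γ • p) (Th N γ p u)) (N.Q (γ • p) (Th N γ p v))
  have h2 : ∀ u, N.Q (γ • p) (Th N γ p u) = fderiv ℝ (fun x : V k b => γ • x) p (N.Q p u) :=
    fun u => h1 u
  rw [h2, h2]

omit [Group G] [MulAction G (R b)] in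
theorem hat1_pull1 (η : V k b → V k b →L[ℝ] ℝ) (γ : Γ) (p : V k b) :
    N.hat1 (pull1 (fun x : V k b => γ • x) η) p = (N.hat1 η (γ • p)).comp (Th N γ p) := by
  refine ContinuousLinearMap.ext fun u => ?_
  have h1 := fun u => DFunLike.congr_fun (Q_Th (N := N) γ p) u
  have h2 : ∀ u, N.Q (γ • p) (Th N γ p u) = fderiv ℝ (fun x : V k b => γ • x) p (N.Q p u) :=
    fun u => h1 u
  rw [NilLaw.hat1_apply]
  change η (γ • p) (fderiv ℝ (fun x : V k b => γ • x) p (N.Q p u)) =
    η (γ • p) (N.Q (γ • p) (Th N γ p u))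
  rw [h2]

end NilBundle

end Pool.Agent.W_9986fc_h24
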