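import Pool.Agent.W_9986fc_h24.Nil.MeanB

/-!
Means of averages and of exterior derivatives.
-/

set_option autoImplicit false
set_option maxSynthPendingDepth 3

open scoped ContDiff
open Pool.Agent.W_9986fc_h15 MeasureTheory

namespace Pool.Agent.W_9986fc_h24

namespace NilLaw

variable {k b : ℕ} (N : NilLaw k) {H : Type*} [NormedAddCommGroup H] [NormedSpace ℝ H]
  [CompleteSpace H]

/-- The mean of a weighted average in the direction of the last coordinate: exchange the integrals;
`F (x + t e_j) = F (x * (t e_j))` (`mul_dir`) and `mean_mul_right`. -/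
theorem mean_wavg (j : Fin k) (F : V k b → H) (hF : Continuous F) (hD : Dep (j + 1) F)
    (hL : N.Lam F) (w : ℝ → ℝ) (hw : Continuous w) (z : R b) :
    mean (wavg w (dir j : V k b) F) z = (∫ t in (0 : ℝ)..1, w t) • mean F z := by
  have hle : (0 : ℝ) ≤ 1 := zero_le_one
  have hint : MeasureTheory.Integrable
      (Function.uncurry fun (v : R k) (t : ℝ) => w t • F ((v, z) + t • (dir j : V k b)))
      ((MeasureTheory.volume.restrict (Set.Icc (0 : R k) 1)).prod
        (MeasureTheory.volume.restrict (Set.Ioc (0 : ℝ) 1))) := by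
    rw [MeasureTheory.Measure.prod_restrict]
    have hcont : Continuous
        (Function.uncurry fun (v : R k) (t : ℝ) => w t • F ((v, z) + t • (dir j : V k b))) := by
      have h1 : Continuous (fun x : R k × ℝ => w x.2 • F ((x.1, z) + x.2 • (dir j : V k b))) := by
        fun_prop
      exact h1
    refine MeasureTheory.IntegrableOn.mono_set
      (hcont.continuousOn.integrableOn_compact
        ((isCompact_Icc (a := (0 : R k)) (b := 1)).prod
          (isCompact_Icc (a := (0 : ℝ)) (b := 1)))) ?_
    exact Set.prod_mono_right Set.Ioc_subset_Icc_self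
  have h1 : mean (wavg w (dir j : V k b) F) z = ∫ v in Set.Icc (0 : R k) 1,
      ∫ t in Set.Ioc (0 : ℝ) 1, w t • F ((v, z) + t • (dir j : V k b)) := by
    unfold mean wavg
    simp only [intervalIntegral.integral_of_le hle]
  rw [h1, MeasureTheory.integral_integral_swap hint]
  have h2 : ∀ t : ℝ, ∫ v in Set.Icc (0 : R k) 1, w t • F ((v, z) + t • (dir j : V k b)) =
      w t • mean F z := by
    intro t
    rw [MeasureTheory.integral_smul]
    congr 1
    rw [← N.mean_mul_right F hF hL (Pi.single j t) z]
    refine MeasureTheory.integral_congr_ae (Filter.Eventually.of_forall fun v => ?_)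
    exact (N.mul_dir j hD t v z).symm
  simp only [h2]
  rw [integral_smul_const, ← intervalIntegral.integral_of_le hle]

theorem mean_prim_dir (j : Fin k) (F : V k b → H) (hF : Continuous F) (hD : Dep (j + 1) F)
    (hL : N.Lam F) (z : R b) : mean (prim (dir j : V k b) F) z = 0 := by
  rw [← wavg_prim, N.mean_wavg j F hF hD hL (fun t => t - 1 / 2)
    (continuous_id.sub continuous_const) z]
  have h3 : ∫ t in (0 : ℝ)..1, (t - 1 / 2) = 0 := by
    rw [intervalIntegral.integral_sub (by simp) (by simp)]
    simp
  rw [h3, zero_smul]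

theorem mean_avg_dir (j : Fin k) (F : V k b → H) (hF : Continuous F) (hD : Dep (j + 1) F)
    (hL : N.Lam F) (z : R b) : mean (avg (dir j : V k b) F) z = mean F z := by
  rw [← wavg_one, N.mean_wavg j F hF hD hL _ continuous_const z]
  simp

omit [CompleteSpace H] in
/-- The mean of a function of `z`. -/
theorem mean_dep_zero [CompleteSpace H] (F : V k b → H) (hD : Dep 0 F) (p : V k b) :
    mean F p.2 = F p := by
  have h1 : mean F p.2 = mean (k := k) (b := b) (fun _ => F p) p.2 := by
    unfold mean
    refine MeasureTheory.integral_congr_ae (Filter.Eventually.of_forall fun v => ?_)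
    exact hD v p.1 p.2 fun i hi => absurd hi (Nat.not_lt_zero _)
  rw [h1]
  exact mean_const (F p) p.2

theorem MeanD_continuous_D (η : V k b → V k b →L[ℝ] ℝ) (hη : ContDiff ℝ ∞ η) :
    Continuous (N.D η) := by
  have h1 : Continuous (fderiv ℝ η) := hη.continuous_fderiv (by simp)
  have h2 : Continuous (N.Q : V k b → V k b →L[ℝ] V k b) := N.contDiff_Q.continuous
  exact h1.clm_comp h2

/-- If the coefficients of a 1-form have mean zero, then so have the coefficients of its exterior
derivative: evaluate at `u, v` (`mean_clm`), split `u`, `v` in vertical and horizontal parts, use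
`mean_D_vert`, `mean_D_hor`. -/
theorem mean_hd1 (η : V k b → V k b →L[ℝ] ℝ) (hη : ContDiff ℝ ∞ η) (hL : N.Lam η)
    (hm : ∀ z, mean η z = 0) (z : R b) : mean (N.hd1 η) z = 0 := by
  have hDc := N.MeanD_continuous_D η hη
  have hm' : mean η = fun _ => 0 := funext hm
  -- the mean of the derivative along the frame
  have key : ∀ u : V k b, mean (fun p => N.D η p u) z = 0 := by
    intro u
    have hsplit : (fun p => N.D η p u) = fun p => N.D η p (u.1, 0) + N.D η p (0, u.2) := by
      funext p
      rw [← map_add]
      congr 1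
      ext1 <;> simp
    rw [hsplit, mean_add_fun _ _ (hDc.clm_apply continuous_const) (hDc.clm_apply continuous_const),
      N.mean_D_vert η hη hL, N.mean_D_hor η hη, hm']
    simp
  have key2 : ∀ u v : V k b, mean (fun p => N.D η p u v) z = 0 := by
    intro u v
    have h := mean_clm (fun _ => ContinuousLinearMap.apply ℝ ℝ v) (fun p => N.D η p u)
      (hDc.clm_apply continuous_const) z
    simp only [ContinuousLinearMap.apply_apply] at h
    rw [h, key u]
    simp
  have key3 : ∀ v : V k b, mean (fun p => η p v) z = 0 := by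
    intro v
    have h := mean_clm (fun _ => ContinuousLinearMap.apply ℝ ℝ v) η hη.continuous z
    simp only [ContinuousLinearMap.apply_apply] at h
    rw [h, hm z]
    simp
  have hcont : Continuous (N.hd1 η) := (N.contDiff_hd1 η hη).continuous
  refine ContinuousLinearMap.ext fun u => ContinuousLinearMap.ext fun v => ?_
  have h1 := mean_clm (fun _ => (ContinuousLinearMap.apply ℝ ℝ v).comp
    (ContinuousLinearMap.apply ℝ (V k b →L[ℝ] ℝ) u)) (N.hd1 η) hcont z
  simp only [ContinuousLinearMap.comp_apply, ContinuousLinearMap.apply_apply] at h1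
  rw [← h1]
  have hfun : (fun p => N.hd1 η p u v) = fun p =>
      (N.D η p u v + (-1 : ℝ) • N.D η p v u) + (-1 : ℝ) • η p (N.brV u v) := by
    funext p
    rw [hd1_apply]
    simp only [smul_eq_mul]
    ring
  have hc1 : Continuous fun p => N.D η p u v :=
    (hDc.clm_apply continuous_const).clm_apply continuous_const
  have hc2 : Continuous fun p => N.D η p v u :=
    (hDc.clm_apply continuous_const).clm_apply continuous_const
  have hc3 : Continuous fun p => η p (N.brV u v) := hη.continuous.clm_apply continuous_const
  rw [hfun, mean_add_fun (fun p => N.D η p u v + (-1 : ℝ) • N.D η p v u)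
    (fun p => (-1 : ℝ) • η p (N.brV u v)) (hc1.add (hc2.const_smul (-1 : ℝ)))
    (hc3.const_smul (-1 : ℝ)),
    mean_add_fun (fun p => N.D η p u v) (fun p => (-1 : ℝ) • N.D η p v u) hc1
    (hc2.const_smul (-1 : ℝ))]
  have e2 := mean_smul_snd (fun _ => (-1 : ℝ)) (fun p => N.D η p v u) z
  have e3 := mean_smul_snd (fun _ => (-1 : ℝ)) (fun p => η p (N.brV u v)) z
  -- evaluate
  rw [e2, e3, key2 u v, key2 v u, key3]
  simp

end NilLaw

end Pool.Agent.W_9986fc_h24
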