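import Pool.Agent.W_9986fc_h24.Nil.ActA
import Pool.Agent.W_9986fc_h24.Nil.MeanD

/-!
The lattice, the automorphisms of the Lie algebra, means.
-/

set_option autoImplicit false
set_option maxSynthPendingDepth 3

open scoped ContDiff
open Pool.Agent.W_9986fc_h15 MeasureTheory

namespace Pool.Agent.W_9986fc_h24

namespace NilBundle

variable {k b : ℕ} {N : NilLaw k} {Γ G : Type} [Group Γ] [Group G]
    [MulAction Γ (V k b)] [MulAction G (R b)] (X : NilBundle N b Γ G)

include X in
/-- The lattice acts trivially on coefficients: `Th (lam n) p = id` (`left_Q`). Hence the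
coefficients of forms invariant under `Γ` are invariant under the lattice. -/
theorem Th_lam (hE : IsCover (V k b) Γ) (n : Fin k → ℤ) (p : V k b) :
    Th N (X.lam n) p = ContinuousLinearMap.id ℝ (V k b) := by
  have h1 : (fun x : V k b => X.lam n • x) =
      fun p : V k b => ((N.mul (intV n) p.1, p.2) : V k b) := by
    funext p
    exact X.lam_act n p.1 p.2
  have h2 : X.lam n • p = ((N.mul (intV n) p.1, p.2) : V k b) := X.lam_act n p.1 p.2
  rw [Th, h1, N.left_Q, h2, (N.inverse_Q _).1]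

include X in
theorem lam_hat2 (hE : IsCover (V k b) Γ) {α : V k b → V k b →L[ℝ] V k b →L[ℝ] ℝ}
    (hα : Form2 Γ α) : N.Lam (N.hat2 α) := by
  intro n x z
  have h1 : pull2 (fun x : V k b => X.lam n • x) α = α := by
    funext p
    exact hα.invariant (X.lam n) p
  have h2 := hat2_pull2 (N := N) α (X.lam n) ((x, z) : V k b)
  rw [h1, X.Th_lam hE n, X.lam_act] at h2
  rw [h2]
  rfl

include X in
/-- The restriction of the automorphism to the Lie algebra of the fibre: `Th γ p (u, 0) = (a u, 0)`. -/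
theorem Th_vert (hE : IsCover (V k b) Γ) (hG : IsCover (R b) G) (γ : Γ) (p : V k b) (u : R k) :
    Th N γ p (u, 0) = (a N γ p.2 u, 0) := by
  refine Prod.ext ?_ ?_
  · rw [X.Th_eq hE γ p]
    rfl
  · rw [X.Th_snd hE hG γ p (u, 0)]
    exact map_zero _

/-- The fibre map `ψ x = A γ x * m γ z`. -/
noncomputable def ActB_psi (X : NilBundle N b Γ G) (γ : Γ) (z : R b) (x : R k) : R k :=
  N.mul (X.A γ x) (X.m γ z)

theorem ActB_smul (γ : Γ) (z : R b) (x : R k) :
    γ • ((x, z) : V k b) = (ActB_psi X γ z x, X.π γ • z) := X.act γ x z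

theorem ActB_smooth (γ : Γ) (z : R b) : ContDiff ℝ ∞ (ActB_psi X γ z) :=
  N.smooth.comp ((X.smoothA γ).prodMk contDiff_const)

theorem ActB_fderiv (hE : IsCover (V k b) Γ) (γ : Γ) (z : R b) (x w : R k) :
    fderiv ℝ (ActB_psi X γ z) x w =
      (fderiv ℝ (fun p : V k b => γ • p) ((x, z) : V k b) ((w, 0) : V k b)).1 := by
  have h1 : HasFDerivAt (fun p : V k b => γ • p)
      (fderiv ℝ (fun p : V k b => γ • p) ((x, z) : V k b)) ((x, z) : V k b) :=
    ((hE.smooth γ).differentiable (by simp) _).hasFDerivAt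
  have h2 : HasFDerivAt (fun y : R k => ((y, z) : V k b))
      ((ContinuousLinearMap.id ℝ (R k)).prod (0 : R k →L[ℝ] R b)) x :=
    (hasFDerivAt_id x).prodMk (hasFDerivAt_const z x)
  have h3 : HasFDerivAt (ActB_psi X γ z)
      ((ContinuousLinearMap.fst ℝ (R k) (R b)).comp
        ((fderiv ℝ (fun p : V k b => γ • p) ((x, z) : V k b)).comp
          ((ContinuousLinearMap.id ℝ (R k)).prod (0 : R k →L[ℝ] R b)))) x := by
    have h4 : ActB_psi X γ z = fun y : R k => (γ • ((y, z) : V k b)).1 := by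
      funext y
      rw [X.ActB_smul γ z y]
    rw [h4]
    exact (ContinuousLinearMap.fst ℝ (R k) (R b)).hasFDerivAt.comp x (h1.comp x h2)
  rw [h3.fderiv]
  rfl

/-- `D ψ (x) (q x u) = q (ψ x) (a u)`. -/
theorem ActB_key (hE : IsCover (V k b) Γ) (hG : IsCover (R b) G) (γ : Γ) (z : R b)
    (x u : R k) :
    fderiv ℝ (ActB_psi X γ z) x (N.q x u) = N.q (ActB_psi X γ z x) (a N γ z u) := by
  have h1 := congrArg (fun T : V k b →L[ℝ] V k b => (T ((u, 0) : V k b)).1)
    (Q_Th (N := N) γ ((x, z) : V k b))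
  simp only [ContinuousLinearMap.comp_apply] at h1
  rw [X.Th_vert hE hG γ ((x, z) : V k b) u, N.Q_apply, N.Q_apply, X.ActB_smul γ z x] at h1
  rw [X.ActB_fderiv hE γ z x]
  exact h1.symm

include X in
/-- The map `a` is an automorphism of the Lie algebra. The fibre map `ψ x = A γ x * m γ z` satisfies
`D ψ (x) (q x u) = q (ψ x) (a u)` (`Th_eq`, `Q_Th`), so `D_u (F ∘ ψ) = (D_(a u) F) ∘ ψ` for the
derivatives along left invariant fields; compare `D_u D_v - D_v D_u = D_[u,v]` (`structure_eq`) for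
`F ∘ ψ` and `F`, for linear functions `F`. -/
theorem a_br (hE : IsCover (V k b) Γ) (hG : IsCover (R b) G) (γ : Γ) (z : R b) (u v : R k) :
    a N γ z (N.br u v) = N.br (a N γ z u) (a N γ z v) := by
  have hψ := X.ActB_smooth γ z
  set ψ := ActB_psi X γ z with hψdef
  have hsymm : IsSymmSndFDerivAt ℝ ψ 0 := hψ.contDiffAt.isSymmSndFDerivAt (by
    rw [minSmoothness_of_isRCLikeNormedField]
    exact WithTop.coe_le_coe.2 le_top)
  have hdψ : ContDiff ℝ ∞ (fderiv ℝ ψ) := hψ.fderiv_right (by simp)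
  have hq : ContDiff ℝ ∞ N.q := N.contDiff_q
  have hD : ∀ (u w : R k),
      fderiv ℝ (fderiv ℝ ψ) 0 w (N.q 0 u) + fderiv ℝ ψ 0 (fderiv ℝ N.q 0 w u) =
        fderiv ℝ N.q (ψ 0) (fderiv ℝ ψ 0 w) (a N γ z u) := by
    intro u w
    have h1 : HasFDerivAt (fderiv ℝ ψ) (fderiv ℝ (fderiv ℝ ψ) 0) 0 :=
      (hdψ.differentiable (by simp) 0).hasFDerivAt
    have h2 : HasFDerivAt N.q (fderiv ℝ N.q 0) 0 :=
      (hq.differentiable (by simp) 0).hasFDerivAt
    have h3 : HasFDerivAt N.q (fderiv ℝ N.q (ψ 0)) (ψ 0) :=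
      (hq.differentiable (by simp) (ψ 0)).hasFDerivAt
    have h4 : HasFDerivAt ψ (fderiv ℝ ψ 0) 0 :=
      (hψ.differentiable (by simp) 0).hasFDerivAt
    have h5 : HasFDerivAt (fun x => N.q x u) ((fderiv ℝ N.q 0).flip u) 0 := by
      have := h2.clm_apply (hasFDerivAt_const u (0 : R k))
      refine this.congr_fderiv ?_
      ext w
      simp
    have h6 := h1.clm_apply h5
    have h7 : HasFDerivAt (fun x => N.q (ψ x) (a N γ z u))
        (((fderiv ℝ N.q (ψ 0)).comp (fderiv ℝ ψ 0)).flip (a N γ z u)) 0 := by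
      have := (h3.comp (0 : R k) h4).clm_apply (hasFDerivAt_const (a N γ z u) (0 : R k))
      refine this.congr_fderiv ?_
      ext w
      simp
    have h8 : (fun x => fderiv ℝ ψ x (N.q x u)) = fun x => N.q (ψ x) (a N γ z u) := by
      funext x
      exact X.ActB_key hE hG γ z x u
    rw [h8] at h6
    have h9 := congrArg (fun T : R k →L[ℝ] R k => T w) (h6.unique h7)
    simp only [add_apply, ContinuousLinearMap.comp_apply,
      ContinuousLinearMap.flip_apply] at h9
    rw [← h9]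
    abel
  have hk : ∀ u : R k, fderiv ℝ ψ 0 (N.q 0 u) = N.q (ψ 0) (a N γ z u) := fun u =>
    X.ActB_key hE hG γ z 0 u
  have e1 := hD v (N.q 0 u)
  have e2 := hD u (N.q 0 v)
  rw [hk] at e1 e2
  rw [hsymm.eq (N.q 0 u) (N.q 0 v)] at e1
  have e3 : fderiv ℝ ψ 0 (fderiv ℝ N.q 0 (N.q 0 u) v - fderiv ℝ N.q 0 (N.q 0 v) u) =
      fderiv ℝ N.q (ψ 0) (N.q (ψ 0) (a N γ z u)) (a N γ z v) -
        fderiv ℝ N.q (ψ 0) (N.q (ψ 0) (a N γ z v)) (a N γ z u) := by
    rw [map_sub, ← e1, ← e2]
    abel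
  rw [N.structure_eq, N.structure_eq, hk] at e3
  have h10 := congrArg (N.q (ψ 0)).inverse e3
  have h11 : ∀ w, (N.q (ψ 0)).inverse (N.q (ψ 0) w) = w := fun w =>
    congrArg (fun T : R k →L[ℝ] R k => T w) (N.inverse_q (ψ 0)).1
  rwa [h11, h11] at h10

include X in
/-- The fibre maps satisfy the hypotheses of `integral_comp`: `ψ x = A γ x * m γ z` is smooth and
bijective (it is the restriction of the bijection `γ` to a fibre), `D ψ (x) ∘ q x = q (ψ x) ∘ a`
shows that its Jacobian has the constant determinant `det a` (`det_q`), which is not zero because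
`D γ` is invertible (block form); and `ψ (n * x) = A γ n * ψ x`. -/
theorem mean_smul {H : Type*} [NormedAddCommGroup H] [NormedSpace ℝ H] [CompleteSpace H]
    (hE : IsCover (V k b) Γ) (hG : IsCover (R b) G) (F : V k b → H) (hF : Continuous F)
    (hL : N.Lam F) (γ : Γ) (z : R b) :
    mean (fun p => F (γ • p)) z = mean F (X.π γ • z) := by
  have hinv : ∀ (γ : Γ) (z : R b) (x : R k),
      ActB_psi X γ⁻¹ (X.π γ • z) (ActB_psi X γ z x) = x := by
    intro γ z x
    have h1 := X.ActB_smul γ⁻¹ (X.π γ • z) (ActB_psi X γ z x)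
    rw [← X.ActB_smul γ z x, inv_smul_smul] at h1
    exact (congrArg Prod.fst h1).symm
  have hinv' : ∀ (γ : Γ) (z : R b) (y : R k),
      ActB_psi X γ z (ActB_psi X γ⁻¹ (X.π γ • z) y) = y := by
    intro γ z y
    have h1 := hinv γ⁻¹ (X.π γ • z) y
    rwa [inv_inv, ← mul_smul, ← map_mul, inv_mul_cancel, map_one, one_smul] at h1
  have hdet : ∀ x, (fderiv ℝ (ActB_psi X γ z) x).det = (a N γ z).det := by
    intro x
    have h1 : (fderiv ℝ (ActB_psi X γ z) x).comp (N.q x) =
        (N.q (ActB_psi X γ z x)).comp (a N γ z) := by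
      refine ContinuousLinearMap.ext fun u => ?_
      exact X.ActB_key hE hG γ z x u
    have h2 := congrArg ContinuousLinearMap.det h1
    have hc : ∀ S T : R k →L[ℝ] R k, (S.comp T).det = S.det * T.det := by
      intro S T
      exact LinearMap.det_comp (S : R k →ₗ[ℝ] R k) (T : R k →ₗ[ℝ] R k)
    rw [hc, hc, N.det_q, N.det_q, mul_one, one_mul] at h2
    exact h2
  have hdet0 : (a N γ z).det ≠ 0 := by
    intro h0
    have hc : ∀ S T : R k →L[ℝ] R k, (S.comp T).det = S.det * T.det := by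
      intro S T
      exact LinearMap.det_comp (S : R k →ₗ[ℝ] R k) (T : R k →ₗ[ℝ] R k)
    have h1 : HasFDerivAt (ActB_psi X γ z) (fderiv ℝ (ActB_psi X γ z) 0) 0 :=
      ((X.ActB_smooth γ z).differentiable (by simp) 0).hasFDerivAt
    have h2 : HasFDerivAt (ActB_psi X γ⁻¹ (X.π γ • z))
        (fderiv ℝ (ActB_psi X γ⁻¹ (X.π γ • z)) (ActB_psi X γ z 0)) (ActB_psi X γ z 0) :=
      ((X.ActB_smooth γ⁻¹ (X.π γ • z)).differentiable (by simp) _).hasFDerivAt
    have h3 := h2.comp (0 : R k) h1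
    have h4 : ActB_psi X γ⁻¹ (X.π γ • z) ∘ ActB_psi X γ z = id := funext fun x => hinv γ z x
    rw [h4] at h3
    have h5 := congrArg ContinuousLinearMap.det (h3.unique (hasFDerivAt_id (0 : R k)))
    rw [hc, hdet, h0, mul_zero] at h5
    have h6 : (ContinuousLinearMap.id ℝ (R k)).det = 1 := LinearMap.det_id
    rw [h6] at h5
    exact zero_ne_one h5
  have hcomp := N.integral_comp (fun x => F ((x, X.π γ • z) : V k b))
    (hF.comp (continuous_id.prodMk continuous_const)) (fun n x => hL n x _)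
    (ActB_psi X γ z) (X.ActB_smooth γ z)
    ⟨fun x y h => by rw [← hinv γ z x, h, hinv γ z y],
      fun y => ⟨ActB_psi X γ⁻¹ (X.π γ • z) y, hinv' γ z y⟩⟩
    (a N γ z).det hdet hdet0
    (fun n => by
      obtain ⟨l, hl⟩ := X.lat γ n
      refine ⟨l, fun x => ?_⟩
      rw [ActB_psi, X.hom, hl, N.assoc]
      rfl)
    (fun l => by
      obtain ⟨n, hn⟩ := X.lat' γ l
      refine ⟨n, fun x => ?_⟩
      rw [ActB_psi, X.hom, hn, N.assoc]
      rfl)
  rw [mean, mean]
  rw [← hcomp]
  refine integral_congr_ae (Filter.Eventually.of_forall fun x => ?_)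
  exact congrArg F (X.ActB_smul γ z x)

end NilBundle

end Pool.Agent.W_9986fc_h24
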