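import Pool.Agent.W_9986fc_h24.Nil.HorA
import Pool.Agent.W_9986fc_h24.Nil.ActB

/-!
The horizontal part and the group actions.
-/

set_option autoImplicit false
set_option maxSynthPendingDepth 3

open scoped ContDiff
open Pool.Agent.W_9986fc_h15

namespace Pool.Agent.W_9986fc_h24

variable {k b n mk mb : ℕ} {N : NilLaw k} {m : R b → V k b →L[ℝ] V k b →L[ℝ] ℝ}

namespace NilBundle

variable {Γ G : Type} [Group Γ] [Group G]
    [MulAction Γ (V k b)] [MulAction G (R b)] (X : NilBundle N b Γ G)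

omit [Group G] [MulAction G (R b)] in
/-- The derivative of `γ` in the frames is injective. -/
theorem Hor_inj (hE : IsCover (V k b) Γ) (γ : Γ) (p u : V k b) (h : Th N γ p u = 0) : u = 0 := by
  have h1 := congrArg (fun T : V k b →L[ℝ] V k b => T u) (Q_Th (N := N) γ p)
  simp only [ContinuousLinearMap.comp_apply] at h1
  rw [h, map_zero] at h1
  have h2 := congrArg (fun T : V k b →L[ℝ] V k b => T (N.Q p u)) (fderiv_smul_mul hE γ⁻¹ γ p)
  simp only [ContinuousLinearMap.comp_apply] at h2
  rw [← h1, map_zero] at h2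
  have h3 : (fun x : V k b => (γ⁻¹ * γ) • x) = fun x => x := by
    funext x
    rw [inv_mul_cancel, one_smul]
  rw [h3, fderiv_fun_id, ContinuousLinearMap.id_apply] at h2
  have h4 := congrArg (fun T : V k b →L[ℝ] V k b => T u) (N.inverse_Q p).1
  simp only [ContinuousLinearMap.comp_apply, ContinuousLinearMap.id_apply] at h4
  rw [← h4, h2, map_zero]

include X in
/-- The automorphism of the Lie algebra is surjective. -/
theorem Hor_surj (hE : IsCover (V k b) Γ) (hG : IsCover (R b) G) (γ : Γ) (z : R b) :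
    Function.Surjective (a N γ z : R k →L[ℝ] R k) := by
  have hinj : Function.Injective ((a N γ z : R k →L[ℝ] R k) : R k →ₗ[ℝ] R k) := by
    rw [injective_iff_map_eq_zero]
    intro u hu
    have h1 : Th N γ ((0, z) : V k b) (u, 0) = 0 := by
      rw [Th_vert X hE hG]
      exact Prod.ext hu rfl
    exact congrArg Prod.fst (Hor_inj hE γ _ _ h1)
  exact LinearMap.injective_iff_surjective.1 hinj

include X in
/-- `Th` maps the horizontal lift of a vector to the horizontal lift of its image. -/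
theorem Hor_lift (hE : IsCover (V k b) Γ) (hG : IsCover (R b) G)
    (hk : ∀ z, kerC (cpart (m z)) = ⊥)
    (σ : R b → R b →L[ℝ] R k) (h0 : ∀ z w v, m z (σ z w, w) (v, 0) = 0)
    (hi : ∀ (γ : Γ) (z : R b), (m (X.π γ • z)).bilinearComp (Th N γ ((0, z) : V k b))
      (Th N γ ((0, z) : V k b)) = m z) (γ : Γ) (z w : R b) :
    Th N γ ((0, z) : V k b) (σ z w, w) =
      (σ (X.π γ • z) (fderiv ℝ (fun z : R b => X.π γ • z) z w),
        fderiv ℝ (fun z : R b => X.π γ • z) z w) := by
  set w' := fderiv ℝ (fun z : R b => X.π γ • z) z w with hw'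
  set T := Th N γ ((0, z) : V k b) with hT
  have h2 : (T (σ z w, w)).2 = w' := Th_snd X hE hG γ ((0, z) : V k b) (σ z w, w)
  refine Prod.ext ?_ h2
  have h3 : (T (σ z w, w)).1 - σ (X.π γ • z) w' ∈ kerC (cpart (m (X.π γ • z))) := by
    rw [kerC, LinearMap.mem_ker]
    refine ContinuousLinearMap.ext fun v' => ?_
    obtain ⟨v, rfl⟩ := Hor_surj X hE hG γ z v'
    change cpart (m (X.π γ • z)) ((T (σ z w, w)).1 - σ (X.π γ • z) w') (a N γ z v) = 0
    rw [cpart_apply]
    have h4 := congrArg (fun B : V k b →L[ℝ] V k b →L[ℝ] ℝ => B (σ z w, w) (v, 0)) (hi γ z)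
    simp only [ContinuousLinearMap.bilinearComp_apply] at h4
    rw [h0, ← hT, hT, Th_vert X hE hG, ← hT] at h4
    have h5 := h0 (X.π γ • z) w' (a N γ z v)
    have h6 : (((T (σ z w, w)).1 - σ (X.π γ • z) w', 0) : V k b) =
        T (σ z w, w) - (σ (X.π γ • z) w', w') := by
      refine Prod.ext rfl ?_
      rw [Prod.snd_sub, h2, sub_self]
    rw [h6, map_sub, _root_.sub_apply]
    have h7 : m (X.π γ • z) (T (σ z w, w)) (a N γ z v, 0) = 0 := h4
    rw [h7, h5, sub_zero]
  rw [hk] at h3
  exact sub_eq_zero.1 ((Submodule.mem_bot ℝ).1 h3)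

include X in
/-- The horizontal part is invariant under `G`: `Th γ (0, z)` maps vertical vectors onto vertical
vectors (`Th_vert`, `Th_snd`; it is invertible), hence the orthogonal complement of the vertical
vectors for `m z` to the one for `m (π γ • z)`, i.e. `Th (σ z w, w) = (σ (π γ • z) w', w')` with
`w' = D (π γ) w`. Every `g` in `G` is `π γ` for some `γ`. -/
theorem form2_hor (hE : IsCover (V k b) Γ) (hG : IsCover (R b) G) (h : MForm N m)
    (hk : ∀ z, kerC (cpart (m z)) = ⊥)
    (σ : R b → R b →L[ℝ] R k) (hσ : ContDiff ℝ ∞ σ) (h0 : ∀ z w v, m z (σ z w, w) (v, 0) = 0)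
    (hi : ∀ (γ : Γ) (z : R b), (m (X.π γ • z)).bilinearComp (Th N γ ((0, z) : V k b))
      (Th N γ ((0, z) : V k b)) = m z) : Form2 G (hor m σ) := by
  refine { toIsForm := isForm_hor h σ hσ, invariant := fun g z => ?_ }
  obtain ⟨γ, rfl⟩ := X.surj g
  refine ContinuousLinearMap.ext fun w => ContinuousLinearMap.ext fun w' => ?_
  rw [pull2, ContinuousLinearMap.bilinearComp_apply, hor_apply, hor_apply,
    ← Hor_lift X hE hG hk σ h0 hi γ z w, ← Hor_lift X hE hG hk σ h0 hi γ z w']
  have h4 := congrArg (fun B : V k b →L[ℝ] V k b →L[ℝ] ℝ => B (σ z w, w) (σ z w', w')) (hi γ z)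
  simpa only [ContinuousLinearMap.bilinearComp_apply] using h4

include X in
/-- The class of the fibre part is invariant under the monodromy: by `hi` and `Th_vert`,
`c (π γ • z) (a u) (a v) = c z u v`, and the classes of `c (π γ • z)`, `c z` and `c z₀` agree
(`exists_class`); `a` is an automorphism of the Lie algebra (`a_br`). -/
theorem invClass_cpart (hE : IsCover (V k b) Γ) (hG : IsCover (R b) G) (h : MForm N m)
    (hi : ∀ (γ : Γ) (z : R b), (m (X.π γ • z)).bilinearComp (Th N γ ((0, z) : V k b))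
      (Th N γ ((0, z) : V k b)) = m z) (z₀ : R b) : X.InvClass (cpart (m z₀)) := by
  intro γ z
  obtain ⟨μ₁, h₁⟩ := h.exists_class (X.π γ • z) z₀
  obtain ⟨μ₂, h₂⟩ := h.exists_class z₀ z
  refine ⟨μ₂ + μ₁.comp (a N γ z), fun u v => ?_⟩
  have h3 := congrArg (fun B : V k b →L[ℝ] V k b →L[ℝ] ℝ => B (u, 0) (v, 0)) (hi γ z)
  simp only [ContinuousLinearMap.bilinearComp_apply] at h3
  rw [Th_vert X hE hG, Th_vert X hE hG] at h3
  have h4 : m (X.π γ • z) (a N γ z u, 0) (a N γ z v, 0) = m z (u, 0) (v, 0) := h3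
  rw [cpart_apply, cpart_apply, h₁, h4, h₂, ← a_br X hE hG, _root_.add_apply,
    ContinuousLinearMap.comp_apply]
  ring

include X in
/-- The determinant of the base action: `det (D γ p) = det (Th γ p) = det (a γ z) * det (D (π γ) z)`
(`Q_Th`, `det_Q`, block form). If the fibre parts are nondegenerate with the same top power, then
`det (a γ z) = 1`, by `hi` and `top_bilinearComp`. -/
theorem orient_base (hE : IsCover (V k b) Γ) (hG : IsCover (R b) G) (hO : Orient (V k b) Γ)
    (h : MForm N m) (Bk : Module.Basis (Fin mk × Fin 2) ℝ (R k)) (t : ℝ) (ht : t ≠ 0)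
    (hc : ∀ z, top Bk (cpart (m z)) = t)
    (hi : ∀ (γ : Γ) (z : R b), (m (X.π γ • z)).bilinearComp (Th N γ ((0, z) : V k b))
      (Th N γ ((0, z) : V k b)) = m z) : Orient (R b) G := by
  intro g z
  obtain ⟨γ, rfl⟩ := X.surj g
  set T := Th N γ ((0, z) : V k b) with hT
  set Dg := fderiv ℝ (fun z : R b => X.π γ • z) z with hDg
  set a' : R k →L[ℝ] R k := a N γ z with ha'
  -- the determinant of the fibre part
  have h1 : (cpart (m (X.π γ • z))).bilinearComp a' a' = cpart (m z) := by
    refine ContinuousLinearMap.ext fun u => ContinuousLinearMap.ext fun v => ?_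
    have h3 := congrArg (fun B : V k b →L[ℝ] V k b →L[ℝ] ℝ => B (u, 0) (v, 0)) (hi γ z)
    simp only [ContinuousLinearMap.bilinearComp_apply] at h3
    rw [Th_vert X hE hG, Th_vert X hE hG] at h3
    exact h3
  have h2 : a'.det = 1 := by
    have h3 := top_bilinearComp Bk a' (cpart (m (X.π γ • z)))
    rw [h1, hc, hc] at h3
    have h4 : (a'.det - 1) * t = 0 := by linarith
    rcases mul_eq_zero.1 h4 with h5 | h5
    · linarith
    · exact absurd h5 ht
  have h2' : a'.det ≠ 0 := by rw [h2]; exact one_ne_zero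
  -- the block form
  have h3 : T = (a'.prodMap Dg).comp (unip (-(a'.inverse.comp
      ((ContinuousLinearMap.fst ℝ (R k) (R b)).comp
        (T.comp (ContinuousLinearMap.inr ℝ (R k) (R b))))))) := by
    refine ContinuousLinearMap.ext fun p => ?_
    have h4 : T p = T (p.1, 0) + T (0, p.2) := by
      rw [← map_add, Prod.mk_add_mk, add_zero, zero_add]
    have h5 : T (p.1, 0) = (a' p.1, 0) := Th_vert X hE hG γ ((0, z) : V k b) p.1
    have h6 : (T (0, p.2)).2 = Dg p.2 := Th_snd X hE hG γ ((0, z) : V k b) (0, p.2)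
    have h7 := congrArg (fun S : R k →L[ℝ] R k => S (T (0, p.2)).1) (NilLaw.LawQ_inv a' h2').2
    simp only [ContinuousLinearMap.comp_apply, ContinuousLinearMap.id_apply] at h7
    rw [h4, h5, ContinuousLinearMap.comp_apply, unip_apply]
    refine Prod.ext ?_ ?_
    · change a' p.1 + (T (0, p.2)).1 = a' (p.1 - -(a'.inverse (T (0, p.2)).1))
      rw [sub_neg_eq_add, map_add, h7]
    · change 0 + (T (0, p.2)).2 = Dg p.2
      rw [zero_add, h6]
  have hcomp : ∀ A B : V k b →L[ℝ] V k b, (A.comp B).det = A.det * B.det := by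
    intro A B
    exact LinearMap.det_comp (A : V k b →ₗ[ℝ] V k b) (B : V k b →ₗ[ℝ] V k b)
  have h4 : T.det = Dg.det := by
    rw [h3, hcomp, det_unip, mul_one]
    have h5 : ((a'.prodMap Dg : V k b →L[ℝ] V k b) : V k b →ₗ[ℝ] V k b) =
      (a' : R k →ₗ[ℝ] R k).prodMap (Dg : R b →ₗ[ℝ] R b) := rfl
    have h6 : (a'.prodMap Dg : V k b →L[ℝ] V k b).det = a'.det * Dg.det := by
      rw [ContinuousLinearMap.det, h5, LinearMap.det_prodMap]
    rw [h6, h2, one_mul]
  have h5 := congrArg ContinuousLinearMap.det (Q_Th (N := N) γ ((0, z) : V k b))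
  rw [hcomp, hcomp, N.det_Q, N.det_Q, one_mul, mul_one, ← hT, h4] at h5
  rw [h5]
  exact hO γ _

include X in
/-- The component in `ℝ^b` of the derivative of `γ`. -/
theorem Hor_fderiv_snd (hE : IsCover (V k b) Γ) (hG : IsCover (R b) G) (γ : Γ) (p u : V k b) :
    (fderiv ℝ (fun x : V k b => γ • x) p u).2 = fderiv ℝ (fun z : R b => X.π γ • z) p.2 u.2 := by
  have h1 := (ContinuousLinearMap.snd ℝ (R k) (R b)).hasFDerivAt.comp p (smul_hasFDerivAt hE γ p)
  have h2 := (smul_hasFDerivAt hG (X.π γ) p.2).comp p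
    (ContinuousLinearMap.snd ℝ (R k) (R b)).hasFDerivAt
  have h3 : ((ContinuousLinearMap.snd ℝ (R k) (R b)) ∘ fun x : V k b => γ • x) =
      ((fun z : R b => X.π γ • z) ∘ (ContinuousLinearMap.snd ℝ (R k) (R b))) := by
    funext x
    exact smul_snd X γ x
  rw [h3] at h1
  exact congrArg (fun T : V k b →L[ℝ] R b => T u) (h1.unique h2)

include X in
/-- Lifts of invariant forms on the base are invariant and closed. -/
theorem form1_lift (hE : IsCover (V k b) Γ) (hG : IsCover (R b) G) (η : R b → R b →L[ℝ] ℝ)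
    (hη : Form1 G η) :
    Form1 Γ (fun p : V k b => (η p.2).comp (ContinuousLinearMap.snd ℝ (R k) (R b))) := by
  refine ⟨(hη.smooth.comp contDiff_snd).clm_comp contDiff_const, fun γ p => ?_⟩
  have hd := Hor_fderiv_snd X hE hG γ p
  refine ContinuousLinearMap.ext fun u => ?_
  rw [pull1, ContinuousLinearMap.comp_apply, ContinuousLinearMap.comp_apply,
    ContinuousLinearMap.comp_apply, smul_snd X]
  have h1 := congrArg (fun T : R b →L[ℝ] ℝ => T u.2) (hη.invariant (X.π γ) p.2)
  simp only [pull1, ContinuousLinearMap.comp_apply] at h1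
  rw [ContinuousLinearMap.coe_snd', hd, h1]

omit [Group Γ] [Group G] [MulAction Γ (V k b)] [MulAction G (R b)] in
theorem d1_lift_nil (η : R b → R b →L[ℝ] ℝ) (hη : ContDiff ℝ ∞ η) (p : V k b) :
    d1 (fun p : V k b => (η p.2).comp (ContinuousLinearMap.snd ℝ (R k) (R b))) p =
      lift2 (d1 η p.2) := by
  exact d1_lift η hη p

include X in
theorem form2_lift_nil (hE : IsCover (V k b) Γ) (hG : IsCover (R b) G)
    (q : R b → R b →L[ℝ] R b →L[ℝ] ℝ) (hq : Form2 G q) :
    Form2 Γ (fun p : V k b => lift2 (q p.2)) := by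
  have hs : ContDiff ℝ ∞ (fun p : V k b => (lift2 (q p.2) : V k b →L[ℝ] V k b →L[ℝ] ℝ)) := by
    refine contDiff_clm_apply_iff.2 fun u => contDiff_clm_apply_iff.2 fun w => ?_
    exact (((hq.smooth.comp contDiff_snd).clm_apply contDiff_const).clm_apply contDiff_const)
  refine { smooth := hs, alt := fun p u => hq.alt _ _, invariant := fun γ p => ?_ }
  refine ContinuousLinearMap.ext fun u => ContinuousLinearMap.ext fun w => ?_
  have hd := Hor_fderiv_snd X hE hG γ p
  have h1 := congrArg (fun T : R b →L[ℝ] R b →L[ℝ] ℝ => T u.2 w.2) (hq.invariant (X.π γ) p.2)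
  simp only [pull2, ContinuousLinearMap.bilinearComp_apply] at h1
  rw [pull2, ContinuousLinearMap.bilinearComp_apply, smul_snd X]
  change q (X.π γ • p.2) (fderiv ℝ (fun x : V k b => γ • x) p u).2
    (fderiv ℝ (fun x : V k b => γ • x) p w).2 = q p.2 u.2 w.2
  rw [hd, hd, h1]

omit [Group Γ] [Group G] [MulAction Γ (V k b)] [MulAction G (R b)] in
/-- The lift of a form on the base has the same coefficients in the frame. -/
theorem hat2_lift2 (q : R b → R b →L[ℝ] R b →L[ℝ] ℝ) (p : V k b) :
    N.hat2 (fun p : V k b => lift2 (q p.2)) p = lift2 (q p.2) := by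
  refine ContinuousLinearMap.ext fun u => ContinuousLinearMap.ext fun w => ?_
  rfl

end NilBundle

end Pool.Agent.W_9986fc_h24
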