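import Pool.Agent.W_9986fc_h24.Nil.MeanA
import Pool.Agent.W_9986fc_h24.Sum

/-!
Partitions of unity on the fibre.
-/

set_option autoImplicit false
set_option maxSynthPendingDepth 3

open scoped ContDiff
open Pool.Agent.W_9986fc_h15 MeasureTheory

namespace Pool.Agent.W_9986fc_h24

namespace NilLaw

variable {k b : ℕ} (N : NilLaw k)

/-- The inverse is continuous (its coordinates are determined successively). -/
theorem MeanP_inv_cont : ∃ iv : R k → R k, Continuous iv ∧
    ∀ x, N.mul x (iv x) = 0 ∧ N.mul (iv x) x = 0 := by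
  choose iv h1 h2 using N.exists_inv
  refine ⟨iv, ?_, fun x => ⟨h1 x, h2 x⟩⟩
  refine continuous_pi fun j => ?_
  induction j using WellFoundedLT.induction with
  | ind j ih =>
    classical
    let tr : R k → R k := fun x i => if i < j then iv x i else 0
    have htr : Continuous tr := by
      refine continuous_pi fun i => ?_
      by_cases h : i < j
      · simp only [tr, if_pos h]
        exact ih i h
      · simp only [tr, if_neg h]
        exact continuous_const
    have key : ∀ x, iv x j = -(N.mul x (tr x) j) := by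
      intro x
      have h3 := N.tri j x x (iv x) (tr x) (fun _ _ => rfl) (fun i hi => by simp [tr, hi])
      have h4 : tr x j = 0 := by simp [tr]
      rw [h1, h4, Pi.zero_apply] at h3
      linarith
    have hc : Continuous fun x => N.mul x (tr x) :=
      N.smooth.continuous.comp (continuous_id.prodMk htr)
    have h5 : (fun x => iv x j) = fun x => -(N.mul x (tr x) j) := funext key
    rw [h5]
    exact ((continuous_apply j).comp hc).neg

/-- Properness of the action of the lattice. -/
theorem MeanP_finite (K L : Set (R k)) (hK : IsCompact K) (hL : IsCompact L) :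
    {m : Fin k → ℤ | ∃ x ∈ K, N.mul (intV m) x ∈ L}.Finite := by
  obtain ⟨iv, hc, hiv⟩ := N.MeanP_inv_cont
  have h1 : IsCompact ((fun p : R k × R k => N.mul p.1 (iv p.2)) '' (L ×ˢ K)) :=
    (hL.prod hK).image
      (N.smooth.continuous.comp (continuous_fst.prodMk (hc.comp continuous_snd)))
  obtain ⟨C, hC⟩ := h1.isBounded.subset_closedBall 0
  refine (Set.finite_Icc (fun _ : Fin k => -⌈C⌉) (fun _ => ⌈C⌉)).subset ?_
  rintro m ⟨x, hx, hmx⟩
  have h2 : N.mul (N.mul (intV m) x) (iv x) = intV m := by
    rw [N.assoc, (hiv x).1, N.mul_zero]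
  have h3 : ‖(intV m : R k)‖ ≤ C := by
    have h4 := hC ⟨(N.mul (intV m) x, x), ⟨hmx, hx⟩, rfl⟩
    rw [mem_closedBall_zero_iff] at h4
    simp only at h4
    rwa [h2] at h4
  have h4 : ∀ i, |(m i : ℝ)| ≤ C := fun i => (norm_le_pi_norm (intV m : R k) i).trans h3
  have h5 : C ≤ (⌈C⌉ : ℝ) := Int.le_ceil C
  refine ⟨fun i => ?_, fun i => ?_⟩
  · have h6 := (abs_le.1 (h4 i)).1
    have h7 : ((-⌈C⌉ : ℤ) : ℝ) ≤ (m i : ℝ) := by push_cast; linarith
    exact_mod_cast h7
  · have h6 := (abs_le.1 (h4 i)).2
    have h7 : (m i : ℝ) ≤ (⌈C⌉ : ℝ) := by linarith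
    exact_mod_cast h7

/-- The translates of the cube cover the space. -/
theorem MeanP_cover (x : R k) :
    ∃ m : Fin k → ℤ, ∀ i, 0 ≤ N.mul (intV m) x i ∧ N.mul (intV m) x i < 1 := by
  have key : ∀ n : ℕ, n ≤ k → ∃ m : Fin k → ℤ, ∀ j : Fin k, (j : ℕ) < n →
      0 ≤ N.mul (intV m) x j ∧ N.mul (intV m) x j < 1 := by
    intro n
    induction n with
    | zero => exact fun _ => ⟨0, fun j hj => absurd hj (Nat.not_lt_zero _)⟩
    | succ n ih =>
      intro hn
      obtain ⟨m, hm⟩ := ih (Nat.le_of_succ_le hn)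
      set j₀ : Fin k := ⟨n, hn⟩ with hj₀
      set m' : Fin k → ℤ := Function.update m j₀ (m j₀ - ⌊N.mul (intV m) x j₀⌋) with hm'
      have hne : ∀ i, i ≠ j₀ → (intV m' : R k) i = intV m i := by
        intro i hi
        simp only [intV, hm']
        rw [Function.update_of_ne hi]
      refine ⟨m', fun j hj => ?_⟩
      rcases Nat.lt_succ_iff_lt_or_eq.1 hj with h | h
      · have h1 : N.mul (intV m') x j = N.mul (intV m) x j := by
          refine N.mul_congr j _ _ _ _ (fun i hi => hne i ?_) (fun _ _ => rfl)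
          intro he
          have h1 : (i : ℕ) ≤ (j : ℕ) := hi
          rw [he] at h1
          simp only [hj₀] at h1
          omega
        rw [h1]
        exact hm j h
      · have hjj : j = j₀ := Fin.ext h
        rw [hjj]
        have h1 := N.tri j₀ (intV m') (intV m) x x (fun i hi => hne i hi.ne) (fun _ _ => rfl)
        have h2 : (intV m' : R k) j₀ = intV m j₀ - ⌊N.mul (intV m) x j₀⌋ := by
          simp only [intV, hm', Function.update_self]
          push_cast
          rfl
        rw [h2] at h1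
        have h3 : N.mul (intV m') x j₀ = N.mul (intV m) x j₀ - ⌊N.mul (intV m) x j₀⌋ := by
          linarith
        rw [h3]
        have h4 := Int.floor_le (N.mul (intV m) x j₀)
        have h5 := Int.lt_floor_add_one (N.mul (intV m) x j₀)
        exact ⟨by linarith, by linarith⟩
  obtain ⟨m, hm⟩ := key k le_rfl
  exact ⟨m, fun i => hm i i.2⟩

/-- Enumeration of the lattice. -/
theorem MeanP_equiv :
    ∃ e : (Fin k → ℤ) ≃ N.lattice, ∀ m (x : R k), e m • x = N.mul (intV m) x := by
  choose f hf using N.exists_lattice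
  refine ⟨Equiv.ofBijective f ⟨?_, ?_⟩, fun m x => hf m x⟩
  · intro m m' h
    have h1 := hf m 0
    have h2 := hf m' 0
    rw [h, h2, N.mul_zero, N.mul_zero] at h1
    funext i
    have h3 := congrFun h1 i
    simp only [intV, Int.cast_inj] at h3
    exact h3.symm
  · intro g
    obtain ⟨m, hm⟩ := g.2
    refine ⟨m, Subtype.ext (Equiv.ext fun x => ?_)⟩
    exact (hf m x).trans (hm x).symm

theorem MeanP_smul (g : N.lattice) : ∃ m : Fin k → ℤ, ∀ x : R k, g • x = N.mul (intV m) x :=
  g.2

/-- The action of the lattice on the fibre is a covering action. -/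
theorem MeanP_isCover : IsCover (R k) N.lattice := by
  refine ⟨fun g => ?_, fun K hK => ?_, ?_⟩
  · obtain ⟨m, hm⟩ := N.MeanP_smul g
    have h1 : (fun x : R k => g • x) = fun x => N.mul (intV m) x := funext hm
    rw [h1]
    exact N.smooth.comp (contDiff_const.prodMk contDiff_id)
  · obtain ⟨e, he⟩ := N.MeanP_equiv
    refine ((N.MeanP_finite K K hK hK).image e).subset ?_
    rintro g ⟨x, hx, hgx⟩
    refine ⟨e.symm g, ⟨x, hx, ?_⟩, e.apply_symm_apply g⟩
    rw [← he, e.apply_symm_apply]
    exact hgx
  · refine ⟨Set.Icc 0 1, isCompact_Icc, fun x => ?_⟩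
    obtain ⟨e, he⟩ := N.MeanP_equiv
    obtain ⟨m, hm⟩ := N.MeanP_cover x
    refine ⟨e m, ?_⟩
    rw [he]
    exact ⟨fun i => (hm i).1, fun i => (hm i).2.le⟩

/-- The volume of the half open cube. -/
theorem MeanP_vol : volume.real {x : R k | ∀ i, 0 ≤ x i ∧ x i < 1} = 1 := by
  have h : {x : R k | ∀ i, 0 ≤ x i ∧ x i < 1} =
      Set.pi Set.univ (fun i => Set.Ico ((0 : R k) i) ((1 : R k) i)) := by
    ext x
    simp [Set.mem_pi]
  rw [h, Measure.real, Real.volume_pi_Ico_toReal (zero_le_one)]
  simp

theorem MeanP_meas : MeasurableSet {x : R k | ∀ i, 0 ≤ x i ∧ x i < 1} := by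
  have h : {x : R k | ∀ i, 0 ≤ x i ∧ x i < 1} =
      Set.pi Set.univ (fun i => Set.Ico ((0 : R k) i) ((1 : R k) i)) := by
    ext x
    simp [Set.mem_pi]
  rw [h]
  exact MeasurableSet.univ_pi fun i => measurableSet_Ico

/-- The integral of a partition of unity over the fibre is one. -/
theorem MeanP_integral {χ : R k → ℝ} (hχ : Continuous χ) (hc : HasCompactSupport χ)
    (hs : ∀ x, ∑ᶠ g : N.lattice, χ (g • x) = 1) : ∫ x, χ x = 1 := by
  have hB := N.MeanP_isCover
  have i1 : SMulInvariantMeasure N.lattice (R k) volume := N.smulInvariant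
  have hcont : ∀ g : N.lattice, Continuous fun x : R k => g • x := fun g =>
    (hB.smooth g).continuous
  have i2 : MeasurableConstSMul N.lattice (R k) := ⟨fun g => (hcont g).measurable⟩
  have i3 : Countable N.lattice := by
    obtain ⟨e, -⟩ := N.MeanP_equiv
    exact e.symm.injective.countable
  rw [N.isFundamentalDomain_cube.integral_eq_tsum' χ (hχ.integrable_of_hasCompactSupport hc),
    ← (Equiv.inv N.lattice).tsum_eq]
  simp only [Equiv.inv_apply, inv_inv]
  have hsub : ∀ x : R k, x ∈ {x : R k | ∀ i, 0 ≤ x i ∧ x i < 1} → x ∈ Set.Icc (0 : R k) 1 :=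
    fun x hx => ⟨fun i => (hx i).1, fun i => (hx i).2.le⟩
  have hfin : {g : N.lattice | ∃ x ∈ Set.Icc (0 : R k) 1, g • x ∈ tsupport χ}.Finite :=
    hB.finite (tsupport χ) _ hc isCompact_Icc
  have hz : ∀ g ∉ hfin.toFinset, ∀ x ∈ {x : R k | ∀ i, 0 ≤ x i ∧ x i < 1}, χ (g • x) = 0 := by
    intro g hg x hx
    by_contra h
    exact hg (by
      rw [Set.Finite.mem_toFinset]
      exact ⟨x, hsub x hx, subset_tsupport χ h⟩)
  rw [tsum_eq_sum (s := hfin.toFinset) (fun g hg => by
    rw [setIntegral_congr_fun (g := fun _ => (0 : ℝ)) MeanP_meas (fun x hx => hz g hg x hx)]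
    simp)]
  rw [← integral_finsetSum]
  · rw [setIntegral_congr_fun (g := fun _ => (1 : ℝ)) MeanP_meas (fun x hx => by
      have h1 := hs x
      rw [finsum_eq_sum_of_support_subset (s := hfin.toFinset)] at h1
      · exact h1
      · intro g hg
        by_contra h
        exact hg (hz g h x hx))]
    rw [setIntegral_const, MeanP_vol]
    simp
  · intro g _
    refine IntegrableOn.mono_set ?_ hsub
    exact ((hχ.comp (hcont g)).continuousOn).integrableOn_compact isCompact_Icc

/-- Partitions of unity on the fibre: there is a smooth function `χ ≥ 0` on `ℝ^k` with compact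
support such that the sum of the translates `χ (m * x)` over `m ∈ ℤ^k` is one; its integral is one.
(Take a smooth `ψ ≥ 0` with compact support, positive on the closed cube, and divide by the sum of its
translates; the sum is locally finite because the coordinates of `m` with `m * x` in a compact set are
bounded successively. The integral: unfold over the fundamental domain,
`IsFundamentalDomain.integral_eq_tsum` or a direct computation.) -/
theorem exists_fibre_part : ∃ χ : R k → ℝ, ContDiff ℝ ∞ χ ∧ HasCompactSupport χ ∧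
    (∀ x, {m : Fin k → ℤ | χ (N.mul (intV m) x) ≠ 0}.Finite) ∧
    (∀ x, ∑ᶠ m : Fin k → ℤ, χ (N.mul (intV m) x) = 1) ∧ ∫ x, χ x = 1 := by
  have hB := N.MeanP_isCover
  obtain ⟨χ, hχ, -⟩ := exists_part hB
  obtain ⟨e, he⟩ := N.MeanP_equiv
  refine ⟨χ, hχ.smooth, hχ.compact, fun x => ?_, fun x => ?_,
    N.MeanP_integral hχ.smooth.continuous hχ.compact hχ.sum⟩
  · refine (N.MeanP_finite {x} (tsupport χ) isCompact_singleton hχ.compact).subset ?_
    intro m hm
    exact ⟨x, rfl, subset_tsupport χ hm⟩
  · rw [← hχ.sum x, ← finsum_comp_equiv e]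
    simp only [he]

end NilLaw

end Pool.Agent.W_9986fc_h24
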