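import Pool.Agent.W_9986fc_h24.Nil.ActB
import Pool.Agent.W_9986fc_h24.Nil.MeanP
import Pool.Agent.W_9986fc_h24.Stk

/-!
Integrals over the total space of functions on the base.
-/

set_option autoImplicit false
set_option maxSynthPendingDepth 3

open scoped ContDiff
open Pool.Agent.W_9986fc_h15 MeasureTheory

namespace Pool.Agent.W_9986fc_h24

namespace NilBundle

variable {k b : ℕ} {N : NilLaw k} {Γ G : Type} [Group Γ] [Group G]
    [MulAction Γ (V k b)] [MulAction G (R b)] (X : NilBundle N b Γ G)

theorem IntN_intV_inj {n n' : Fin k → ℤ} (h : intV n = intV n') : n = n' := by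
  funext i
  have h1 := congrFun h i
  simp only [intV] at h1
  exact_mod_cast h1

include X in
/-- The group `Γ` as a set is `G × ℤ^k`: choose `s g` with `π (s g) = g`; then
`(g, n) ↦ lam n * s g` is a bijection (`lam` is injective because `lam n • (0, z) = (n, z)`). -/
theorem exists_equiv : ∃ (s : G → Γ) (e : G × (Fin k → ℤ) ≃ Γ), (∀ g, X.π (s g) = g) ∧
    ∀ g n, e (g, n) = X.lam n * s g := by
  choose s hs using X.surj
  have hinj : ∀ n n', X.lam n = X.lam n' → n = n' := by
    intro n n' h
    have h1 := X.lam_act n 0 0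
    have h2 := X.lam_act n' 0 0
    rw [h, h2] at h1
    have h3 := congrArg Prod.fst h1
    simp only [N.mul_zero] at h3
    exact (IntN_intV_inj h3).symm
  have hbij : Function.Bijective (fun p : G × (Fin k → ℤ) => X.lam p.2 * s p.1) := by
    constructor
    · rintro ⟨g, n⟩ ⟨g', n'⟩ h
      have h0 : X.lam n * s g = X.lam n' * s g' := h
      have h1 := congrArg X.π h0
      rw [map_mul, map_mul, (X.ker _).2 ⟨n, rfl⟩, (X.ker _).2 ⟨n', rfl⟩, one_mul, one_mul, hs,
        hs] at h1
      subst h1
      have h2 := hinj _ _ (mul_right_cancel h0)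
      rw [h2]
    · intro γ
      have h1 : X.π (γ * (s (X.π γ))⁻¹) = 1 := by
        rw [map_mul, map_inv, hs, mul_inv_cancel]
      obtain ⟨n, hn⟩ := (X.ker _).1 h1
      refine ⟨(X.π γ, n), ?_⟩
      show X.lam n * s (X.π γ) = γ
      rw [← hn, inv_mul_cancel_right]
  exact ⟨s, Equiv.ofBijective _ hbij, hs, fun g n => rfl⟩

include X in
/-- Product partitions of unity: let `χF` be as in `exists_fibre_part`. Then
`(x, z) ↦ χF x * χB z` is a partition of unity for `Γ`: by `exists_equiv` the sum over `Γ` is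
`∑ᶠ g, χB (g • z) * ∑ᶠ n, χF (n * x')` (`finsum_curry`; finitely many nonzero terms by properness),
where `x'` is the first component of `s g • (x, z)`. -/
theorem part_prod_nil (hE : IsCover (V k b) Γ) (hG : IsCover (R b) G) {χF : R k → ℝ}
    (h1 : ContDiff ℝ ∞ χF) (h2 : HasCompactSupport χF)
    (h3 : ∀ x, ∑ᶠ m : Fin k → ℤ, χF (N.mul (intV m) x) = 1) {χB : R b → ℝ} (hχ : Part G χB) :
    Part Γ (fun p : V k b => χF p.1 * χB p.2) := by
  have hcomp : HasCompactSupport (fun p : V k b => χF p.1 * χB p.2) := by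
    refine HasCompactSupport.intro (K := tsupport χF ×ˢ tsupport χB) (h2.prod hχ.compact) ?_
    intro p hp
    rw [Set.mem_prod, not_and_or] at hp
    rcases hp with hp | hp
    · rw [image_eq_zero_of_notMem_tsupport hp, MulZeroClass.zero_mul]
    · rw [image_eq_zero_of_notMem_tsupport hp, MulZeroClass.mul_zero]
  refine ⟨(h1.comp contDiff_fst).mul (hχ.smooth.comp contDiff_snd), hcomp, ?_⟩
  rintro ⟨x, z⟩
  obtain ⟨s, e, hs, he⟩ := X.exists_equiv
  have hfin : {γ : Γ | (fun p : V k b => χF p.1 * χB p.2) (γ • (x, z)) ≠ 0}.Finite := by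
    refine (hE.finite _ {(x, z)} hcomp isCompact_singleton).subset ?_
    intro γ hγ
    exact ⟨(x, z), rfl, subset_tsupport _ hγ⟩
  rw [← finsum_comp_equiv e, finsum_curry]
  · have h4 : ∀ g : G, ∑ᶠ n : Fin k → ℤ, (fun p : V k b => χF p.1 * χB p.2) (e (g, n) • (x, z)) =
        χB (g • z) := by
      intro g
      have h5 : ∀ n : Fin k → ℤ, (fun p : V k b => χF p.1 * χB p.2) (e (g, n) • (x, z)) =
          χB (g • z) • χF (N.mul (intV n) (N.mul (X.A (s g) x) (X.m (s g) z))) := by
        intro n
        rw [he, mul_smul, X.act (s g) x z, hs, X.lam_act, smul_eq_mul, mul_comm]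
      rw [finsum_congr h5, ← smul_finsum, h3, smul_eq_mul, mul_one]
    rw [finsum_congr h4]
    exact hχ.sum z
  · refine (hfin.preimage e.injective.injOn).subset ?_
    intro p hp
    exact hp

include X in
/-- The integral over `E / Γ` of an invariant density which is a function on the base is its integral
over the base: by `integral_part_eq` (Unf) one may take the product partition of unity
(`exists_fibre_part`, `part_prod_nil`); Fubini (`integral_prod_mul`). -/
theorem integral_base (hE : IsCover (V k b) Γ) (hO : Orient (V k b) Γ) (hG : IsCover (R b) G)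
    {χ : V k b → ℝ} (hχ : Part Γ χ) {χB : R b → ℝ} (hχB : Part G χB) (F : R b → ℝ)
    (hF : Continuous F)
    (hinv : ∀ (γ : Γ) (p : V k b), (fderiv ℝ (fun x : V k b => γ • x) p).det *
      F (γ • p).2 = F p.2) :
    ∫ p, χ p * F p.2 = ∫ z, χB z * F z := by
  obtain ⟨χF, h1, h2, -, h3, h4⟩ := N.exists_fibre_part
  have hP := X.part_prod_nil hE hG h1 h2 h3 hχB
  have hHaar : Measure.IsAddHaarMeasure (volume : Measure (V k b)) :=
    Measure.prod.instIsAddHaarMeasure _ _
  rw [integral_part_eq hE hO hP hχ (fun p : V k b => F p.2) (hF.comp continuous_snd) hinv]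
  have h5 : (fun p : V k b => χF p.1 * χB p.2 * F p.2) =
      fun p : V k b => χF p.1 * (χB p.2 * F p.2) := by
    funext p
    ring
  have h6 := integral_prod_mul (μ := (volume : Measure (R k))) (ν := (volume : Measure (R b)))
    χF (fun z => χB z * F z)
  rw [h4, one_mul] at h6
  rw [h5, ← h6]
  rfl

end NilBundle

end Pool.Agent.W_9986fc_h24
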