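import Pool.Agent.W_9986fc_h24.Nil.LawB
import Pool.Agent.W_9986fc_h15.AlgA
import Pool.Agent.W_9986fc_h15.AlgB
import Pool.Agent.W_9986fc_h15.Stokes

/-!
Invariance of the top power under the addition of an exact form, for nilpotent Lie algebras.
-/

set_option autoImplicit false
set_option maxSynthPendingDepth 3

open scoped ContDiff
open Pool.Agent.W_9986fc_h15

namespace Pool.Agent.W_9986fc_h24

variable {k m : ℕ} (N : NilLaw k)

/-- The exact form `(u, v) ↦ μ [u, v]`. -/
noncomputable def exactC (μ : R k →L[ℝ] ℝ) : R k →L[ℝ] R k →L[ℝ] ℝ :=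
  (ContinuousLinearMap.compL ℝ (R k) (R k) ℝ μ).comp N.br

theorem exactC_apply (μ : R k →L[ℝ] ℝ) (u v : R k) : exactC N μ u v = μ (N.br u v) := rfl

/-- Exact forms are closed (`jacobi`). -/
theorem closedC_add_exactC {c : R k →L[ℝ] R k →L[ℝ] ℝ} (hc : N.ClosedC c) (μ : R k →L[ℝ] ℝ) (t : ℝ) :
    N.ClosedC (c + t • exactC N μ) := by
  have happ : ∀ u v, (c + t • exactC N μ) u v = c u v + t * μ (N.br u v) := fun u v => rfl
  constructor
  · intro u
    rw [happ, hc.1, N.br_alt, map_zero, mul_zero, add_zero]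
  · intro u v w
    have h1 := hc.2 u v w
    have h2 := congrArg μ (N.jacobi u v w)
    rw [map_add, map_add, map_zero] at h2
    rw [happ, happ, happ]
    linear_combination h1 + t * h2

theorem Pf_swap {c : R k →L[ℝ] R k →L[ℝ] ℝ} (hc : ∀ u, c u u = 0) (u v : R k) :
    c u v = - c v u := by
  have h := hc (u + v)
  rw [map_add, map_add, ContinuousLinearMap.add_apply, ContinuousLinearMap.add_apply, hc u,
    hc v] at h
  linarith

/-- Let `c` be closed and nondegenerate, `μ = c s`. Then
`μ [u, v] = c [s, u] v + c u [s, v]`, the derivative of the pullback of `c` under `1 + t ad s`: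
closedness of `c` for `s, u, v`. -/
theorem exactC_eq {c : R k →L[ℝ] R k →L[ℝ] ℝ} (hc : N.ClosedC c) (s u v : R k) :
    c s (N.br u v) = c (N.br s u) v + c u (N.br s v) := by
  have h1 := hc.2 s u v
  have h2 := Pf_swap hc.1 (N.br u v) s
  have h3 : c (N.br v s) u = c u (N.br s v) := by
    rw [Pf_swap hc.1 (N.br v s) u, N.br_swap v s, map_neg, neg_neg]
  linear_combination h2 + h3 - h1

theorem Pf_differentiable_top (e : Fin m × Fin 2 → R k) :
    Differentiable ℝ (fun α : R k →L[ℝ] R k →L[ℝ] ℝ => top e α) := by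
  have h : ContDiff ℝ 1 (fun α : R k →L[ℝ] R k →L[ℝ] ℝ => top e α) := by
    unfold top
    refine ContDiff.sum fun σ _ => ?_
    refine contDiff_const.mul ?_
    refine contDiff_prod fun i _ => ?_
    exact (contDiff_id.clm_apply contDiff_const).clm_apply contDiff_const
  exact h.differentiable (by norm_num)

theorem Pf_expand (c' e : R k →L[ℝ] R k →L[ℝ] ℝ) (A : R k →L[ℝ] R k)
    (h : ∀ u v, e u v = c' (A u) v + c' u (A v)) (r : ℝ) :
    c'.bilinearComp (ContinuousLinearMap.id ℝ (R k) + r • A)
      (ContinuousLinearMap.id ℝ (R k) + r • A) =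
      c' + (r • e + (r ^ 2) • c'.bilinearComp A A) := by
  refine ContinuousLinearMap.ext fun u => ContinuousLinearMap.ext fun v => ?_
  change c' (u + r • A u) (v + r • A v) = c' u v + (r * e u v + r ^ 2 * c' (A u) (A v))
  rw [h u v, map_add, map_add, map_smul, map_smul]
  change c' u v + r * c' (A u) v + r * (c' u (A v) + r * c' (A u) (A v)) = _
  ring

theorem Pf_deriv_zero {F : Type*} [NormedAddCommGroup F] [NormedSpace ℝ F] (T : F → ℝ)
    (c' e c'' : F) (hT : DifferentiableAt ℝ T c')
    (hconst : ∀ r : ℝ, T (c' + (r • e + (r ^ 2) • c'')) = T c') : fderiv ℝ T c' e = 0 := by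
  have hcurve : HasDerivAt (fun r : ℝ => c' + (r • e + (r ^ 2) • c'')) e 0 := by
    have h1 : HasDerivAt (fun r : ℝ => r • e) ((1 : ℝ) • e) 0 := (hasDerivAt_id 0).smul_const e
    have h2 : HasDerivAt (fun r : ℝ => (r ^ 2) • c'') (((2 : ℕ) * (0 : ℝ) ^ (2 - 1)) • c'') 0 :=
      (hasDerivAt_pow 2 (0 : ℝ)).smul_const c''
    have h3 := (h1.fun_add h2).const_add c'
    simpa using h3
  have hTd' : HasFDerivAt T (fderiv ℝ T c') (c' + ((0 : ℝ) • e + ((0 : ℝ) ^ 2) • c'')) := by
    have := hT.hasFDerivAt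
    simpa using this
  have h1 := hTd'.comp_hasDerivAt (0 : ℝ) hcurve
  have h2 : (T ∘ fun r : ℝ => c' + (r • e + (r ^ 2) • c'')) = fun _ => T c' := funext hconst
  rw [h2] at h1
  exact h1.unique (hasDerivAt_const (0 : ℝ) (T c'))

theorem Pf_line {F : Type*} [NormedAddCommGroup F] [NormedSpace ℝ F] (T : F → ℝ)
    (c e : F) (t : ℝ) (hT : DifferentiableAt ℝ T (c + t • e)) :
    HasDerivAt (fun t : ℝ => T (c + t • e)) (fderiv ℝ T (c + t • e) e) t := by
  have hline : HasDerivAt (fun t : ℝ => c + t • e) e t := by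
    have h1 : HasDerivAt (fun r : ℝ => r • e) ((1 : ℝ) • e) t := (hasDerivAt_id t).smul_const e
    have h2 := h1.const_add c
    simpa using h2
  exact hT.hasFDerivAt.comp_hasDerivAt t hline

theorem Pf_surj (B : Module.Basis (Fin m × Fin 2) ℝ (R k)) {c : R k →L[ℝ] R k →L[ℝ] ℝ}
    (hc : ∀ u, c u u = 0) (ht : top B c ≠ 0) (μ : R k →L[ℝ] ℝ) : ∃ s, c s = μ := by
  have hinj : Function.Injective (c : R k →ₗ[ℝ] R k →L[ℝ] ℝ) := by
    rw [injective_iff_map_eq_zero]
    intro w hw
    by_contra hne
    apply ht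
    apply top_eq_zero B c hc w hne
    intro u
    have : c w = 0 := hw
    rw [this]
    rfl
  have hdim : Module.finrank ℝ (R k) = Module.finrank ℝ (R k →L[ℝ] ℝ) := by
    rw [← (LinearMap.toContinuousLinearMap : (R k →ₗ[ℝ] ℝ) ≃ₗ[ℝ] (R k →L[ℝ] ℝ)).finrank_eq]
    exact (Subspace.dual_finrank_eq).symm
  exact (LinearMap.injective_iff_surjective_of_finrank_eq_finrank hdim).1 hinj μ

/-- The derivative of `t ↦ top B (c + t • exactC N μ)` vanishes at `t` if the form
`c' = c + t • exactC N μ` is nondegenerate: write `μ = c' s` (`exactC_eq`). Then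
`top B (c' (1 + r ad s) (1 + r ad s)) = top B c'` for all `r` (`top_bilinearComp`, `det_one_add_br`),
and `c' (1 + r ad s) (1 + r ad s) = c' + r • exactC N μ + r ^ 2 • c''`; differentiate at `r = 0` (the
derivative of the polynomial `top B` at `c'` in the direction `exactC N μ` is zero). -/
theorem hasDerivAt_top (B : Module.Basis (Fin m × Fin 2) ℝ (R k)) {c : R k →L[ℝ] R k →L[ℝ] ℝ}
    (hc : N.ClosedC c) (μ : R k →L[ℝ] ℝ) (t : ℝ) (ht : top B (c + t • exactC N μ) ≠ 0) :
    HasDerivAt (fun t : ℝ => top B (c + t • exactC N μ)) 0 t := by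
  have hcl : N.ClosedC (c + t • exactC N μ) := closedC_add_exactC N hc μ t
  obtain ⟨s, hs⟩ := Pf_surj B hcl.1 ht μ
  have h1 : ∀ u v, exactC N μ u v = (c + t • exactC N μ) (N.br s u) v +
      (c + t • exactC N μ) u (N.br s v) := by
    intro u v
    rw [exactC_apply, ← exactC_eq N hcl, hs]
  have h2 := Pf_deriv_zero (fun α : R k →L[ℝ] R k →L[ℝ] ℝ => top B α) (c + t • exactC N μ)
    (exactC N μ) ((c + t • exactC N μ).bilinearComp (N.br s) (N.br s))
    (Pf_differentiable_top B _) (by
      intro r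
      change top B _ = top B _
      rw [← Pf_expand (c + t • exactC N μ) (exactC N μ) (N.br s) h1 r, top_bilinearComp,
        N.det_one_add_br, one_mul])
  have h3 := Pf_line (fun α : R k →L[ℝ] R k →L[ℝ] ℝ => top B α) c (exactC N μ) t
    (Pf_differentiable_top B _)
  rw [h2] at h3
  exact h3

/-- The top power of a closed form depends only on its class. The function
`f t = top B (c + t • exactC N μ)` is a polynomial whose derivative vanishes wherever `f` does not. If
`f` is not identically zero, then its zeros are finite in number and the derivative of `f` is a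
polynomial with infinitely many zeros, so `f` is constant. (Or: `f * f'` vanishes identically, so
`f ^ 2` is constant.) -/
theorem top_add_exactC (B : Module.Basis (Fin m × Fin 2) ℝ (R k)) {c : R k →L[ℝ] R k →L[ℝ] ℝ}
    (hc : N.ClosedC c) (μ : R k →L[ℝ] ℝ) : top B (c + exactC N μ) = top B c := by
  set f : ℝ → ℝ := fun t => top B (c + t • exactC N μ) with hf
  have hf0 : f 0 = top B c := by simp [hf]
  have hf1 : f 1 = top B (c + exactC N μ) := by simp [hf]
  rw [← hf0, ← hf1]
  have hdiff : Differentiable ℝ f := by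
    intro t
    exact (Pf_line (fun α : R k →L[ℝ] R k →L[ℝ] ℝ => top B α) c (exactC N μ) t
      (Pf_differentiable_top B _)).differentiableAt
  have hd : ∀ t, f t ≠ 0 → HasDerivAt f 0 t := fun t ht => hasDerivAt_top N B hc μ t ht
  have hsq : ∀ t, HasDerivAt (fun t => f t * f t) 0 t := by
    intro t
    by_cases h : f t = 0
    · have h1 := (hdiff t).hasDerivAt.fun_mul (hdiff t).hasDerivAt
      rw [h] at h1
      simpa using h1
    · have h1 := (hd t h).fun_mul (hd t h)
      simpa using h1
  have hsqc : ∀ t, f t * f t = f 0 * f 0 := by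
    intro t
    exact is_const_of_deriv_eq_zero (f := fun t => f t * f t) (fun t => (hsq t).differentiableAt)
      (fun t => (hsq t).deriv) t 0
  by_cases h0 : f 0 = 0
  · have h1 := hsqc 1
    rw [h0, mul_zero] at h1
    rw [h0]
    exact mul_self_eq_zero.1 h1
  · have hne : ∀ t, f t ≠ 0 := by
      intro t ht
      have h1 := hsqc t
      rw [ht, mul_zero] at h1
      exact h0 (mul_self_eq_zero.1 h1.symm)
    exact is_const_of_deriv_eq_zero hdiff (fun t => (hd t (hne t)).deriv) 1 0

/-- If the dimension of `ℝ^k` is the cardinality of the index set of `B`, a closed form is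
nondegenerate if and only if its top power is not zero (`top_eq_zero`, AlgA; `top_ne_zero`, AlgB of
helper15). -/
theorem kerC_eq_bot_iff (B : Module.Basis (Fin m × Fin 2) ℝ (R k)) {c : R k →L[ℝ] R k →L[ℝ] ℝ}
    (hc : ∀ u, c u u = 0) : kerC c = ⊥ ↔ top B c ≠ 0 := by
  have hmem : ∀ x, x ∈ kerC c ↔ c x = 0 := fun x => LinearMap.mem_ker
  constructor
  · intro h
    apply top_ne_zero B c hc
    intro w hw
    have h1 : w ∈ kerC c := (hmem w).2 (ContinuousLinearMap.ext hw)
    rw [h] at h1
    exact (Submodule.mem_bot ℝ).1 h1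
  · intro h
    rw [Submodule.eq_bot_iff]
    intro w hw
    by_contra hne
    apply h
    apply top_eq_zero B c hc w hne
    intro u
    rw [(hmem w).1 hw]
    rfl

end Pool.Agent.W_9986fc_h24
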