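import Pool.Agent.W_9986fc_h24.Nil.Equi
import Pool.Agent.W_9986fc_h24.Nil.IntN
import Pool.Agent.W_9986fc_h24.Nil.Hor
import Pool.Agent.W_9986fc_h24.Nil.Pf
import Pool.Agent.W_9986fc_h24.Prod.Ori
import Pool.Agent.W_9986fc_h15.ClausesA

/-!
The structure of closed forms with positive top power on bundles of nilmanifolds.
-/

set_option autoImplicit false
set_option maxSynthPendingDepth 3

open scoped ContDiff
open Pool.Agent.W_9986fc_h15 MeasureTheory

namespace Pool.Agent.W_9986fc_h24

namespace NilBundle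

variable {k b : ℕ} {N : NilLaw k} {Γ G : Type} [Group Γ] [Group G]
    [MulAction Γ (V k b)] [MulAction G (R b)] (X : NilBundle N b Γ G)

include X in
/-- The mean of the coefficients of a closed invariant form is an `MForm`: it is smooth
(`contDiff_mean`), alternating, and it is the family of coefficients of the closed form `α₀` of
`exists_mean_inv` (`hcl2_hat2`). -/
theorem mform_mean (hE : IsCover (V k b) Γ) (hG : IsCover (R b) G)
    {α : V k b → V k b →L[ℝ] V k b →L[ℝ] ℝ} (hα : Form2 Γ α) (hc : Closed α) :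
    MForm N (mean (N.hat2 α)) := by
  obtain ⟨α₀, η, a1, a2, a3, a4, a5⟩ := exists_mean_inv X hE hG hα hc
  refine ⟨contDiff_mean _ (N.contDiff_hat2 hα.smooth), fun z u => ?_, ?_⟩
  · have h1 := a4 ((0, z) : V k b)
    have h2 : mean (N.hat2 α) z = N.hat2 α₀ ((0, z) : V k b) := h1.symm
    rw [h2]
    exact a1.alt _ _
  · have h1 : (fun p : V k b => mean (N.hat2 α) p.2) = N.hat2 α₀ := funext fun p => (a4 p).symm
    rw [h1]
    exact N.hcl2_hat2 α₀ a1.toIsForm a2

include X in
/-- The core of the argument. Let `α₀`, `η` be as in `exists_mean_inv` and `m = mean (hat2 α)`. Then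
`m` is an `MForm` (`contDiff_mean`, `hcl2_hat2` for `α₀`), equivariant by `mean_hat2`, and
`top B (α₀ p) = top B (m p.2)` (`top_hat2`). By `integral_top_add` and `integral_base` (with
`top_inv`), the integral of `χB z * top B (m z)` is positive. So there is `z₀` with
`top B (m z₀) ≠ 0`, the kernel of `c = cpart (m z₀)` has dimension at most `b`
(`top_eq_zero_of_large`), hence `c` is nondegenerate by the hypothesis `hL`. Then `k` is even (`even_of_nondegenerate`, AlgB of helper15), and so is `b`;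
take bases `Bk`, `Bb₀` (`exists_basis_even`). The number `t = top Bk (cpart (m z))` does not depend on
`z` (`exists_class`, `top_add_exactC`) and is not zero (`kerC_eq_bot_iff`), so all fibre parts are
nondegenerate. Let `σ` be as in `exists_sigma`, `h = hor m σ` (`form2_hor`, `closed_hor`), and `K` the
constant of `exists_split`. By `top_hor`, `top B (m z + lift2 q) = K * t * top Bb₀ (h z + q)`. Hence
`K * t * integ χB Bb₀ h > 0`; choose the orientation `Bb` of the base by `exists_oriented`, then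
`K * t * ε > 0`. The orientation of the base action is preserved by `orient_base`. -/
theorem nil_core (hE : IsCover (V k b) Γ) (hO : Orient (V k b) Γ) (hG : IsCover (R b) G)
    {n : ℕ} (B : Module.Basis (Fin n × Fin 2) ℝ (V k b)) {χ : V k b → ℝ}
    (hχ : Part Γ χ) (α : V k b → V k b →L[ℝ] V k b →L[ℝ] ℝ) (hα : Form2 Γ α) (hc : Closed α)
    (hL : ∀ z, Module.finrank ℝ (kerC (cpart (mean (N.hat2 α) z))) ≤ b →
      kerC (cpart (mean (N.hat2 α) z)) = ⊥)
    (hpos : 0 < ∫ p, χ p * top B (α p)) {χB : R b → ℝ} (hχB : Part G χB) :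
    Orient (R b) G ∧ ∃ (mb : ℕ) (Bb : Module.Basis (Fin mb × Fin 2) ℝ (R b))
      (h : R b → R b →L[ℝ] R b →L[ℝ] ℝ) (α₀ : V k b → V k b →L[ℝ] V k b →L[ℝ] ℝ)
      (η : V k b → V k b →L[ℝ] ℝ), Form2 G h ∧ Closed h ∧ 0 < integ χB Bb h ∧
      Form2 Γ α₀ ∧ Closed α₀ ∧ Form1 Γ η ∧ (∀ p, α p = α₀ p + d1 η p) ∧
      ∀ (p : V k b) (q : R b →L[ℝ] R b →L[ℝ] ℝ), (∀ u, q u u = 0) →
        0 < top Bb (h p.2 + q) → 0 < top B (α₀ p + lift2 q) := by
  obtain ⟨α₀, η, a1, a2, a3, a4, a5⟩ := exists_mean_inv X hE hG hα hc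
  set m : R b → V k b →L[ℝ] V k b →L[ℝ] ℝ := mean (N.hat2 α) with hmdef
  have hm : MForm N m := X.mform_mean hE hG hα hc
  have hi : ∀ (γ : Γ) (z : R b), (m (X.π γ • z)).bilinearComp (Th N γ ((0, z) : V k b))
      (Th N γ ((0, z) : V k b)) = m z := fun γ z => mean_hat2 X hE hG hα γ z
  have htop : ∀ p, top B (α₀ p) = top B (m p.2) := by
    intro p
    rw [top_hat2 N B α₀ p, a4 p]
  have hHaar : Measure.IsAddHaarMeasure (volume : Measure (V k b)) :=
    Measure.prod.instIsAddHaarMeasure (volume : Measure (R k)) (volume : Measure (R b))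
  have hint : 0 < ∫ z, χB z * top B (m z) := by
    have e1 : ∫ p, χ p * top B (α p) = ∫ p, χ p * top B (α₀ p) := by
      rw [← integral_top_add hE hO hχ B α₀ a1 a2 η a3]
      simp only [← a5]
    have e2 : ∫ p, χ p * top B (α₀ p) = ∫ z, χB z * top B (m z) := by
      simp only [htop]
      refine integral_base X hE hO hG hχ hχB (fun z => top B (m z))
        (continuous_top _ hm.smooth.continuous) fun γ p => ?_
      have h1 := top_inv B α₀ a1 γ p
      rw [htop, htop] at h1
      exact h1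
    rw [← e2, ← e1]
    exact hpos
  obtain ⟨z₀, hz₀⟩ : ∃ z₀, top B (m z₀) ≠ 0 := by
    by_contra hne
    push Not at hne
    simp only [hne, mul_zero, integral_zero, lt_irrefl] at hint
  have hfr : Module.finrank ℝ (kerC (cpart (m z₀))) ≤ b := by
    by_contra hlt
    exact hz₀ (hm.top_eq_zero_of_large B z₀ (not_le.1 hlt))
  have hker : kerC (cpart (m z₀)) = ⊥ := hL z₀ hfr
  have halt : ∀ z u, cpart (m z) u u = 0 := fun z u => hm.alt z _
  obtain ⟨mk', hmk'⟩ := even_of_nondegenerate (cpart (m z₀)) (halt z₀) (by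
    intro w hw
    have h1 : w ∈ kerC (cpart (m z₀)) := by
      rw [kerC, LinearMap.mem_ker]
      exact ContinuousLinearMap.ext hw
    rw [hker] at h1
    exact (Submodule.mem_bot ℝ).1 h1)
  have hk : k = 2 * mk' := by
    rw [← hmk', Module.finrank_fin_fun]
  have hkb : k + b = n * 2 := by
    have h1 := Module.finrank_eq_card_basis B
    rw [Module.finrank_prod, Module.finrank_fin_fun, Module.finrank_fin_fun, Fintype.card_prod,
      Fintype.card_fin, Fintype.card_fin] at h1
    exact h1
  obtain ⟨mk, ⟨Bk⟩⟩ := exists_basis_even (E := R k) (by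
    rw [hmk']
    exact even_two_mul _)
  obtain ⟨mb, ⟨Bb₀⟩⟩ := exists_basis_even (E := R b) (by
    rw [Module.finrank_fin_fun, Nat.even_iff]
    omega)
  set t := top Bk (cpart (m z₀)) with ht
  have htc : ∀ z, top Bk (cpart (m z)) = t := by
    intro z
    obtain ⟨μ, hμ⟩ := hm.exists_class z₀ z
    have h1 : cpart (m z) = cpart (m z₀) + exactC N μ := by
      refine ContinuousLinearMap.ext fun u => ContinuousLinearMap.ext fun v => ?_
      rw [_root_.add_apply, _root_.add_apply, exactC_apply]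
      exact hμ u v
    rw [h1]
    exact top_add_exactC N Bk (hm.closedC z₀) μ
  have ht0 : t ≠ 0 := (kerC_eq_bot_iff Bk (halt z₀)).1 hker
  have hkers : ∀ z, kerC (cpart (m z)) = ⊥ := fun z =>
    (kerC_eq_bot_iff Bk (halt z)).2 (by rw [htc z]; exact ht0)
  obtain ⟨σ, s1, s2⟩ := exists_sigma hm hkers
  obtain ⟨K, hK0, hKpos, hK⟩ := exists_split B Bk Bb₀
  have hform : Form2 G (hor m σ) := form2_hor X hE hG hm hkers σ s1 s2 hi
  have hclosed : Closed (hor m σ) := closed_hor hm σ s1 s2
  have hth : ∀ z (q : R b →L[ℝ] R b →L[ℝ] ℝ), (∀ u, q u u = 0) →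
      top B (m z + lift2 q) = K * t * top Bb₀ (hor m σ z + q) := by
    intro z q hq
    rw [top_hor hm σ s2 B Bk Bb₀ K hK z q hq, htc z]
  have hth0 : ∀ z, top B (m z) = K * t * top Bb₀ (hor m σ z) := by
    intro z
    have h1 := hth z 0 (fun u => rfl)
    rw [add_zero] at h1
    rw [← h1]
    congr 1
    refine ContinuousLinearMap.ext fun u => ContinuousLinearMap.ext fun v => ?_
    rw [_root_.add_apply, _root_.add_apply, lift2_apply]
    simp
  have hI : 0 < K * t * integ χB Bb₀ (hor m σ) := by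
    have h1 : ∫ z, χB z * top B (m z) = K * t * integ χB Bb₀ (hor m σ) := by
      unfold integ
      rw [← integral_const_mul]
      refine integral_congr_ae (Filter.Eventually.of_forall fun z => ?_)
      simp only [hth0]
      ring
    rw [← h1]
    exact hint
  have hI0 : integ χB Bb₀ (hor m σ) ≠ 0 := by
    intro h0
    rw [h0, mul_zero] at hI
    exact lt_irrefl _ hI
  obtain ⟨Bb, ε, o1, o2, o3, o4⟩ := exists_oriented hG hχB Bb₀ (hor m σ) hI0
  have hKε : 0 < K * t * ε := by
    have h1 : 0 < (K * t * integ χB Bb₀ (hor m σ)) * (ε * integ χB Bb₀ (hor m σ)) := mul_pos hI o3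
    have h2 : (K * t * integ χB Bb₀ (hor m σ)) * (ε * integ χB Bb₀ (hor m σ)) =
        (K * t * ε) * (integ χB Bb₀ (hor m σ) * integ χB Bb₀ (hor m σ)) := by ring
    rw [h2] at h1
    exact (pos_iff_pos_of_mul_pos h1).2 (mul_self_pos.2 hI0)
  refine ⟨orient_base X hE hG hO hm Bk t ht0 htc hi, mb, Bb, hor m σ, α₀, η, hform, hclosed, o4,
    a1, a2, a3, a5, ?_⟩
  intro p q hq hq'
  have e1 : top B (α₀ p + lift2 q) = K * t * top Bb₀ (hor m σ p.2 + q) := by
    rw [← hth p.2 q hq]
    have h1 := top_hat2 N B (fun p' : V k b => α₀ p' + lift2 q) p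
    rw [h1]
    congr 1
    refine ContinuousLinearMap.ext fun u => ContinuousLinearMap.ext fun v => ?_
    have h2 := congrArg (fun c => c u v) (hat2_lift2 (N := N) (fun _ : R b => q) p)
    have h3 := congrArg (fun c => c u v) (a4 p)
    simp only [N.hat2_apply, _root_.add_apply] at h2 h3 ⊢
    rw [h2, h3]
  rw [o2] at hq'
  rw [e1]
  have e2 : K * t * top Bb₀ (hor m σ p.2 + q) =
      (K * t * ε) * (ε * top Bb₀ (hor m σ p.2 + q)) := by
    have : (K * t * ε) * (ε * top Bb₀ (hor m σ p.2 + q)) =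
      K * t * (ε * ε) * top Bb₀ (hor m σ p.2 + q) := by ring
    rw [this, o1, mul_one]
  rw [e2]
  exact mul_pos hKε hq'

end NilBundle

end Pool.Agent.W_9986fc_h24
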