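import Pool.Agent.W_9986fc_h24.Nil.LawF

/-!
The structure equation, the bracket.
-/

set_option autoImplicit false
set_option maxSynthPendingDepth 3

open scoped ContDiff
open Pool.Agent.W_9986fc_h15

namespace Pool.Agent.W_9986fc_h24

namespace NilLaw

variable {k b : ℕ} (N : NilLaw k)

theorem LawB_br (u v : R k) : N.br u v = fderiv ℝ N.q 0 u v - fderiv ℝ N.q 0 v u := rfl

theorem br_alt (u : R k) : N.br u u = 0 := by
  rw [LawB_br, sub_self]

theorem br_swap (u v : R k) : N.br u v = - N.br v u := by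
  rw [LawB_br, LawB_br, neg_sub]

theorem LawB_q (x : R k) : HasFDerivAt N.q (fderiv ℝ N.q x) x :=
  ((N.contDiff_q.differentiable (by simp)) x).hasFDerivAt

theorem LawB_field (v x : R k) :
    HasFDerivAt (fun y => N.q y v) ((fderiv ℝ N.q x).flip v) x := by
  have h := (N.LawB_q x).clm_apply (hasFDerivAt_const v x)
  simpa using h

theorem LawB_line (u v : R k) (j : Fin k) :
    HasDerivAt (fun t : ℝ => N.q (t • u) v j) (fderiv ℝ N.q 0 u v j) 0 := by
  have h1 : HasFDerivAt (fun y => N.q y v) ((fderiv ℝ N.q 0).flip v) ((0 : ℝ) • u) := by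
    rw [zero_smul]
    exact N.LawB_field v 0
  have h2 : HasDerivAt (fun t : ℝ => t • u) ((1 : ℝ) • u) 0 := (hasDerivAt_id 0).smul_const u
  have h3 := h1.comp_hasDerivAt 0 h2
  have h4 := (hasDerivAt_pi.1 h3) j
  rw [one_smul] at h4
  exact h4

/-- The bracket is triangular: `q (t u) v j - v j` does not change if one replaces `t u` by `0`
(`q_tri`), and `q (t v) u j = u j` (`q_apply_tri`); differentiate in `t`. -/
theorem br_tri (j : Fin k) (u v : R k) (hu : ∀ i, i < j → u i = 0) : N.br u v j = 0 := by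
  have h1 : (fun t : ℝ => N.q (t • u) v j) = fun _ => N.q 0 v j := by
    funext t
    have h := N.q_tri j (t • u) 0 v v (fun i hi => by
      rw [Pi.smul_apply, hu i hi, smul_zero, Pi.zero_apply]) (fun _ _ => rfl)
    linarith
  have h2 : (fun t : ℝ => N.q (t • v) u j) = fun _ => u j := by
    funext t
    exact N.q_apply_tri j (t • v) u hu
  have h3 := N.LawB_line u v j
  rw [h1] at h3
  have h4 := h3.unique (hasDerivAt_const 0 (N.q 0 v j))
  have h5 := N.LawB_line v u j
  rw [h2] at h5
  have h6 := h5.unique (hasDerivAt_const 0 (u j))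
  rw [LawB_br, Pi.sub_apply, h4, h6, sub_zero]

theorem LawB_tri (j : Fin k) (u v : R k) (hv : ∀ i, i < j → v i = 0) : N.br u v j = 0 := by
  rw [br_swap, Pi.neg_apply, N.br_tri j v u hv, neg_zero]

theorem LawB_mul (x : R k) : ContDiff ℝ ∞ (N.mul x) :=
  N.smooth.comp (contDiff_const.prodMk contDiff_id)

theorem LawB_snd (x u v : R k) :
    N.q x (fderiv ℝ N.q 0 u v) + fderiv ℝ (fderiv ℝ (N.mul x)) 0 u v =
      fderiv ℝ N.q x (N.q x u) v := by
  have hA : HasFDerivAt (fderiv ℝ (N.mul x)) (fderiv ℝ (fderiv ℝ (N.mul x)) 0) 0 := by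
    have h1 : ContDiff ℝ ∞ (fderiv ℝ (N.mul x)) := (N.LawB_mul x).fderiv_right (by simp)
    exact ((h1.differentiable (by simp)) 0).hasFDerivAt
  have h2 := hA.clm_apply (N.LawB_field v 0)
  have hm : HasFDerivAt (N.mul x) (N.q x) 0 :=
    (((N.LawB_mul x).differentiable (by simp)) 0).hasFDerivAt
  have h3 : HasFDerivAt (fun y => N.q y v) ((fderiv ℝ N.q x).flip v) (N.mul x 0) := by
    rw [N.mul_zero]
    exact N.LawB_field v x
  have h4 := h3.comp 0 hm
  have h5 : (fun y => (fderiv ℝ (N.mul x) y) (N.q y v)) = (fun y => N.q y v) ∘ N.mul x := by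
    funext y
    exact DFunLike.congr_fun (N.left_q x y) v
  rw [h5] at h2
  have h6 := DFunLike.congr_fun (h2.unique h4) u
  rw [N.q_zero] at h6
  exact h6

theorem LawB_symm (x u v : R k) :
    fderiv ℝ (fderiv ℝ (N.mul x)) 0 u v = fderiv ℝ (fderiv ℝ (N.mul x)) 0 v u := by
  have h : IsSymmSndFDerivAt ℝ (N.mul x) 0 :=
    ((N.LawB_mul x).contDiffAt).isSymmSndFDerivAt (by
      rw [minSmoothness_of_isRCLikeNormedField]
      exact WithTop.coe_le_coe.2 (le_top : (2 : ℕ∞) ≤ ⊤))
  exact h u v

/-- The structure equation. Differentiate `left_q`, `(D_2 mul (x, y)) (q y v) = q (x * y) v`, in `y`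
at `0` in the direction `u`: with `D_2 mul (x, 0) = q x` this gives
`(D_2^2 mul (x, 0)) u v + q x (D q (0) u v) = D q (x) (q x u) v`. The first term is symmetric in
`u, v`; antisymmetrize. -/
theorem structure_eq (x u v : R k) :
    fderiv ℝ N.q x (N.q x u) v - fderiv ℝ N.q x (N.q x v) u = N.q x (N.br u v) := by
  rw [← LawB_snd, ← LawB_snd, LawB_br, map_sub, N.LawB_symm x v u]
  abel

theorem LawB_lie (u v : R k) :
    VectorField.lieBracket ℝ (fun y => N.q y u) (fun y => N.q y v) = fun y => N.q y (N.br u v) := by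
  funext x
  rw [VectorField.lieBracket, (N.LawB_field v x).fderiv, (N.LawB_field u x).fderiv,
    ← structure_eq]
  rfl

theorem LawB_smooth (u x : R k) : ContDiffAt ℝ ∞ (fun y => N.q y u) x :=
  (N.contDiff_q.clm_apply contDiff_const).contDiffAt

/-- The Jacobi identity. Let `X u` be the vector field `x ↦ q x u`. For a smooth function `F` on
`ℝ^k` the derivative along the fields satisfies `D_u D_v F - D_v D_u F = D_[u,v] F` (by
`structure_eq` and the symmetry of the second derivative); apply this to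
`D_u D_v D_w F` and its permutations, at `x = 0` for the coordinate functions `F` (where
`D_u F (0) = u i`). -/
theorem jacobi (u v w : R k) :
    N.br (N.br u v) w + N.br (N.br v w) u + N.br (N.br w u) v = 0 := by
  have h := VectorField.leibniz_identity_lieBracket (𝕜 := ℝ) (n := ∞) (by
      rw [minSmoothness_of_isRCLikeNormedField]
      exact WithTop.coe_le_coe.2 (le_top : (2 : ℕ∞) ≤ ⊤)) (N.LawB_smooth u 0) (N.LawB_smooth v 0) (N.LawB_smooth w 0)
  rw [N.LawB_lie v w, N.LawB_lie u v, N.LawB_lie u w, N.LawB_lie u (N.br v w),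
    N.LawB_lie (N.br u v) w, N.LawB_lie v (N.br u w)] at h
  simp only [N.q_zero, ContinuousLinearMap.id_apply] at h
  rw [N.br_swap (N.br v w) u, h, N.br_swap (N.br w u) v, N.br_swap w u, map_neg]
  abel

/-- The adjoint map is strictly lower triangular, so `1 + s ad u` has determinant one
(`Matrix.det_of_lowerTriangular`). -/
theorem det_one_add_br (s : ℝ) (u : R k) :
    (ContinuousLinearMap.id ℝ (R k) + s • N.br u).det = 1 := by
  change LinearMap.det ((ContinuousLinearMap.id ℝ (R k) + s • N.br u : R k →L[ℝ] R k) :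
    R k →ₗ[ℝ] R k) = 1
  rw [← LinearMap.det_toMatrix']
  have key : ∀ i j : Fin k, i ≤ j → N.br u (Pi.single j 1) i = 0 := by
    intro i j hij
    refine N.LawB_tri i u _ fun l hl => ?_
    rw [Pi.single_apply, if_neg (ne_of_lt (lt_of_lt_of_le hl hij))]
  have hent : ∀ i j : Fin k, LinearMap.toMatrix' ((ContinuousLinearMap.id ℝ (R k) +
      s • N.br u : R k →L[ℝ] R k) : R k →ₗ[ℝ] R k) i j =
      (Pi.single j 1 : R k) i + s * N.br u (Pi.single j 1) i := by
    intro i j
    rw [LinearMap.toMatrix'_apply]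
    rfl
  rw [Matrix.det_of_isLowerTriangular]
  · refine Finset.prod_eq_one fun i _ => ?_
    rw [hent, key i i le_rfl, Pi.single_eq_same, MulZeroClass.mul_zero, add_zero]
  · intro i j hij
    have hij' : i < j := hij
    rw [hent, key i j hij'.le, Pi.single_apply, if_neg hij'.ne, MulZeroClass.mul_zero, add_zero]

/-- The adjoint map is nilpotent. -/
theorem br_pow (u v : R k) : ((N.br u : R k →ₗ[ℝ] R k) ^ k) v = 0 := by
  have key : ∀ n : ℕ, ∀ j : Fin k, (j : ℕ) < n → ((N.br u : R k →ₗ[ℝ] R k) ^ n) v j = 0 := by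
    intro n
    induction n with
    | zero => exact fun j hj => absurd hj (Nat.not_lt_zero _)
    | succ n ih =>
      intro j hj
      rw [pow_succ', Module.End.mul_apply]
      refine N.LawB_tri j u _ fun i hi => ih i ?_
      have : (i : ℕ) < j := hi
      omega
  funext j
  exact key k j j.2

end NilLaw

end Pool.Agent.W_9986fc_h24
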