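import Pool.Agent.W_9986fc_h24.Nil.LawQ
import Pool.Agent.W_9986fc_h24.Nil.LawB
import Pool.Agent.W_9986fc_h15.Avg

/-!
Functions which depend only on the first coordinates, averages and primitives.
-/

set_option autoImplicit false
set_option maxSynthPendingDepth 3

open scoped ContDiff
open Pool.Agent.W_9986fc_h15

namespace Pool.Agent.W_9986fc_h24

variable {k b : ℕ} {H : Type*} [NormedAddCommGroup H] [NormedSpace ℝ H]

/-- If `F` depends only on the coordinates before `j`, then its derivative vanishes in the direction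
of the other coordinates. -/
theorem dep_fderiv_zero {j : ℕ} {F : V k b → H} (hF : Dep j F) (hd : ContDiff ℝ ∞ F)
    (p u : V k b) (hu : ∀ i : Fin k, (i : ℕ) < j → u.1 i = 0) (hu2 : u.2 = 0) :
    fderiv ℝ F p u = 0 := by
  have h1 : HasLineDerivAt ℝ F (fderiv ℝ F p u) p u :=
    (hd.differentiable (by simp) p).hasFDerivAt.hasLineDerivAt u
  have h2 : (fun t : ℝ => F (p + t • u)) = fun _ => F p := by
    funext t
    have e : p + t • u = (p.1 + t • u.1, p.2) := by
      refine Prod.ext rfl ?_
      change p.2 + t • u.2 = p.2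
      rw [hu2, smul_zero, add_zero]
    rw [e]
    refine hF (p.1 + t • u.1) p.1 p.2 fun i hi => ?_
    change p.1 i + t • u.1 i = p.1 i
    rw [hu i hi, smul_zero, add_zero]
  have h3 : HasDerivAt (fun t : ℝ => F (p + t • u)) (fderiv ℝ F p u) 0 := h1
  rw [h2] at h3
  exact h3.unique (hasDerivAt_const 0 (F p))

theorem DepA_fderiv_congr {j : ℕ} {F : V k b → H} (hF : Dep j F) (hd : ContDiff ℝ ∞ F)
    (p u v : V k b) (hu : ∀ i : Fin k, (i : ℕ) < j → u.1 i = v.1 i) (hu2 : u.2 = v.2) :
    fderiv ℝ F p u = fderiv ℝ F p v := by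
  rw [← sub_eq_zero, ← map_sub]
  refine dep_fderiv_zero hF hd p (u - v) (fun i hi => ?_) ?_
  · change u.1 i - v.1 i = 0
    rw [hu i hi, sub_self]
  · change u.2 - v.2 = 0
    rw [hu2, sub_self]

/-- The derivative depends only on the coordinates before `j`. -/
theorem dep_fderiv {j : ℕ} {F : V k b → H} (hF : Dep j F) : Dep j (fderiv ℝ F) := by
  intro x x' z hx
  have h1 : (fun y : V k b => F (y + (x' - x, 0))) = F := by
    funext y
    have e : y + ((x' - x, 0) : V k b) = (y.1 + (x' - x), y.2) := by
      refine Prod.ext rfl ?_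
      change y.2 + 0 = y.2
      rw [add_zero]
    rw [e]
    refine hF (y.1 + (x' - x)) y.1 y.2 fun i hi => ?_
    change y.1 i + (x' i - x i) = y.1 i
    rw [hx i hi, sub_self, add_zero]
  have h2 : fderiv ℝ (fun y : V k b => F (y + (x' - x, 0))) (x, z) =
      fderiv ℝ F ((x, z) + (x' - x, 0)) := fderiv_comp_add_right _
  rw [h1] at h2
  rw [h2]
  congr 1
  refine Prod.ext ?_ ?_
  · change x + (x' - x) = x'
    abel
  · change z + 0 = z
    rw [add_zero]

/-- Averages and primitives in the direction of a coordinate depend on the same coordinates. -/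
theorem dep_wavg [CompleteSpace H] {j : ℕ} {F : V k b → H} (hF : Dep j F) (w : ℝ → ℝ) (i : Fin k) :
    Dep j (wavg w (dir i : V k b) F) := by
  intro x x' z hx
  unfold wavg
  refine intervalIntegral.integral_congr fun t _ => ?_
  change w t • F ((x, z) + t • dir i) = w t • F ((x', z) + t • dir i)
  congr 1
  refine hF (x + t • Pi.single i 1) (x' + t • Pi.single i 1) (z + t • 0) fun l hl => ?_
  change x l + _ = x' l + _
  rw [hx l hl]

namespace NilLaw

variable (N : NilLaw k)

theorem DepA_mul_add (j : Fin k) (y x : R k) (t : ℝ) (i : Fin k) (hi : i ≤ j) :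
    N.mul y (x + t • Pi.single j 1 : R k) i = (N.mul y x + t • Pi.single j 1 : R k) i := by
  have hag : ∀ l, l < i → (x + t • Pi.single j 1 : R k) l = x l := by
    intro l hl
    change x l + t • (Pi.single j 1 : R k) l = x l
    rw [Pi.single_eq_of_ne (hl.trans_le hi).ne, smul_zero, add_zero]
  have h := N.tri i y y (x + t • Pi.single j 1 : R k) x (fun _ _ => rfl) hag
  have e1 : (x + t • Pi.single j 1 : R k) i = x i + t • (Pi.single j 1 : R k) i := rfl
  have e2 : (N.mul y x + t • Pi.single j 1 : R k) i = N.mul y x i + t • (Pi.single j 1 : R k) i := rfl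
  rw [e1] at h
  rw [e2]
  linarith

/-- The derivative along the frame depends only on the same coordinates: `Q p u` and `Q p' u`
agree in the coordinates before `j` (`q_tri`), and the derivative of `F` vanishes in the direction of
the other coordinates. -/
theorem dep_D {j : ℕ} {F : V k b → H} (hF : Dep j F) (hd : ContDiff ℝ ∞ F) : Dep j (N.D F) := by
  intro x x' z hx
  have h1 : fderiv ℝ F (x, z) = fderiv ℝ F (x', z) := dep_fderiv hF x x' z hx
  refine ContinuousLinearMap.ext fun u => ?_
  change fderiv ℝ F (x, z) (N.Q (x, z) u) = fderiv ℝ F (x', z) (N.Q (x', z) u)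
  rw [← h1]
  refine DepA_fderiv_congr hF hd _ _ _ (fun i hi => ?_) rfl
  change N.q x u.1 i = N.q x' u.1 i
  have h2 := N.q_tri i x x' u.1 u.1
    (fun l hl => hx l (lt_trans (Fin.lt_def.mp hl) hi)) (fun _ _ => rfl)
  linarith

/-- In the direction of the last coordinate the derivative along the frame is the partial
derivative: `Q p (dir j)` and `dir j` agree in the coordinates up to `j` (`q_apply_tri`). -/
theorem D_dir (j : Fin k) {F : V k b → H} (hF : Dep (j + 1) F) (hd : ContDiff ℝ ∞ F) (p : V k b) :
    N.D F p (dir j) = fderiv ℝ F p (dir j) := by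
  change fderiv ℝ F p (N.Q p (dir j)) = fderiv ℝ F p (dir j)
  refine DepA_fderiv_congr hF hd _ _ _ (fun i hi => ?_) rfl
  change N.q p.1 (Pi.single j 1) i = (Pi.single j 1 : R k) i
  refine N.q_apply_tri i p.1 _ fun l hl => ?_
  have hlj : l ≠ j := by
    rintro rfl
    have := Fin.lt_def.mp hl
    omega
  rw [Pi.single_eq_of_ne hlj]

/-- The derivative along a field with vanishing coordinates up to `j`. -/
theorem D_eq_zero (j : Fin k) {F : V k b → H} (hF : Dep (j + 1) F) (hd : ContDiff ℝ ∞ F)
    (p u : V k b) (hu : ∀ i : Fin k, i ≤ j → u.1 i = 0) (hu2 : u.2 = 0) : N.D F p u = 0 := by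
  change fderiv ℝ F p (N.Q p u) = 0
  refine dep_fderiv_zero hF hd _ _ (fun i hi => ?_) hu2
  change N.q p.1 u.1 i = 0
  have hij : i ≤ j := Fin.le_def.mpr (by omega)
  rw [N.q_apply_tri i p.1 u.1 (fun l hl => hu l (hl.le.trans hij)), hu i hij]

/-- The derivative along the frame of a function invariant under the lattice is invariant
(`left_Q` and the chain rule). -/
theorem lam_D {F : V k b → H} (hF : N.Lam F) (hd : ContDiff ℝ ∞ F) : N.Lam (N.D F) := by
  intro m x z
  have hL : ContDiff ℝ ∞ (fun p : V k b => ((N.mul (intV m) p.1, p.2) : V k b)) := by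
    refine ContDiff.prodMk ?_ contDiff_snd
    exact N.smooth.comp (contDiff_const.prodMk contDiff_fst)
  have hcomp : (fun p : V k b => F ((N.mul (intV m) p.1, p.2) : V k b)) = F := by
    funext p
    exact hF m p.1 p.2
  have hch : fderiv ℝ (fun p : V k b => F ((N.mul (intV m) p.1, p.2) : V k b)) (x, z) =
      (fderiv ℝ F ((N.mul (intV m) x, z) : V k b)).comp
        (fderiv ℝ (fun p : V k b => ((N.mul (intV m) p.1, p.2) : V k b)) (x, z)) :=
    fderiv_comp (𝕜 := ℝ) (x := ((x, z) : V k b)) (g := F)
      (f := fun p : V k b => ((N.mul (intV m) p.1, p.2) : V k b))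
      (hd.differentiable (by simp) _) (hL.differentiable (by simp) _)
  rw [hcomp] at hch
  change (fderiv ℝ F ((N.mul (intV m) x, z) : V k b)).comp (N.Q ((N.mul (intV m) x, z) : V k b)) =
    (fderiv ℝ F (x, z)).comp (N.Q (x, z))
  rw [hch, ContinuousLinearMap.comp_assoc, N.left_Q (intV m) (x, z)]

/-- Translations in the direction of the last coordinate commute with the left translations, for
functions of the coordinates up to `j`. -/
theorem lam_wavg [CompleteSpace H] (j : Fin k) {F : V k b → H} (hF : Dep (j + 1) F)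
    (hL : N.Lam F) (w : ℝ → ℝ) : N.Lam (wavg w (dir j : V k b) F) := by
  intro m x z
  unfold wavg
  refine intervalIntegral.integral_congr fun t _ => ?_
  change w t • F ((N.mul (intV m) x, z) + t • dir j) = w t • F ((x, z) + t • dir j)
  congr 1
  have h1 : F ((N.mul (intV m) x, z) + t • dir j) =
      F (N.mul (intV m) (x + t • Pi.single j 1), z + t • 0) := by
    refine hF (N.mul (intV m) x + t • Pi.single j 1) (N.mul (intV m) (x + t • Pi.single j 1))
      (z + t • 0) fun i hi => ?_
    exact (DepA_mul_add N j (intV m) x t i (Fin.le_def.mpr (by omega))).symm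
  rw [h1, hL]
  rfl

/-- Periodicity in the direction of the last coordinate: for `m = e_j` the coordinates up to `j` of
`e_j * x` and `x + e_j` agree (`mul_left_tri`). -/
theorem periodic_dir (j : Fin k) {F : V k b → H} (hF : Dep (j + 1) F) (hL : N.Lam F) (p : V k b) :
    F (p + dir j) = F p := by
  have h1 := hL (Pi.single j 1) p.1 p.2
  rw [← h1]
  have e : p + dir j = (p.1 + Pi.single j 1, p.2) := by
    refine Prod.ext rfl ?_
    change p.2 + 0 = p.2
    rw [add_zero]
  rw [e]
  refine hF _ _ p.2 fun i hi => ?_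
  have hint : (intV (Pi.single j 1) : R k) = Pi.single j 1 := by
    funext l
    by_cases hl : l = j
    · subst hl
      simp [intV]
    · simp [intV, Pi.single_eq_of_ne hl]
  rw [hint, N.mul_left_tri i _ p.1 fun l hl => ?_]
  · change p.1 i + _ = _
    rw [add_comm]
  · have hlj : l ≠ j := by
      rintro rfl
      have := Fin.lt_def.mp hl
      omega
    rw [Pi.single_eq_of_ne hlj]

/-- Averages and primitives in the direction of the last coordinate commute with the derivatives
along the frame: under the integral sign, the coordinates up to `j` of `Q (p + t e_j) u` and `Q p u`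
agree (`q_tri`). Use `fderiv_wavg` and `wavg_clm`. -/
theorem D_wavg [CompleteSpace H] (j : Fin k) {F : V k b → H} (hF : Dep (j + 1) F)
    (hd : ContDiff ℝ ∞ F) (w : ℝ → ℝ) (hw : Continuous w) (p u : V k b) :
    N.D (wavg w (dir j : V k b) F) p u = wavg w (dir j : V k b) (fun p => N.D F p u) p := by
  have hd1 : ContDiff ℝ 1 F := hd.of_le (by exact_mod_cast le_top)
  have hc' : Continuous (fderiv ℝ F) := hd1.continuous_fderiv (by norm_num)
  change fderiv ℝ (wavg w (dir j : V k b) F) p (N.Q p u) = _
  rw [fderiv_wavg w hw _ F hd1 p]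
  have h1 := wavg_clm (ContinuousLinearMap.apply ℝ H (N.Q p u)) w hw (dir j : V k b)
    (fderiv ℝ F) hc' p
  simp only [ContinuousLinearMap.apply_apply] at h1
  rw [← h1]
  unfold wavg
  refine intervalIntegral.integral_congr fun t _ => ?_
  change w t • fderiv ℝ F (p + t • dir j) (N.Q p u) =
    w t • fderiv ℝ F (p + t • dir j) (N.Q (p + t • dir j) u)
  congr 1
  refine DepA_fderiv_congr hF hd _ _ _ (fun i hi => ?_) rfl
  change N.q p.1 u.1 i = N.q (p.1 + t • Pi.single j 1) u.1 i
  have h2 := N.q_tri i p.1 (p.1 + t • Pi.single j 1) u.1 u.1 (fun l hl => ?_) (fun _ _ => rfl)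
  · linarith
  · have hlj : l ≠ j := by
      rintro rfl
      have := Fin.lt_def.mp hl
      omega
    change p.1 l = p.1 l + t • (Pi.single j 1 : R k) l
    rw [Pi.single_eq_of_ne hlj, smul_zero, add_zero]

/-- The average in the direction of the last coordinate does not depend on it
(`avg_add_smul`). -/
theorem dep_avg [CompleteSpace H] (j : Fin k) {F : V k b → H} (hF : Dep (j + 1) F)
    (hL : N.Lam F) (hc : Continuous F) : Dep (j : ℕ) (avg (dir j : V k b) F) := by
  intro x x' z hx
  have h1 : Dep ((j : ℕ) + 1) (avg (dir j : V k b) F) := by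
    rw [← wavg_one]
    exact dep_wavg hF _ j
  have h2 := avg_add_smul (dir j : V k b) F hc (fun p => periodic_dir N j hF hL p) (x, z)
    (x' j - x j)
  rw [← h2]
  have e : ((x, z) : V k b) + (x' j - x j) • dir j = (x + (x' j - x j) • Pi.single j 1, z) := by
    refine Prod.ext rfl ?_
    change z + (x' j - x j) • 0 = z
    rw [smul_zero, add_zero]
  rw [e]
  refine h1 _ _ z fun i hi => ?_
  change x i + (x' j - x j) • (Pi.single j 1 : R k) i = x' i
  by_cases hij : i = j
  · subst hij
    rw [Pi.single_eq_same, smul_eq_mul, mul_one]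
    ring
  · rw [Pi.single_eq_of_ne hij, smul_zero, add_zero]
    refine hx i ?_
    have hne : (i : ℕ) ≠ (j : ℕ) := fun h => hij (Fin.ext h)
    omega

/-- The right translation by `t e_j` is the translation in the coordinate `j`, for functions of the
coordinates up to `j`. -/
theorem mul_dir (j : Fin k) {F : V k b → H} (hF : Dep (j + 1) F) (t : ℝ) (x : R k) (z : R b) :
    F (N.mul x (Pi.single j t), z) = F ((x, z) + t • dir j) := by
  have e : ((x, z) : V k b) + t • dir j = (x + Pi.single j t, z) := by
    refine Prod.ext ?_ ?_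
    · change x + t • Pi.single j 1 = x + Pi.single j t
      rw [← Pi.single_smul, smul_eq_mul, mul_one]
    · change z + t • 0 = z
      rw [smul_zero, add_zero]
  rw [e]
  refine hF _ _ z fun i hi => ?_
  refine N.mul_right_tri i x _ fun l hl => ?_
  have hlj : l ≠ j := by
    rintro rfl
    have := Fin.lt_def.mp hl
    omega
  rw [Pi.single_eq_of_ne hlj]

end NilLaw

end Pool.Agent.W_9986fc_h24
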