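import Pool.Agent.W_9986fc_h24.Nil.Stage1
import Pool.Agent.W_9986fc_h24.Nil.ActB
import Pool.Agent.W_9986fc_h24.Stk

/-!
The cocycle of an averaging primitive.
-/

set_option autoImplicit false
set_option maxSynthPendingDepth 3

open scoped ContDiff
open Pool.Agent.W_9986fc_h15 MeasureTheory

namespace Pool.Agent.W_9986fc_h24

theorem EquiB_contDiff_pull1 {E : Type*} [NormedAddCommGroup E] [NormedSpace ℝ E]
    {φ : E → E} (hφ : ContDiff ℝ ∞ φ) {η : E → E →L[ℝ] ℝ} (hη : ContDiff ℝ ∞ η) :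
    ContDiff ℝ ∞ (pull1 φ η) := by
  have h1 : ContDiff ℝ ∞ (fderiv ℝ φ) := (contDiff_infty_iff_fderiv.1 hφ).2
  exact (hη.comp hφ).clm_comp h1

theorem EquiB_pull1_comp {E : Type*} [NormedAddCommGroup E] [NormedSpace ℝ E]
    {φ ψ : E → E} (hφ : ContDiff ℝ ∞ φ) (hψ : ContDiff ℝ ∞ ψ) (η : E → E →L[ℝ] ℝ) (x : E) :
    pull1 ψ (pull1 φ η) x = pull1 (fun y => φ (ψ y)) η x := by
  unfold pull1
  rw [ContinuousLinearMap.comp_assoc]
  congr 1
  exact (fderiv_comp x (hφ.differentiable (by simp) (ψ x)) (hψ.differentiable (by simp) x)).symm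

namespace NilBundle

variable {k b : ℕ} {N : NilLaw k} {Γ G : Type} [Group Γ] [Group G]
    [MulAction Γ (V k b)] [MulAction G (R b)] (X : NilBundle N b Γ G)

include X in
/-- The cocycle. Let `θ γ = γ^* η₀ - η₀`. It is closed, because `d1 η₀ = α - α₀` is invariant
(`d1_pull1_gen`, SurfB of helper15). Its coefficients are invariant under the lattice
(`hat1_pull1`, `lam_smul`, `Th_eq`) and have mean zero (`mean_smul`), so by `exists_prim1` there is
`h γ`, invariant under the lattice and with mean zero, with `θ γ = d (h γ)` (`hat1_injective`;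
`hat1 (fderiv h) = D h`). The functions `h (γ δ)` and `h γ ∘ δ + h δ` have the same differential and
mean zero (`mean_smul`), so they are equal. -/
theorem exists_cocycle_nil (hE : IsCover (V k b) Γ) (hG : IsCover (R b) G)
    (η₀ : V k b → V k b →L[ℝ] ℝ) (h0 : ContDiff ℝ ∞ η₀) (hL : N.Lam (N.hat1 η₀))
    (hm : ∀ z, mean (N.hat1 η₀) z = 0)
    (hi : ∀ (γ : Γ) p, pull2 (fun x : V k b => γ • x) (d1 η₀) p = d1 η₀ p) :
    ∃ h : Γ → V k b → ℝ, (∀ γ, ContDiff ℝ ∞ (h γ)) ∧
      (∀ γ p, pull1 (fun x : V k b => γ • x) η₀ p = η₀ p + fderiv ℝ (h γ) p) ∧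
      ∀ γ δ p, h (γ * δ) p = h γ (δ • p) + h δ p := by
  have hps : ∀ γ : Γ, ContDiff ℝ ∞ (pull1 (fun x : V k b => γ • x) η₀) := fun γ =>
    EquiB_contDiff_pull1 (hE.smooth γ) h0
  have hhat : ∀ (γ : Γ) p, N.hat1 (fun p => pull1 (fun x : V k b => γ • x) η₀ p - η₀ p) p =
      (N.hat1 η₀ (γ • p)).comp (Th N γ ((0, p.2) : V k b)) - N.hat1 η₀ p := by
    intro γ p
    rw [← Th_eq X hE γ p, ← hat1_pull1]
    refine ContinuousLinearMap.ext fun u => ?_
    simp only [NilLaw.hat1_apply, _root_.sub_apply]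
  have hex : ∀ γ : Γ, ∃ f : V k b → ℝ, ContDiff ℝ ∞ f ∧ N.Lam f ∧ (∀ z, mean f z = 0) ∧
      ∀ p, pull1 (fun x : V k b => γ • x) η₀ p = η₀ p + fderiv ℝ f p := by
    intro γ
    set θ : V k b → V k b →L[ℝ] ℝ := fun p => pull1 (fun x : V k b => γ • x) η₀ p - η₀ p with hθ
    have hθs : ContDiff ℝ ∞ θ := (hps γ).sub h0
    have hθh : ContDiff ℝ ∞ (N.hat1 θ) := N.contDiff_hat1 hθs
    have hθL : N.Lam (N.hat1 θ) := by
      intro m x z
      rw [hhat, hhat]
      have e1 := lam_smul X γ hL m x z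
      have e2 := hL m x z
      simp only at e1
      rw [e1, e2]
    have hθd : ∀ p, d1 θ p = 0 := by
      intro p
      rw [hθ, d1_sub (hps γ) h0, d1_pull1_gen _ (hE.smooth γ) η₀ h0, hi, sub_self]
    have hθc : ∀ p, N.hd1 (N.hat1 θ) p = 0 := by
      intro p
      rw [← N.hat2_d1 θ hθs]
      refine ContinuousLinearMap.ext fun u => ContinuousLinearMap.ext fun v => ?_
      rw [NilLaw.hat2_apply, hθd]
      rfl
    have hθm : ∀ z, mean (N.hat1 θ) z = 0 := by
      intro z
      have e1 : N.hat1 θ = fun p => ((ContinuousLinearMap.compL ℝ (V k b) (V k b) ℝ).flip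
          (Th N γ ((0, p.2) : V k b))) (N.hat1 η₀ (γ • p)) + (-1 : ℝ) • N.hat1 η₀ p := by
        funext p
        rw [hhat]
        refine ContinuousLinearMap.ext fun u => ?_
        simp
        ring
      have hc1 : Continuous (N.hat1 η₀) := (N.contDiff_hat1 h0).continuous
      have hc2 : Continuous fun p : V k b => N.hat1 η₀ (γ • p) :=
        hc1.comp (hE.smooth γ).continuous
      have hc3 : Continuous fun p : V k b => (-1 : ℝ) • N.hat1 η₀ p :=
        (continuous_const (y := (-1 : ℝ))).smul hc1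
      have e2 : mean (fun p : V k b => (-1 : ℝ) • N.hat1 η₀ p) z = 0 := by
        rw [mean_smul_snd (fun _ => (-1 : ℝ)) (N.hat1 η₀) z, hm, smul_zero]
      have e3 : mean (fun p : V k b => ((ContinuousLinearMap.compL ℝ (V k b) (V k b) ℝ).flip
          (Th N γ ((0, p.2) : V k b))) (N.hat1 η₀ (γ • p))) z = 0 := by
        rw [mean_clm (fun z : R b => (ContinuousLinearMap.compL ℝ (V k b) (V k b) ℝ).flip
          (Th N γ ((0, z) : V k b))) (fun p => N.hat1 η₀ (γ • p)) hc2 z,
          mean_smul X hE hG (N.hat1 η₀) hc1 hL γ z, hm, map_zero]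
      have hc4 : Continuous fun p : V k b => ((ContinuousLinearMap.compL ℝ (V k b) (V k b) ℝ).flip
          (Th N γ ((0, p.2) : V k b))) (N.hat1 η₀ (γ • p)) := by
        have e4 : (fun p : V k b => ((ContinuousLinearMap.compL ℝ (V k b) (V k b) ℝ).flip
          (Th N γ ((0, p.2) : V k b))) (N.hat1 η₀ (γ • p))) =
            fun p => N.hat1 θ p + N.hat1 η₀ p := by
          funext p
          rw [hhat]
          refine ContinuousLinearMap.ext fun u => ?_
          simp
        rw [e4]
        exact hθh.continuous.add hc1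
      rw [e1, mean_add_fun _ _ hc4 hc3, e2, e3, add_zero]
    obtain ⟨f, hf, hfL, hfm, hfD⟩ := N.exists_prim1 (N.hat1 θ) hθh hθL hθc
    refine ⟨f, hf, hfL, hfm, fun p => ?_⟩
    have e1 : N.hat1 θ = N.hat1 (fderiv ℝ f) := by
      funext p
      rw [hfD p, hθm, zero_add]
      rfl
    have e2 := congrFun (N.hat1_injective _ _ e1) p
    rw [← e2, hθ]
    simp only
    rw [add_sub_cancel]
  choose h hs hhL hhm hhd using hex
  refine ⟨h, hs, hhd, fun γ δ p => ?_⟩
  -- the difference is constant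
  have hsub : ∀ x, fderiv ℝ (fun x => h (γ * δ) x - (h γ (δ • x) + h δ x)) x = 0 := by
    intro x
    have hcomp : ContDiff ℝ ∞ fun x : V k b => h γ (δ • x) := (hs γ).comp (hE.smooth δ)
    rw [fderiv_fun_sub ((hs (γ * δ)).differentiable (by simp) x)
      ((hcomp.add (hs δ)).differentiable (by simp) x),
      fderiv_fun_add (hcomp.differentiable (by simp) x) ((hs δ).differentiable (by simp) x),
      ← pull1_fderiv (hE.smooth δ) (hs γ) x]
    have e1 : fderiv ℝ (h γ) = fun p => pull1 (fun x : V k b => γ • x) η₀ p - η₀ p := by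
      funext q
      rw [hhd γ q]
      abel
    have e2 : ∀ (ε : Γ) q, fderiv ℝ (h ε) q = pull1 (fun x : V k b => ε • x) η₀ q - η₀ q := by
      intro ε q
      rw [hhd ε q]
      abel
    rw [e1, pull1_sub, EquiB_pull1_comp (hE.smooth γ) (hE.smooth δ), e2, e2]
    have e3 : (fun y : V k b => γ • δ • y) = fun y => (γ * δ) • y := by
      funext y
      rw [mul_smul]
    rw [e3]
    abel
  have hdiff : Differentiable ℝ fun x => h (γ * δ) x - (h γ (δ • x) + h δ x) := by
    have hcomp : ContDiff ℝ ∞ fun x : V k b => h γ (δ • x) := (hs γ).comp (hE.smooth δ)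
    exact ((hs (γ * δ)).sub (hcomp.add (hs δ))).differentiable (by simp)
  set c : ℝ := h (γ * δ) p - (h γ (δ • p) + h δ p) with hc
  have hconst : ∀ x, h (γ * δ) x = (h γ (δ • x) + h δ x) + c := by
    intro x
    have e1 := is_const_of_fderiv_eq_zero hdiff hsub x p
    rw [← hc] at e1
    linarith
  have hc0 : c = 0 := by
    have e1 := hhm (γ * δ) p.2
    have e2 : mean (h (γ * δ)) p.2 = mean (fun x => (h γ (δ • x) + h δ x) + c) p.2 := by
      congr 1
      funext x
      exact hconst x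
    have hc1 : Continuous fun x : V k b => h γ (δ • x) :=
      (hs γ).continuous.comp (hE.smooth δ).continuous
    have hc2 : Continuous fun x : V k b => h γ (δ • x) + h δ x := hc1.add (hs δ).continuous
    have e3 := mean_add_fun (fun x : V k b => h γ (δ • x) + h δ x) (fun _ => c) hc2
      continuous_const p.2
    have e4 := mean_add_fun (fun x : V k b => h γ (δ • x)) (h δ) hc1 (hs δ).continuous p.2
    have e5 := mean_smul X hE hG (h γ) (hs γ).continuous (hhL γ) δ p.2
    have e6 : mean (fun _ : V k b => c) p.2 = c := mean_const c p.2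
    have e7 := hhm γ (X.π δ • p.2)
    have e8 := hhm δ p.2
    linarith
  rw [hconst p, hc0, add_zero]

end NilBundle

end Pool.Agent.W_9986fc_h24
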