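import Pool.Agent.W_9986fc_h24.Stk
import Pool.Agent.W_9986fc_h15.PrimB

/-!
Forms invariant up to a cocycle.
-/

set_option autoImplicit false
set_option maxSynthPendingDepth 3

open scoped ContDiff
open Pool.Agent.W_9986fc_h15 MeasureTheory

namespace Pool.Agent.W_9986fc_h24

/-- A general fact about covers: a 1-form which is invariant up to the differentials of a cocycle
becomes invariant after adding the differential of the function `H p = ∑ᶠ γ : Γ, χ (γ • p) * h γ p`, where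
`χ` is a partition of unity: `H (δ • p) = H p - h δ p` (`finsum_mul_right`, `CSup.contDiff`). -/
theorem exists_invariant {E : Type*} [NormedAddCommGroup E] [NormedSpace ℝ E]
    [FiniteDimensional ℝ E] {Γ : Type*} [Group Γ] [MulAction Γ E] (hE : IsCover E Γ)
    (η₀ : E → E →L[ℝ] ℝ) (h0 : ContDiff ℝ ∞ η₀) (h : Γ → E → ℝ) (hs : ∀ γ, ContDiff ℝ ∞ (h γ))
    (h1 : ∀ (γ : Γ) p, pull1 (fun x : E => γ • x) η₀ p = η₀ p + fderiv ℝ (h γ) p)
    (h2 : ∀ (γ δ : Γ) p, h (γ * δ) p = h γ (δ • p) + h δ p) :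
    ∃ η : E → E →L[ℝ] ℝ, Form1 Γ η ∧ ∀ p, d1 η p = d1 η₀ p := by
  obtain ⟨χ, hχ, -⟩ := exists_part hE
  set F : Γ → E → ℝ := fun γ p => χ (γ • p) * h γ p with hF
  have hFc : CSup Γ (fun z : E => z) F := csup_of_cutoff hχ.compact (fun g y hy => by
    rw [hF]
    simp only
    rw [hy, zero_mul])
  have hFs : ∀ γ, ContDiff ℝ ∞ (F γ) := fun γ => (hχ.smooth.comp (hE.smooth γ)).mul (hs γ)
  set H : E → ℝ := fun p => ∑ᶠ γ, F γ p with hH
  have hHs : ContDiff ℝ ∞ H := CSup.contDiff hE continuous_id' hFc hFs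
  have hHd : ContDiff ℝ ∞ (fderiv ℝ H) := (contDiff_infty_iff_fderiv.1 hHs).2
  have hχc := GSum_aux1 (Γ := Γ) hχ.compact
  have hinv : ∀ (δ : Γ) p, H (δ • p) = H p - h δ p := by
    intro δ p
    have e1 : H (δ • p) = ∑ᶠ γ : Γ, χ ((γ * δ) • p) * (h (γ * δ) p - h δ p) := by
      rw [hH]
      simp only [hF]
      refine finsum_congr fun γ => ?_
      rw [h2, mul_smul]
      ring
    have e2 : ∑ᶠ γ : Γ, χ ((γ * δ) • p) * (h (γ * δ) p - h δ p) =
        ∑ᶠ γ : Γ, χ (γ • p) * (h γ p - h δ p) :=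
      finsum_mul_right (fun γ : Γ => χ (γ • p) * (h γ p - h δ p)) δ
    have e3 : ∑ᶠ γ : Γ, χ (γ • p) * (h γ p - h δ p) =
        (∑ᶠ γ : Γ, χ (γ • p) * h γ p) - ∑ᶠ γ : Γ, χ (γ • p) * h δ p := by
      rw [← finsum_sub_distrib]
      · refine finsum_congr fun γ => ?_
        ring
      · exact hFc.finite hE p
      · refine (hχc.finite hE p).subset fun γ hγ => ?_
        exact left_ne_zero_of_mul hγ
    have e4 : ∑ᶠ γ : Γ, χ (γ • p) * h δ p = h δ p := by
      rw [← finsum_mul' (fun γ : Γ => χ (γ • p)) _ (hχc.finite hE p), hχ.sum, one_mul]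
    rw [e1, e2, e3, e4]
  refine ⟨fun p => η₀ p + fderiv ℝ H p, ⟨h0.add hHd, fun δ p => ?_⟩, fun p => ?_⟩
  · have e1 : pull1 (fun x : E => δ • x) (fun p => η₀ p + fderiv ℝ H p) p =
        pull1 (fun x : E => δ • x) η₀ p + pull1 (fun x : E => δ • x) (fderiv ℝ H) p :=
      pull1_add _ _ _ _
    rw [e1, h1, pull1_fderiv (hE.smooth δ) hHs]
    have e2 : (fun x => H (δ • x)) = fun x => H x - h δ x := funext (hinv δ)
    rw [e2, fderiv_fun_sub (hHs.differentiable (by simp) p) ((hs δ).differentiable (by simp) p)]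
    abel
  · rw [d1_add h0 hHd, d1_fderiv hHs, add_zero]

end Pool.Agent.W_9986fc_h24
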