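import Pool.Agent.W_9986fc_h24.Nil.EquiA
import Pool.Agent.W_9986fc_h24.Nil.EquiB
import Pool.Agent.W_9986fc_h24.Nil.EquiC

/-!
Every closed invariant form is cohomologous to its mean over the fibres.
-/

set_option autoImplicit false
set_option maxSynthPendingDepth 3

open scoped ContDiff
open Pool.Agent.W_9986fc_h15 MeasureTheory

namespace Pool.Agent.W_9986fc_h24

namespace NilBundle

variable {k b : ℕ} {N : NilLaw k} {Γ G : Type} [Group Γ] [Group G]
    [MulAction Γ (V k b)] [MulAction G (R b)] (X : NilBundle N b Γ G)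

include X in
/-- Every closed invariant form is its mean plus the differential of an invariant form. -/
theorem exists_mean_inv (hE : IsCover (V k b) Γ) (hG : IsCover (R b) G)
    {α : V k b → V k b →L[ℝ] V k b →L[ℝ] ℝ} (hα : Form2 Γ α) (hc : Closed α) :
    ∃ (α₀ : V k b → V k b →L[ℝ] V k b →L[ℝ] ℝ) (η : V k b → V k b →L[ℝ] ℝ),
      Form2 Γ α₀ ∧ Closed α₀ ∧ Form1 Γ η ∧ (∀ p, N.hat2 α₀ p = mean (N.hat2 α) p.2) ∧
      ∀ p, α p = α₀ p + d1 η p := by
  obtain ⟨α₀, η₀, h1, h2, h3, h4, h5, h6, h7⟩ := exists_mean_form_nil X hE hG hα hc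
  have hi : ∀ (γ : Γ) p, pull2 (fun x : V k b => γ • x) (d1 η₀) p = d1 η₀ p := by
    intro γ p
    have e : ∀ q, d1 η₀ q = α q - α₀ q := fun q => by rw [h7 q]; abel
    refine ContinuousLinearMap.ext fun u => ContinuousLinearMap.ext fun v => ?_
    have a1 := congrArg (fun B => B u v) (hα.invariant γ p)
    have a2 := congrArg (fun B => B u v) (h1.invariant γ p)
    simp only [pull2, ContinuousLinearMap.bilinearComp_apply] at a1 a2
    simp only [pull2, ContinuousLinearMap.bilinearComp_apply, e]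
    simp only [_root_.sub_apply]
    rw [a1, a2]
  obtain ⟨h, g1, g2, g3⟩ := exists_cocycle_nil X hE hG η₀ h3 h4 h5 hi
  obtain ⟨η, e1, e2⟩ := exists_invariant hE η₀ h3 h g1 g2 g3
  exact ⟨α₀, η, h1, h2, e1, h6, fun p => by rw [e2 p, h7 p]⟩

end NilBundle

end Pool.Agent.W_9986fc_h24
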