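import Pool.Agent.W_9986fc_h24.Nil.Prim2
import Pool.Agent.W_9986fc_h24.Nil.ActB
import Pool.Agent.W_9986fc_h24.Stk

/-!
The form with the mean coefficients.
-/

set_option autoImplicit false
set_option maxSynthPendingDepth 3

open scoped ContDiff
open Pool.Agent.W_9986fc_h15 MeasureTheory

namespace Pool.Agent.W_9986fc_h24

/-- Values of the mean of a family of bilinear forms. -/
theorem EquiA_mean_apply {k b : ℕ} (F : V k b → V k b →L[ℝ] V k b →L[ℝ] ℝ) (hF : Continuous F)
    (z : R b) (u v : V k b) : mean F z u v = mean (fun p => F p u v) z := by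
  have h := mean_clm (fun _ : R b => (ContinuousLinearMap.apply ℝ ℝ v).comp
    (ContinuousLinearMap.apply ℝ (V k b →L[ℝ] ℝ) u)) F hF z
  exact h.symm

theorem EquiA_closed_sub {E : Type*} [NormedAddCommGroup E] [NormedSpace ℝ E]
    {a c : E → E →L[ℝ] E →L[ℝ] ℝ} (ha : ContDiff ℝ ∞ a) (hc : ContDiff ℝ ∞ c)
    (ha' : Closed a) (hc' : Closed c) : Closed (fun x => a x - c x) := by
  intro x u v w
  have h1 : fderiv ℝ (fun x => a x - c x) x = fderiv ℝ a x - fderiv ℝ c x := by
    apply fderiv_fun_sub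
    · exact (ha.differentiable (by simp)) x
    · exact (hc.differentiable (by simp)) x
  rw [h1]
  have h2 := ha' x u v w
  have h3 := hc' x u v w
  simp only [_root_.sub_apply]
  linarith

namespace NilBundle

variable {k b : ℕ} {N : NilLaw k} {Γ G : Type} [Group Γ] [Group G]
    [MulAction Γ (V k b)] [MulAction G (R b)] (X : NilBundle N b Γ G)

include X in
/-- The mean of the coefficients of an invariant 2-form is equivariant: the coefficients satisfy
`hat2 α p = (hat2 α (γ • p)) (Th, Th)` (`hat2_pull2` and invariance), where `Th` depends only on `z`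
(`Th_eq`); take means and use `mean_smul` and `mean_clm`. -/
theorem mean_hat2 (hE : IsCover (V k b) Γ) (hG : IsCover (R b) G)
    {α : V k b → V k b →L[ℝ] V k b →L[ℝ] ℝ} (hα : Form2 Γ α) (γ : Γ) (z : R b) :
    (mean (N.hat2 α) (X.π γ • z)).bilinearComp (Th N γ ((0, z) : V k b))
      (Th N γ ((0, z) : V k b)) = mean (N.hat2 α) z := by
  have hsm : Continuous (N.hat2 α) := (N.contDiff_hat2 hα.smooth).continuous
  have hsm' : Continuous (fun p : V k b => N.hat2 α (γ • p)) :=
    hsm.comp (hE.smooth γ).continuous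
  refine ContinuousLinearMap.ext fun u => ContinuousLinearMap.ext fun v => ?_
  rw [ContinuousLinearMap.bilinearComp_apply,
    ← mean_smul X hE hG (N.hat2 α) hsm (lam_hat2 X hE hα) γ z,
    EquiA_mean_apply _ hsm', EquiA_mean_apply _ hsm]
  unfold mean
  congr 1
  funext x
  have hp : pull2 (fun x : V k b => γ • x) α = α := funext (hα.invariant γ)
  have h1 := hat2_pull2 (N := N) α γ ((x, z) : V k b)
  rw [hp, Th_eq X hE γ ((x, z) : V k b)] at h1
  show N.hat2 α (γ • ((x, z) : V k b)) (Th N γ ((0, z) : V k b) u) (Th N γ ((0, z) : V k b) v) =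
    N.hat2 α ((x, z) : V k b) u v
  rw [h1]
  rfl

include X in
/-- The form with the mean coefficients. Let `ξ = hat2 α`, `η'` as in `exists_prim2`, `η₀` with
`hat1 η₀ = η'` (`exists_unhat1`) and `α₀ = α - d1 η₀`; then `hat2 α₀ p = mean ξ p.2` by `hat2_d1`.
`α₀` is closed, and it is invariant by `mean_hat2` and `hat2_injective`. -/
theorem exists_mean_form_nil (hE : IsCover (V k b) Γ) (hG : IsCover (R b) G)
    {α : V k b → V k b →L[ℝ] V k b →L[ℝ] ℝ} (hα : Form2 Γ α) (hc : Closed α) :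
    ∃ (α₀ : V k b → V k b →L[ℝ] V k b →L[ℝ] ℝ) (η₀ : V k b → V k b →L[ℝ] ℝ),
      Form2 Γ α₀ ∧ Closed α₀ ∧ ContDiff ℝ ∞ η₀ ∧ N.Lam (N.hat1 η₀) ∧
      (∀ z, mean (N.hat1 η₀) z = 0) ∧ (∀ p, N.hat2 α₀ p = mean (N.hat2 α) p.2) ∧
      ∀ p, α p = α₀ p + d1 η₀ p := by
  have hξ : IsForm (N.hat2 α) := ⟨N.contDiff_hat2 hα.smooth, fun p u => hα.alt p _⟩
  obtain ⟨η', h1, h2, h3, h4⟩ := N.exists_prim2 (N.hat2 α) hξ (lam_hat2 X hE hα)
    (N.hcl2_hat2 α hα.toIsForm hc)
  obtain ⟨η₀, g1, g2⟩ := N.exists_unhat1 η' h1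
  have hd := isForm_d1 g1
  have hhat : ∀ p, N.hat2 (fun p => α p - d1 η₀ p) p = mean (N.hat2 α) p.2 := by
    intro p
    have e1 : N.hat2 (fun p => α p - d1 η₀ p) p = N.hat2 α p - N.hat2 (d1 η₀) p := by
      refine ContinuousLinearMap.ext fun u => ContinuousLinearMap.ext fun v => ?_
      simp only [NilLaw.hat2_apply, _root_.sub_apply]
    rw [e1, N.hat2_d1 η₀ g1, g2, h4 p, add_sub_cancel_right]
  refine ⟨fun p => α p - d1 η₀ p, η₀, ?_, ?_, g1, ?_, ?_, hhat, ?_⟩
  · refine { smooth := hα.smooth.sub hd.smooth, alt := ?_, invariant := ?_ }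
    · intro x u
      simp only [_root_.sub_apply]
      rw [hα.alt, hd.alt, sub_zero]
    · intro γ x
      have key : pull2 (fun x : V k b => γ • x) (fun p => α p - d1 η₀ p) =
          fun p => α p - d1 η₀ p := by
        refine N.hat2_injective _ _ (funext fun p => ?_)
        rw [hat2_pull2, hhat, hhat, Th_eq X hE γ p, smul_snd X γ p]
        exact mean_hat2 X hE hG hα γ p.2
      rw [key]
  · exact EquiA_closed_sub hα.smooth hd.smooth hc (closed_d1 g1)
  · rw [g2]
    exact h2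
  · rw [g2]
    exact h3
  · intro p
    rw [sub_add_cancel]

end NilBundle

end Pool.Agent.W_9986fc_h24
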