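import Pool.Agent.W_9986fc_h24.Nil.LawQ
import Pool.Agent.W_9986fc_h24.Nil.LawB
import Pool.Agent.W_9986fc_h15.PrimB
import Pool.Agent.W_9986fc_h15.StructA

/-!
Forms and their coefficients in the frame.
-/

set_option autoImplicit false
set_option maxSynthPendingDepth 3

open scoped ContDiff
open Pool.Agent.W_9986fc_h15

namespace Pool.Agent.W_9986fc_h24

/-- smoothness of the pullback of a bilinear form -/
theorem HatA_bil {X : Type*} [NormedAddCommGroup X] [NormedSpace ℝ X]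
    {E : Type*} [NormedAddCommGroup E] [NormedSpace ℝ E]
    {α : X → E →L[ℝ] E →L[ℝ] ℝ} {P : X → E →L[ℝ] E} (hα : ContDiff ℝ ∞ α)
    (hP : ContDiff ℝ ∞ P) : ContDiff ℝ ∞ (fun p => (α p).bilinearComp (P p) (P p)) := by
  have h1 : ContDiff ℝ ∞ fun p => ((α p).comp (P p)).flip :=
    (ContinuousLinearMap.flipₗᵢ ℝ E E ℝ).contDiff.comp (hα.clm_comp hP)
  exact (ContinuousLinearMap.flipₗᵢ ℝ E E ℝ).contDiff.comp (h1.clm_comp hP)

namespace NilLaw

variable {k b : ℕ} (N : NilLaw k)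

theorem hd1_apply (η : V k b → V k b →L[ℝ] ℝ) (p u v : V k b) :
    N.hd1 η p u v = N.D η p u v - N.D η p v u - η p (N.brV u v) := rfl

theorem hat1_apply (η : V k b → V k b →L[ℝ] ℝ) (p u : V k b) :
    N.hat1 η p u = η p (N.Q p u) := rfl

theorem hat2_apply (α : V k b → V k b →L[ℝ] V k b →L[ℝ] ℝ) (p u v : V k b) :
    N.hat2 α p u v = α p (N.Q p u) (N.Q p v) := rfl

theorem contDiff_hat1 {η : V k b → V k b →L[ℝ] ℝ} (hη : ContDiff ℝ ∞ η) :
    ContDiff ℝ ∞ (N.hat1 η) :=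
  hη.clm_comp N.contDiff_Q

theorem contDiff_hat2 {α : V k b → V k b →L[ℝ] V k b →L[ℝ] ℝ} (hα : ContDiff ℝ ∞ α) :
    ContDiff ℝ ∞ (N.hat2 α) :=
  HatA_bil hα N.contDiff_Q

theorem HatA_inv1 (p u : V k b) : (N.Q p).inverse (N.Q p u) = u := by
  have h := congrArg (fun T : V k b →L[ℝ] V k b => T u) (N.inverse_Q p).1
  exact h

theorem HatA_inv2 (p u : V k b) : N.Q p ((N.Q p).inverse u) = u := by
  have h := congrArg (fun T : V k b →L[ℝ] V k b => T u) (N.inverse_Q p).2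
  exact h

/-- Every family of coefficients is the family of coefficients of a form:
`η p = η' p ∘ (Q p)⁻¹`. -/
theorem exists_unhat1 (η' : V k b → V k b →L[ℝ] ℝ) (h : ContDiff ℝ ∞ η') :
    ∃ η : V k b → V k b →L[ℝ] ℝ, ContDiff ℝ ∞ η ∧ N.hat1 η = η' := by
  refine ⟨fun p => (η' p).comp (N.Q p).inverse, h.clm_comp N.contDiff_inverse_Q, ?_⟩
  funext p
  refine ContinuousLinearMap.ext fun u => ?_
  rw [hat1_apply]
  show η' p ((N.Q p).inverse (N.Q p u)) = η' p u
  rw [HatA_inv1]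

theorem exists_unhat2 (α' : V k b → V k b →L[ℝ] V k b →L[ℝ] ℝ) (h : ContDiff ℝ ∞ α') :
    ∃ α : V k b → V k b →L[ℝ] V k b →L[ℝ] ℝ, ContDiff ℝ ∞ α ∧ N.hat2 α = α' := by
  refine ⟨fun p => (α' p).bilinearComp (N.Q p).inverse (N.Q p).inverse,
    HatA_bil h N.contDiff_inverse_Q, ?_⟩
  funext p
  refine ContinuousLinearMap.ext fun u => ContinuousLinearMap.ext fun v => ?_
  rw [hat2_apply]
  show α' p ((N.Q p).inverse (N.Q p u)) ((N.Q p).inverse (N.Q p v)) = α' p u v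
  rw [HatA_inv1, HatA_inv1]

theorem hat1_injective (η η' : V k b → V k b →L[ℝ] ℝ) (h : N.hat1 η = N.hat1 η') : η = η' := by
  funext p
  refine ContinuousLinearMap.ext fun u => ?_
  have h1 := congrArg (fun F : V k b → V k b →L[ℝ] ℝ => F p ((N.Q p).inverse u)) h
  simp only [hat1_apply, HatA_inv2] at h1
  exact h1

theorem hat2_injective (α α' : V k b → V k b →L[ℝ] V k b →L[ℝ] ℝ) (h : N.hat2 α = N.hat2 α') :
    α = α' := by
  funext p
  refine ContinuousLinearMap.ext fun u => ContinuousLinearMap.ext fun v => ?_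
  have h1 := congrArg (fun F : V k b → V k b →L[ℝ] V k b →L[ℝ] ℝ =>
    F p ((N.Q p).inverse u) ((N.Q p).inverse v)) h
  simp only [hat2_apply, HatA_inv2] at h1
  exact h1

end NilLaw

end Pool.Agent.W_9986fc_h24
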