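import Pool.Agent.W_9986fc_h24.Nil.HatA
import Pool.Agent.W_9986fc_h15.Phi

/-!
Exterior derivatives in terms of coefficients.
-/

set_option autoImplicit false
set_option maxSynthPendingDepth 3

open scoped ContDiff
open Pool.Agent.W_9986fc_h15

namespace Pool.Agent.W_9986fc_h24

namespace NilLaw

variable {k b : ℕ} (N : NilLaw k)

theorem HatB_hasFDerivAt_Q (p : V k b) :
    HasFDerivAt (N.Q : V k b → V k b →L[ℝ] V k b) (fderiv ℝ N.Q p) p :=
  ((N.contDiff_Q.differentiable (by simp)) p).hasFDerivAt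

theorem HatB_hasFDerivAt_Qv (p v : V k b) :
    HasFDerivAt (fun p : V k b => N.Q p v) ((fderiv ℝ N.Q p).flip v) p := by
  have h := (N.HatB_hasFDerivAt_Q p).clm_apply (hasFDerivAt_const v p)
  have e : (N.Q p).comp (0 : V k b →L[ℝ] V k b) + (fderiv ℝ N.Q p).flip v =
      (fderiv ℝ N.Q p).flip v := by
    simp
  rw [e] at h
  exact h

theorem HatB_fderiv_Q (p z v : V k b) :
    fderiv ℝ N.Q p z v = ((fderiv ℝ N.q p.1 z.1 v.1, 0) : V k b) := by
  have h1 := N.HatB_hasFDerivAt_Qv p v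
  have hq : HasFDerivAt N.q (fderiv ℝ N.q p.1) p.1 :=
    ((N.contDiff_q.differentiable (by simp)) p.1).hasFDerivAt
  have h2 : HasFDerivAt (fun x : R k => N.q x v.1) ((fderiv ℝ N.q p.1).flip v.1) p.1 := by
    have h := hq.clm_apply (hasFDerivAt_const v.1 p.1)
    have e : (N.q p.1).comp (0 : R k →L[ℝ] R k) + (fderiv ℝ N.q p.1).flip v.1 =
        (fderiv ℝ N.q p.1).flip v.1 := by
      simp
    rw [e] at h
    exact h
  have h3 : HasFDerivAt (fun p : V k b => N.q p.1 v.1)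
      (((fderiv ℝ N.q p.1).flip v.1).comp (ContinuousLinearMap.fst ℝ (R k) (R b))) p :=
    HasFDerivAt.comp (g := fun x : R k => N.q x v.1) (f := fun p : V k b => p.1) p h2
      hasFDerivAt_fst
  have h4 := h3.prodMk (hasFDerivAt_const v.2 p)
  have h5 : (fun p : V k b => N.Q p v) = fun p : V k b => (N.q p.1 v.1, v.2) := by
    funext p
    exact N.Q_apply p v
  rw [h5] at h1
  have h6 := congrArg (fun L : V k b →L[ℝ] V k b => L z) (h1.unique h4)
  exact h6

theorem HatB_structure (p u v : V k b) :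
    fderiv ℝ N.Q p (N.Q p u) v - fderiv ℝ N.Q p (N.Q p v) u = N.Q p (N.brV u v) := by
  rw [HatB_fderiv_Q, HatB_fderiv_Q, Q_apply N p (N.brV u v), brV_apply]
  have h := N.structure_eq p.1 u.1 v.1
  rw [← h]
  refine Prod.ext ?_ ?_
  · rfl
  · simp

theorem HatB_fderiv_hat1 {η : V k b → V k b →L[ℝ] ℝ} (hη : ContDiff ℝ ∞ η) (p z v : V k b) :
    fderiv ℝ (N.hat1 η) p z v = fderiv ℝ η p z (N.Q p v) + η p (fderiv ℝ N.Q p z v) := by
  have h1 : HasFDerivAt η (fderiv ℝ η p) p := ((hη.differentiable (by simp)) p).hasFDerivAt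
  have h2 := h1.clm_apply (N.HatB_hasFDerivAt_Qv p v)
  have h3 : HasFDerivAt (N.hat1 η) (fderiv ℝ (N.hat1 η) p) p :=
    (((N.contDiff_hat1 hη).differentiable (by simp)) p).hasFDerivAt
  have h4 := h3.clm_apply (hasFDerivAt_const v p)
  have h5 := congrArg (fun L : V k b →L[ℝ] ℝ => L z) (h4.unique h2)
  simp only [_root_.add_apply, ContinuousLinearMap.comp_apply, ContinuousLinearMap.flip_apply,
    _root_.zero_apply, map_zero, zero_add] at h5
  rw [h5]
  ring

theorem HatB_fderiv_hat2 {α : V k b → V k b →L[ℝ] V k b →L[ℝ] ℝ} (hα : ContDiff ℝ ∞ α)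
    (p z v w : V k b) :
    fderiv ℝ (N.hat2 α) p z v w = fderiv ℝ α p z (N.Q p v) (N.Q p w) +
      α p (fderiv ℝ N.Q p z v) (N.Q p w) + α p (N.Q p v) (fderiv ℝ N.Q p z w) := by
  have h1 : HasFDerivAt α (fderiv ℝ α p) p := ((hα.differentiable (by simp)) p).hasFDerivAt
  have h2 := (h1.clm_apply (N.HatB_hasFDerivAt_Qv p v)).clm_apply (N.HatB_hasFDerivAt_Qv p w)
  have h3 : HasFDerivAt (N.hat2 α) (fderiv ℝ (N.hat2 α) p) p :=
    (((N.contDiff_hat2 hα).differentiable (by simp)) p).hasFDerivAt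
  have h4 := (h3.clm_apply (hasFDerivAt_const v p)).clm_apply (hasFDerivAt_const w p)
  have h5 := congrArg (fun L : V k b →L[ℝ] ℝ => L z) (h4.unique h2)
  simp only [_root_.add_apply, ContinuousLinearMap.comp_apply, ContinuousLinearMap.flip_apply,
    _root_.zero_apply, map_zero, zero_add] at h5
  rw [h5]
  ring

theorem HatB_D_apply {H : Type*} [NormedAddCommGroup H] [NormedSpace ℝ H] (F : V k b → H)
    (p u : V k b) : N.D F p u = fderiv ℝ F p (N.Q p u) := rfl

/-- The coefficients of `d1 η`. With `D_u F (p) = fderiv F p (Q p u)`: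
`D_u (hat η) v - D_v (hat η) u = d1 η (Q u) (Q v) + η ((D Q (Q u)) v - (D Q (Q v)) u)`, and the last
argument is `Q [u, v]` by `structure_eq` (the component in `ℝ^b` is zero). -/
theorem hat2_d1 (η : V k b → V k b →L[ℝ] ℝ) (hη : ContDiff ℝ ∞ η) :
    N.hat2 (d1 η) = N.hd1 (N.hat1 η) := by
  funext p
  refine ContinuousLinearMap.ext fun u => ContinuousLinearMap.ext fun v => ?_
  rw [hat2_apply, hd1_apply, HatB_D_apply, HatB_D_apply, N.HatB_fderiv_hat1 hη,
    N.HatB_fderiv_hat1 hη, hat1_apply, ← N.HatB_structure, map_sub]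
  simp only [d1, _root_.sub_apply, ContinuousLinearMap.flip_apply]
  ring

/-- The coefficients of a closed form are closed: differentiate
`hat α p v w = α p (Q p v) (Q p w)` in the direction `Q p u`, take the cyclic sum, and use `Closed α`
for the vectors `Q p u, Q p v, Q p w`, the alternation of `α p` and `structure_eq`. -/
theorem hcl2_hat2 (α : V k b → V k b →L[ℝ] V k b →L[ℝ] ℝ) (hα : IsForm α) (hc : Closed α) :
    N.HCl2 (N.hat2 α) := by
  have hanti : ∀ p u v, α p u v = - α p v u := by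
    intro p u v
    have h := hα.alt p (u + v)
    have h1 := hα.alt p u
    have h2 := hα.alt p v
    simp only [map_add, _root_.add_apply] at h
    linarith
  intro p u v w
  rw [HatB_D_apply, HatB_D_apply, HatB_D_apply, N.HatB_fderiv_hat2 hα.smooth,
    N.HatB_fderiv_hat2 hα.smooth, N.HatB_fderiv_hat2 hα.smooth, hat2_apply, hat2_apply, hat2_apply,
    ← N.HatB_structure, ← N.HatB_structure, ← N.HatB_structure]
  have hcl := hc p (N.Q p u) (N.Q p v) (N.Q p w)
  simp only [map_sub, _root_.sub_apply]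
  rw [hanti p (N.Q p v) (fderiv ℝ N.Q p (N.Q p u) w),
    hanti p (N.Q p w) (fderiv ℝ N.Q p (N.Q p v) u),
    hanti p (N.Q p u) (fderiv ℝ N.Q p (N.Q p w) v)]
  linarith

/-- `d ∘ d = 0` for coefficients: by `exists_unhat1`, `hat2_d1`, `closed_d1`, `isForm_d1` (Phi of
helper15) and `hcl2_hat2`. -/
theorem hcl2_hd1 (η' : V k b → V k b →L[ℝ] ℝ) (h : ContDiff ℝ ∞ η') : N.HCl2 (N.hd1 η') := by
  obtain ⟨η, hη, rfl⟩ := N.exists_unhat1 η' h
  rw [← N.hat2_d1 η hη]
  exact N.hcl2_hat2 _ (isForm_d1 hη) (closed_d1 hη)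

theorem contDiff_hd1 (η' : V k b → V k b →L[ℝ] ℝ) (h : ContDiff ℝ ∞ η') :
    ContDiff ℝ ∞ (N.hd1 η') := by
  obtain ⟨η, hη, rfl⟩ := N.exists_unhat1 η' h
  rw [← N.hat2_d1 η hη]
  exact N.contDiff_hat2 (isForm_d1 hη).smooth

/-- Closedness is linear. -/
theorem HCl2.sub {ξ ξ' : V k b → V k b →L[ℝ] V k b →L[ℝ] ℝ} (hξ : ContDiff ℝ ∞ ξ)
    (hξ' : ContDiff ℝ ∞ ξ') (h : N.HCl2 ξ) (h' : N.HCl2 ξ') : N.HCl2 (fun p => ξ p - ξ' p) := by
  intro p u v w
  have h1 : fderiv ℝ (fun p => ξ p - ξ' p) p = fderiv ℝ ξ p - fderiv ℝ ξ' p :=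
    fderiv_fun_sub ((hξ.differentiable (by simp)) p) ((hξ'.differentiable (by simp)) p)
  have h2 := h p u v w
  have h3 := h' p u v w
  simp only [HatB_D_apply] at h2 h3 ⊢
  rw [h1]
  simp only [_root_.sub_apply]
  linarith

/-- The derivatives along the frame: `D_u D_v F - D_v D_u F = D_[u,v] F`. -/
theorem D_comm {H : Type*} [NormedAddCommGroup H] [NormedSpace ℝ H] (F : V k b → H)
    (hF : ContDiff ℝ ∞ F) (p u v : V k b) :
    N.D (fun p => N.D F p v) p u - N.D (fun p => N.D F p u) p v = N.D F p (N.brV u v) := by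
  have hF2 : HasFDerivAt (fderiv ℝ F) (fderiv ℝ (fderiv ℝ F) p) p :=
    (((hF.fderiv_right (m := ∞) (by simp)).differentiable (by simp)) p).hasFDerivAt
  have key : ∀ u v : V k b, N.D (fun p => N.D F p v) p u =
      fderiv ℝ F p (fderiv ℝ N.Q p (N.Q p u) v) +
        fderiv ℝ (fderiv ℝ F) p (N.Q p u) (N.Q p v) := by
    intro u v
    have h1 := (hF2.clm_apply (N.HatB_hasFDerivAt_Qv p v)).fderiv
    rw [HatB_D_apply]
    have h2 : (fun p => N.D F p v) = fun p => fderiv ℝ F p (N.Q p v) := rfl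
    rw [h2, h1]
    simp
  rw [key u v, key v u, HatB_D_apply, ← N.HatB_structure, map_sub,
    fderiv_fderiv_symm hF p (N.Q p u) (N.Q p v)]
  abel

/-- `d1` is additive on coefficients. -/
theorem hd1_add (η η' : V k b → V k b →L[ℝ] ℝ) (h : ContDiff ℝ ∞ η) (h' : ContDiff ℝ ∞ η')
    (p : V k b) : N.hd1 (fun p => η p + η' p) p = N.hd1 η p + N.hd1 η' p := by
  have h1 : fderiv ℝ (fun p => η p + η' p) p = fderiv ℝ η p + fderiv ℝ η' p :=
    fderiv_fun_add ((h.differentiable (by simp)) p) ((h'.differentiable (by simp)) p)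
  refine ContinuousLinearMap.ext fun u => ContinuousLinearMap.ext fun v => ?_
  rw [hd1_apply, HatB_D_apply, HatB_D_apply, h1]
  simp only [_root_.add_apply]
  rw [hd1_apply, hd1_apply, HatB_D_apply, HatB_D_apply, HatB_D_apply, HatB_D_apply]
  ring

end NilLaw

end Pool.Agent.W_9986fc_h24
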