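import Pool.Agent.W_9986fc_h24.Nil.MForm
import Pool.Agent.W_9986fc_h15.StructB

/-!
The horizontal part of a form with nondegenerate fibre part. Compare StructB of helper15.
-/

set_option autoImplicit false
set_option maxSynthPendingDepth 3

open scoped ContDiff
open Pool.Agent.W_9986fc_h15

namespace Pool.Agent.W_9986fc_h24

variable {k b n mk mb : ℕ} {N : NilLaw k} {m : R b → V k b →L[ℝ] V k b →L[ℝ] ℝ}

/-- Antisymmetry of the form. -/
theorem HorA_swap (h : MForm N m) (z : R b) (u v : V k b) : m z u v = - m z v u := by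
  have h1 := h.alt z (u + v)
  simp only [map_add, _root_.add_apply, h.alt, zero_add, add_zero] at h1
  linarith

/-- The derivative of the values of the form. -/
theorem HorA_hasFDerivAt (h : MForm N m) (z : R b) (u v : V k b) :
    HasFDerivAt (fun z => m z u v)
      (((ContinuousLinearMap.apply ℝ ℝ v).comp
        (ContinuousLinearMap.apply ℝ (V k b →L[ℝ] ℝ) u)).comp (fderiv ℝ m z)) z :=
  ((ContinuousLinearMap.apply ℝ ℝ v).comp
    (ContinuousLinearMap.apply ℝ (V k b →L[ℝ] ℝ) u)).hasFDerivAt.comp z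
      ((h.smooth.differentiable (by simp)) z).hasFDerivAt

/-- The derivative of the form is antisymmetric. -/
theorem HorA_dswap (h : MForm N m) (z w : R b) (u v : V k b) :
    fderiv ℝ m z w u v = - fderiv ℝ m z w v u := by
  have h2 := HorA_hasFDerivAt h z u v
  have h3 := (HorA_hasFDerivAt h z v u).neg
  have h4 : (fun z => m z u v) = fun z => - m z v u := funext fun z => HorA_swap h z u v
  rw [h4] at h2
  have h6 := congrArg (fun T : R b →L[ℝ] ℝ => T w) (h2.unique h3)
  simpa using h6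

/-- The horizontal lift: the fibre part is nondegenerate, so there is a unique `σ z w` with
`cpart (m z) (σ z w) v = - m z (0, w) (v, 0)`; it is smooth in `z` by the smoothness of the inverse
(`contDiffAt_map_inverse`; compare `exists_lift`, StructB of helper15). -/
theorem exists_sigma (h : MForm N m) (hk : ∀ z, kerC (cpart (m z)) = ⊥) :
    ∃ σ : R b → R b →L[ℝ] R k, ContDiff ℝ ∞ σ ∧ ∀ z w v, m z (σ z w, w) (v, 0) = 0 := by
  have hC : ContDiff ℝ ∞ (fun z => cpart (m z)) := by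
    refine contDiff_clm_apply_iff.2 fun u => contDiff_clm_apply_iff.2 fun v => ?_
    simp only [cpart_apply]
    exact (h.smooth.clm_apply contDiff_const).clm_apply contDiff_const
  let β : R b → R b →L[ℝ] R k →L[ℝ] ℝ := fun z =>
    (m z).bilinearComp (ContinuousLinearMap.inr ℝ (R k) (R b))
      (ContinuousLinearMap.inl ℝ (R k) (R b))
  have hβ : ∀ z w v, β z w v = m z (0, w) (v, 0) := fun z w v => rfl
  have hβs : ContDiff ℝ ∞ β := by
    refine contDiff_clm_apply_iff.2 fun u => contDiff_clm_apply_iff.2 fun y => ?_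
    simp only [hβ]
    exact (h.smooth.clm_apply contDiff_const).clm_apply contDiff_const
  let σ : R b → R b →L[ℝ] R k := fun z =>
    -(((cpart (m z)).inverse : (R k →L[ℝ] ℝ) →L[ℝ] R k).comp (β z))
  have hinv : ContDiff ℝ ∞ (fun z => ((cpart (m z)).inverse : (R k →L[ℝ] ℝ) →L[ℝ] R k)) := by
    rw [contDiff_iff_contDiffAt]
    intro z
    obtain ⟨e, he⟩ := exists_dualEquiv (cpart (m z)) (hk z)
    have he' : (e : R k →L[ℝ] R k →L[ℝ] ℝ) = cpart (m z) := ContinuousLinearMap.ext he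
    have h1 := contDiffAt_map_inverse (n := ∞) (𝕜 := ℝ) e
    rw [he'] at h1
    exact h1.comp z hC.contDiffAt
  refine ⟨σ, (hinv.clm_comp hβs).neg, ?_⟩
  intro z w v
  obtain ⟨e, he⟩ := exists_dualEquiv (cpart (m z)) (hk z)
  have he' : (e : R k →L[ℝ] R k →L[ℝ] ℝ) = cpart (m z) := ContinuousLinearMap.ext he
  have h1 : σ z w = - e.symm (β z w) := by
    change -((cpart (m z)).inverse (β z w)) = _
    rw [← he', ContinuousLinearMap.inverse_equiv]
    rfl
  have h2 : cpart (m z) (σ z w) = - β z w := by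
    rw [← he, h1, map_neg, ContinuousLinearEquiv.apply_symm_apply]
  have h3 : ((σ z w, w) : V k b) = (σ z w, 0) + (0, w) := by simp
  have h4 : m z (σ z w, 0) (v, 0) = - m z (0, w) (v, 0) := by
    rw [← cpart_apply, h2, _root_.neg_apply, hβ]
  rw [h3, map_add, _root_.add_apply, h4, neg_add_cancel]

/-- The horizontal part: the form on the base `(w, w') ↦ m z (σ z w, w) (σ z w', w')`. -/
noncomputable def hor (m : R b → V k b →L[ℝ] V k b →L[ℝ] ℝ) (σ : R b → R b →L[ℝ] R k) (z : R b) :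
    R b →L[ℝ] R b →L[ℝ] ℝ :=
  (m z).bilinearComp ((σ z).prod (ContinuousLinearMap.id ℝ (R b)))
    ((σ z).prod (ContinuousLinearMap.id ℝ (R b)))

theorem hor_apply (m : R b → V k b →L[ℝ] V k b →L[ℝ] ℝ) (σ : R b → R b →L[ℝ] R k) (z w w' : R b) :
    hor m σ z w w' = m z (σ z w, w) (σ z w', w') := rfl

theorem isForm_hor (h : MForm N m) (σ : R b → R b →L[ℝ] R k) (hσ : ContDiff ℝ ∞ σ) :
    IsForm (hor m σ) := by
  refine ⟨?_, fun z u => h.alt _ _⟩
  refine contDiff_clm_apply_iff.2 fun u => contDiff_clm_apply_iff.2 fun v => ?_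
  simp only [hor_apply]
  have h1 : ∀ w : R b, ContDiff ℝ ∞ (fun z => ((σ z w, w) : V k b)) := fun w =>
    (hσ.clm_apply contDiff_const).prodMk contDiff_const
  exact (h.smooth.clm_apply (h1 u)).clm_apply (h1 v)

/-- The horizontal part is closed. Write `β w u = m z (u, 0) (0, w)`, `s_i = σ z w_i`, `∂_i` for the
derivative in the direction `w_i`. Since `m z (s_i, w_i) (v, 0) = 0` we have `c s_i v = β w_i v` up to
sign, and `hor (w_i, w_j) = m z (0, w_i) (0, w_j) - c s_i s_j`. Differentiating the relation that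
defines `σ`, `∂_1 (c s_2 s_3)` is, up to the common sign,
`(∂_1 β_2) s_3 - (∂_1 β_3) s_2 - (∂_1 c) s_2 s_3`. The cyclic sum of the first two terms vanishes by
`fderiv_mixed`; the cyclic sum of `(∂_1 c) s_2 s_3 = β_1 [s_2, s_3] = c s_1 [s_2, s_3]` (up to sign)
vanishes because `c` is closed (`fderiv_cpart`, `closedC`); and the horizontal part of `m` is closed
(`fderiv_hor`). -/
theorem closed_hor (h : MForm N m) (σ : R b → R b →L[ℝ] R k) (hσ : ContDiff ℝ ∞ σ)
    (h0 : ∀ z w v, m z (σ z w, w) (v, 0) = 0) : Closed (hor m σ) := by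
  have h0' : ∀ z w v, m z (v, 0) (σ z w, w) = 0 := by
    intro z w v
    rw [HorA_swap h, h0, neg_zero]
  have hd : ∀ z w₀ w₁ w₂, fderiv ℝ (hor m σ) z w₀ w₁ w₂ =
      fderiv ℝ m z w₀ (σ z w₁, w₁) (σ z w₂, w₂) := by
    intro z w₀ w₁ w₂
    have hA : HasFDerivAt m (fderiv ℝ m z) z :=
      ((h.smooth.differentiable (by simp)) z).hasFDerivAt
    have hds : HasFDerivAt σ (fderiv ℝ σ z) z := ((hσ.differentiable (by simp)) z).hasFDerivAt
    have hSd : ∀ v, HasFDerivAt (fun z => ((σ z v, v) : V k b))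
        (((ContinuousLinearMap.apply ℝ (R k) v).comp (fderiv ℝ σ z)).prod 0) z := by
      intro v
      have h1 := (ContinuousLinearMap.apply ℝ (R k) v).hasFDerivAt.comp z hds
      exact HasFDerivAt.prodMk h1 (hasFDerivAt_const v z)
    have h2 := (hA.clm_apply (hSd w₁)).clm_apply (hSd w₂)
    have hR : HasFDerivAt (fun z => hor m σ z w₁ w₂)
        (((ContinuousLinearMap.apply ℝ ℝ w₂).comp
          (ContinuousLinearMap.apply ℝ (R b →L[ℝ] ℝ) w₁)).comp (fderiv ℝ (hor m σ) z)) z := by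
      exact ((ContinuousLinearMap.apply ℝ ℝ w₂).comp
          (ContinuousLinearMap.apply ℝ (R b →L[ℝ] ℝ) w₁)).hasFDerivAt.comp z
          (((isForm_hor h σ hσ).smooth.differentiable (by simp)) z).hasFDerivAt
    have h3 := congrArg (fun T : R b →L[ℝ] ℝ => T w₀) (hR.unique h2)
    have h8 : fderiv ℝ (hor m σ) z w₀ w₁ w₂ = m z (σ z w₁, w₁) (fderiv ℝ σ z w₀ w₂, 0) +
        (m z (fderiv ℝ σ z w₀ w₁, 0) (σ z w₂, w₂) +
          fderiv ℝ m z w₀ (σ z w₁, w₁) (σ z w₂, w₂)) := h3
    rw [h8, h0, h0', zero_add, zero_add]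
  have hsplit : ∀ z w₀ w₁ w₂ : R b, fderiv ℝ m z w₀ (σ z w₁, w₁) (σ z w₂, w₂) =
      - cpart (m z) (N.br (σ z w₁) (σ z w₂)) (σ z w₀) +
        (fderiv ℝ m z w₀ (σ z w₁, 0) (0, w₂) - fderiv ℝ m z w₀ (σ z w₂, 0) (0, w₁)) +
        fderiv ℝ m z w₀ (0, w₁) (0, w₂) := by
    intro z w₀ w₁ w₂
    have e1 : ∀ w : R b, ((σ z w, w) : V k b) = (σ z w, 0) + (0, w) := by intro w; simp
    have e2 : cpart (m z) (N.br (σ z w₁) (σ z w₂)) (σ z w₀) =
        - m z (N.br (σ z w₁) (σ z w₂), 0) (0, w₀) := by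
      have h5 := h0' z w₀ (N.br (σ z w₁) (σ z w₂))
      rw [e1 w₀, map_add] at h5
      rw [cpart_apply]
      linarith
    have e3 := MForm.fderiv_cpart h z w₀ (σ z w₁) (σ z w₂)
    have e4 := HorA_dswap h z w₀ (0, w₁) (σ z w₂, 0)
    rw [e1 w₁, e1 w₂]
    simp only [map_add, _root_.add_apply]
    rw [e2, e3, e4]
    ring
  intro z u v w
  rw [hd, hd, hd, hsplit z u v w, hsplit z v w u, hsplit z w u v]
  have c1 := (MForm.closedC h z).2 (σ z v) (σ z w) (σ z u)
  have c2 := MForm.fderiv_hor h z u v w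
  have c3 := MForm.fderiv_mixed h z u w (σ z v)
  have c4 := MForm.fderiv_mixed h z u v (σ z w)
  have c5 := MForm.fderiv_mixed h z v w (σ z u)
  linarith

/-- The top power: the shear `(v, w) ↦ (v + σ z w, w)` has determinant one (`det_unip` in StructB of
helper15 is the analogous statement) and transforms `m z + lift2 q` into
`lift1 (cpart (m z)) + lift2 (hor m σ z + q)`. -/
theorem top_hor (h : MForm N m) (σ : R b → R b →L[ℝ] R k)
    (h0 : ∀ z w v, m z (σ z w, w) (v, 0) = 0)
    (B : Module.Basis (Fin n × Fin 2) ℝ (V k b)) (Bk : Module.Basis (Fin mk × Fin 2) ℝ (R k))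
    (Bb : Module.Basis (Fin mb × Fin 2) ℝ (R b)) (K : ℝ)
    (hK : ∀ (q₁ : R k →L[ℝ] R k →L[ℝ] ℝ) (q₂ : R b →L[ℝ] R b →L[ℝ] ℝ),
      (∀ u, q₁ u u = 0) → (∀ u, q₂ u u = 0) →
      top B (lift1 q₁ + lift2 q₂) = K * top Bk q₁ * top Bb q₂)
    (z : R b) (q : R b →L[ℝ] R b →L[ℝ] ℝ) (hq : ∀ u, q u u = 0) :
    top B (m z + lift2 q) = K * top Bk (cpart (m z)) * top Bb (hor m σ z + q) := by
  have halt1 : ∀ u, cpart (m z) u u = 0 := fun u => by rw [cpart_apply, h.alt]
  have halt2 : ∀ u, (hor m σ z + q) u u = 0 := fun u => by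
    rw [_root_.add_apply, _root_.add_apply, hq, hor_apply, h.alt, add_zero]
  have h1 : m z + lift2 q =
      (lift1 (cpart (m z)) + lift2 (hor m σ z + q)).bilinearComp (unip (σ z)) (unip (σ z)) := by
    apply ContinuousLinearMap.ext
    intro X1
    apply ContinuousLinearMap.ext
    intro X2
    obtain ⟨y, u⟩ := X1
    obtain ⟨y', u'⟩ := X2
    rw [ContinuousLinearMap.bilinearComp_apply, unip_apply, unip_apply]
    simp only [_root_.add_apply, lift1_apply, lift2_apply]
    have h2 : ((y, u) : V k b) = (y - σ z u, 0) + (σ z u, u) := by simp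
    have h3 : ((y', u') : V k b) = (y' - σ z u', 0) + (σ z u', u') := by simp
    have h4 : ∀ (y : R k) (u : R b), m z (y, 0) (σ z u, u) = 0 := by
      intro y u
      rw [HorA_swap h, h0, neg_zero]
    have h5 : m z (y, u) (y', u') = cpart (m z) (y - σ z u) (y' - σ z u') +
        m z (σ z u, u) (σ z u', u') := by
      rw [h2, h3, cpart_apply]
      simp only [map_add, _root_.add_apply, h4, h0]
      ring
    rw [h5, hor_apply]
    ring
  rw [h1, top_bilinearComp, det_unip, one_mul, hK _ _ halt1 halt2]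

end Pool.Agent.W_9986fc_h24
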