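import Pool.Agent.W_9986fc_h24.Nil.NDefs

/-!
The group law: triangular form, inverses, the frame.
-/

set_option autoImplicit false
set_option maxSynthPendingDepth 3

open scoped ContDiff
open Pool.Agent.W_9986fc_h15

namespace Pool.Agent.W_9986fc_h24

namespace NilLaw

variable {k b : ℕ} (N : NilLaw k)

/-- If the coordinates `x i`, `i < j`, vanish, then `(x * y) j = x j + y j` (`tri` with `x' = 0`). -/
theorem mul_left_tri (j : Fin k) (x y : R k) (hx : ∀ i, i < j → x i = 0) :
    N.mul x y j = x j + y j := by
  have h := N.tri j x 0 y y (fun i hi => by rw [hx i hi]; rfl) (fun _ _ => rfl)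
  rw [N.zero_mul, Pi.zero_apply] at h
  linarith

theorem mul_right_tri (j : Fin k) (x y : R k) (hy : ∀ i, i < j → y i = 0) :
    N.mul x y j = x j + y j := by
  have h := N.tri j x x y 0 (fun _ _ => rfl) (fun i hi => by rw [hy i hi]; rfl)
  rw [N.mul_zero, Pi.zero_apply] at h
  linarith

/-- Equality of the coordinates up to `j`. -/
theorem mul_congr (j : Fin k) (x x' y y' : R k) (hx : ∀ i, i ≤ j → x i = x' i)
    (hy : ∀ i, i ≤ j → y i = y' i) : N.mul x y j = N.mul x' y' j := by
  have h := N.tri j x x' y y' (fun i hi => hx i hi.le) (fun i hi => hy i hi.le)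
  have h1 := hx j le_rfl
  have h2 := hy j le_rfl
  linarith

/-- Cancellation: if `x * y = x * y'` then `y = y'` (compare the coordinates successively). -/
theorem mul_left_cancel (x y y' : R k) (h : N.mul x y = N.mul x y') : y = y' := by
  funext j
  induction j using WellFoundedLT.induction with
  | ind j ih =>
    have h1 := N.tri j x x y y' (fun _ _ => rfl) ih
    have h2 := congrFun h j
    linarith

theorem mul_right_cancel (x x' y : R k) (h : N.mul x y = N.mul x' y) : x = x' := by
  funext j
  induction j using WellFoundedLT.induction with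
  | ind j ih =>
    have h1 := N.tri j x x' y y ih (fun _ _ => rfl)
    have h2 := congrFun h j
    linarith

/-- Right inverses exist: the equation `x * y = w` determines the coordinates of `y` successively.
(For instance: by induction on `n ≤ k` there is `y` such that the coordinates `j < n` of `x * y` and
`w` agree; change the coordinate `n` of `y`.) -/
theorem exists_mul_eq (x w : R k) : ∃ y, N.mul x y = w := by
  have key : ∀ n : ℕ, n ≤ k → ∃ y, ∀ j : Fin k, (j : ℕ) < n → N.mul x y j = w j := by
    intro n
    induction n with
    | zero => exact fun _ => ⟨0, fun j hj => absurd hj (Nat.not_lt_zero _)⟩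
    | succ n ih =>
      intro hn
      obtain ⟨y, hy⟩ := ih (Nat.le_of_succ_le hn)
      set j₀ : Fin k := ⟨n, hn⟩ with hj₀
      refine ⟨Function.update y j₀ (y j₀ + (w j₀ - N.mul x y j₀)), fun j hj => ?_⟩
      rcases Nat.lt_succ_iff_lt_or_eq.1 hj with h | h
      · rw [← hy j h]
        refine mul_congr N j _ _ _ _ (fun _ _ => rfl) fun i hi => ?_
        have hne : i ≠ j₀ := by
          intro he
          have h1 : (i : ℕ) ≤ (j : ℕ) := hi
          rw [he] at h1
          simp only [hj₀] at h1
          omega
        rw [Function.update_of_ne hne]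
      · have hjj : j = j₀ := Fin.ext h
        rw [hjj]
        have h1 := N.tri j₀ x x (Function.update y j₀ (y j₀ + (w j₀ - N.mul x y j₀))) y
          (fun _ _ => rfl) (fun i hi => by rw [Function.update_of_ne hi.ne])
        rw [Function.update_self] at h1
        linarith
  obtain ⟨y, hy⟩ := key k le_rfl
  exact ⟨y, funext fun j => hy j j.2⟩

/-- Inverses (a right inverse `y` of `x` has a right inverse `x'`, and `x' = x` by
associativity). -/
theorem exists_inv (x : R k) : ∃ y, N.mul x y = 0 ∧ N.mul y x = 0 := by
  obtain ⟨y, hy⟩ := exists_mul_eq N x 0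
  obtain ⟨x', hx'⟩ := exists_mul_eq N y 0
  have h1 : x = x' := by
    have h2 := N.assoc x y x'
    rw [hy, hx', N.zero_mul, N.mul_zero] at h2
    exact h2.symm
  exact ⟨y, hy, by rw [h1]; exact hx'⟩

/-- The inverse of a lattice element is a lattice element: if `intV n * y = 0` then the coordinates of
`y` are integers, successively: with `y i` integers for `i < j`, let `m` be the integer vector with
these coordinates and `0` otherwise; then
`y j = - n j - (mul (intV n) (intV m) j - n j - m j)`, an integer by `int`. -/
theorem exists_inv_int (n : Fin k → ℤ) :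
    ∃ l : Fin k → ℤ, N.mul (intV n) (intV l) = 0 ∧ N.mul (intV l) (intV n) = 0 := by
  obtain ⟨y, h1, h2⟩ := exists_inv N (intV n)
  have key : ∀ j : Fin k, ∃ z : ℤ, y j = (z : ℝ) := by
    intro j
    induction j using WellFoundedLT.induction with
    | ind j ih =>
      classical
      set m : Fin k → ℤ := fun i => if h : i < j then (ih i h).choose else 0 with hm
      obtain ⟨l, hl⟩ := N.int n m
      have h3 := N.tri j (intV n) (intV n) y (intV m) (fun _ _ => rfl) (fun i hi => by
        have h4 := (ih i hi).choose_spec
        rw [h4]
        simp [intV, hm, hi])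
      rw [h1, hl] at h3
      refine ⟨m j - l j, ?_⟩
      simp only [Pi.zero_apply, intV] at h3
      push_cast
      linarith
  choose l hl using key
  have h3 : y = intV l := funext hl
  rw [h3] at h1 h2
  exact ⟨l, h1, h2⟩

end NilLaw

end Pool.Agent.W_9986fc_h24
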