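import Pool.Agent.W_9986fc_h24.Nil.LawA

/-!
The frame.
-/

set_option autoImplicit false
set_option maxSynthPendingDepth 3

open scoped ContDiff
open Pool.Agent.W_9986fc_h15

namespace Pool.Agent.W_9986fc_h24

namespace NilLaw

variable {k b : ℕ} (N : NilLaw k)

theorem LawF_contDiff_mul (x : R k) : ContDiff ℝ ∞ (N.mul x) :=
  N.smooth.comp (contDiff_const.prodMk contDiff_id)

theorem LawF_differentiable_mul (x : R k) : Differentiable ℝ (N.mul x) :=
  (N.LawF_contDiff_mul x).differentiable (by simp)

theorem LawF_hasFDerivAt (x : R k) : HasFDerivAt (N.mul x) (N.q x) 0 :=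
  (N.LawF_differentiable_mul x 0).hasFDerivAt

/-- The frame at the unit is the identity. -/
theorem q_zero : N.q 0 = ContinuousLinearMap.id ℝ (R k) := by
  have h : N.mul 0 = id := funext fun y => N.zero_mul y
  rw [q, h, fderiv_id]

/-- The frame is smooth: `q x u` is the derivative of `(x, y) ↦ x * y` at `(x, 0)` in the direction
`(0, u)`. -/
theorem contDiff_q : ContDiff ℝ ∞ N.q := by
  have h : ContDiff ℝ ∞ (Function.uncurry fun x y : R k => N.mul x y) := N.smooth
  exact h.fderiv (contDiff_const (c := (0 : R k))) (by simp)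

theorem LawF_hasDerivAt (j : Fin k) (x u : R k) :
    HasDerivAt (fun t : ℝ => N.mul x (t • u) j) (N.q x u j) 0 := by
  have h1 : HasDerivAt (fun t : ℝ => t • u) u 0 := by
    simpa using (hasDerivAt_id (0 : ℝ)).smul_const u
  have h2 : HasFDerivAt (N.mul x) (N.q x) ((0 : ℝ) • u) := by
    rw [zero_smul]; exact N.LawF_hasFDerivAt x
  have h3 : HasDerivAt (fun t : ℝ => N.mul x (t • u)) (N.q x u) 0 := h2.comp_hasDerivAt 0 h1
  exact (hasDerivAt_pi.1 h3) j

/-- Triangular form of the frame (differentiate `tri` in `y` at `0`). -/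
theorem q_tri (j : Fin k) (x x' u u' : R k) (hx : ∀ i, i < j → x i = x' i)
    (hu : ∀ i, i < j → u i = u' i) : N.q x u j - u j = N.q x' u' j - u' j := by
  have h1 : HasDerivAt (fun t : ℝ => N.mul x (t • u) j - x j - t * u j)
      (N.q x u j - u j) 0 := by
    have h := ((N.LawF_hasDerivAt j x u).sub_const (x j)).sub
      ((hasDerivAt_id (0 : ℝ)).mul_const (u j))
    rw [one_mul] at h
    exact h
  have h2 : HasDerivAt (fun t : ℝ => N.mul x' (t • u') j - x' j - t * u' j)
      (N.q x' u' j - u' j) 0 := by
    have h := ((N.LawF_hasDerivAt j x' u').sub_const (x' j)).sub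
      ((hasDerivAt_id (0 : ℝ)).mul_const (u' j))
    rw [one_mul] at h
    exact h
  have h3 : (fun t : ℝ => N.mul x (t • u) j - x j - t * u j) =
      fun t : ℝ => N.mul x' (t • u') j - x' j - t * u' j := by
    funext t
    have := N.tri j x x' (t • u) (t • u') hx (fun i hi => by simp [hu i hi])
    simpa using this
  rw [h3] at h1
  exact h1.unique h2

theorem q_apply_tri (j : Fin k) (x u : R k) (hu : ∀ i, i < j → u i = 0) : N.q x u j = u j := by
  have h := N.q_tri j x x u 0 (fun _ _ => rfl) (fun i hi => by simp [hu i hi])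
  simp only [map_zero, Pi.zero_apply, sub_zero] at h
  linarith

/-- The determinant of the frame is one: its matrix in the standard basis is lower triangular with
ones on the diagonal (`Matrix.det_of_lowerTriangular`). -/
theorem det_q (x : R k) : (N.q x).det = 1 := by
  have h0 : (N.q x).det = (LinearMap.toMatrix' (N.q x : R k →ₗ[ℝ] R k)).det := by
    rw [LinearMap.det_toMatrix']
  rw [h0, Matrix.det_of_isLowerTriangular]
  · refine Finset.prod_eq_one fun i _ => ?_
    rw [LinearMap.toMatrix'_apply]
    have h := N.q_apply_tri i x (Pi.single i 1) (fun i' hi' => by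
      rw [Pi.single_apply, if_neg hi'.ne])
    simpa [Pi.single_apply] using h
  · intro i j hij
    have hij' : i < j := by simpa using hij
    rw [LinearMap.toMatrix'_apply]
    have h := N.q_apply_tri i x (Pi.single j 1) (fun i' hi' => by
      rw [Pi.single_apply, if_neg (hi'.trans hij').ne])
    simpa [Pi.single_apply, hij'.ne] using h

/-- Left invariance of the frame: differentiate `x * (y * w) = (x * y) * w` in `w` at `0`. -/
theorem left_q (x y : R k) : (fderiv ℝ (N.mul x) y).comp (N.q y) = N.q (N.mul x y) := by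
  have h1 : HasFDerivAt (N.mul x) (fderiv ℝ (N.mul x) y) (N.mul y 0) := by
    rw [N.mul_zero]; exact (N.LawF_differentiable_mul x y).hasFDerivAt
  have h2 : HasFDerivAt (fun w => N.mul x (N.mul y w)) ((fderiv ℝ (N.mul x) y).comp (N.q y)) 0 :=
    h1.comp 0 (N.LawF_hasFDerivAt y)
  have h3 : (fun w => N.mul x (N.mul y w)) = N.mul (N.mul x y) := funext fun w => by
    rw [N.assoc]
  rw [h3] at h2
  exact h2.unique (N.LawF_hasFDerivAt _)

end NilLaw

end Pool.Agent.W_9986fc_h24
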