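import Pool.Agent.W_9986fc_h24.Nil.LawF

/-!
The frame of `ℝ^k × ℝ^b`: inverse, determinant, left invariance, smoothness.
-/

set_option autoImplicit false
set_option maxSynthPendingDepth 3

open scoped ContDiff
open Pool.Agent.W_9986fc_h15

namespace Pool.Agent.W_9986fc_h24

namespace NilLaw

variable {k b : ℕ} (N : NilLaw k)

theorem Q_apply (p u : V k b) : N.Q p u = (N.q p.1 u.1, u.2) := rfl

theorem brV_apply (u v : V k b) : (N.brV u v : V k b) = (N.br u.1 v.1, 0) := rfl

theorem contDiff_Q : ContDiff ℝ ∞ (N.Q : V k b → V k b →L[ℝ] V k b) := by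
  exact (ContinuousLinearMap.prodMapL ℝ (R k) (R k) (R b) (R b)).contDiff.comp
    ((N.contDiff_q.comp contDiff_fst).prodMk contDiff_const)

/-- The determinant of the frame is one (`LinearMap.det_prodMap` and `det_q`). -/
theorem det_Q (p : V k b) : (N.Q p).det = 1 := by
  have h : ((N.Q p : V k b →L[ℝ] V k b) : V k b →ₗ[ℝ] V k b) =
      (N.q p.1 : R k →ₗ[ℝ] R k).prodMap (LinearMap.id : R b →ₗ[ℝ] R b) := rfl
  have h1 := N.det_q p.1
  rw [ContinuousLinearMap.det] at h1 ⊢
  rw [h, LinearMap.det_prodMap, LinearMap.det_id, mul_one, h1]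

omit N in
/-- A linear map with nonzero determinant is invertible. -/
theorem LawQ_inv {E : Type*} [NormedAddCommGroup E] [NormedSpace ℝ E] [FiniteDimensional ℝ E]
    (T : E →L[ℝ] E) (h : T.det ≠ 0) : T.inverse.comp T = ContinuousLinearMap.id ℝ E ∧
    T.comp T.inverse = ContinuousLinearMap.id ℝ E := by
  obtain ⟨e, rfl⟩ : ∃ e : E ≃L[ℝ] E, (e : E →L[ℝ] E) = T :=
    ⟨T.toContinuousLinearEquivOfDetNeZero h, T.coe_toContinuousLinearEquivOfDetNeZero h⟩
  rw [ContinuousLinearMap.inverse_equiv]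
  exact ⟨e.coe_symm_comp_coe, e.coe_comp_coe_symm⟩

/-- The frame is invertible (`ContinuousLinearMap.inverse` of an equivalence). -/
theorem inverse_Q (p : V k b) : (N.Q p).inverse.comp (N.Q p) = ContinuousLinearMap.id ℝ (V k b) ∧
    (N.Q p).comp (N.Q p).inverse = ContinuousLinearMap.id ℝ (V k b) := by
  have h : (N.Q p).det ≠ 0 := by rw [N.det_Q p]; exact one_ne_zero
  exact LawQ_inv (N.Q p) h

theorem inverse_q (x : R k) : (N.q x).inverse.comp (N.q x) = ContinuousLinearMap.id ℝ (R k) ∧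
    (N.q x).comp (N.q x).inverse = ContinuousLinearMap.id ℝ (R k) := by
  have h : (N.q x).det ≠ 0 := by rw [N.det_q x]; exact one_ne_zero
  exact LawQ_inv (N.q x) h

/-- The inverse of the frame is smooth (`contDiffAt_map_inverse` or `ContDiffAt.inverse`). -/
theorem contDiff_inverse_Q :
    ContDiff ℝ ∞ (fun p : V k b => (N.Q p).inverse) := by
  rw [contDiff_iff_contDiffAt]
  intro p
  have h : (N.Q p).det ≠ 0 := by rw [N.det_Q p]; exact one_ne_zero
  have h1 := contDiffAt_map_inverse (n := ∞) (𝕜 := ℝ)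
    ((N.Q p).toContinuousLinearEquivOfDetNeZero h)
  rw [ContinuousLinearMap.coe_toContinuousLinearEquivOfDetNeZero] at h1
  exact h1.comp p N.contDiff_Q.contDiffAt

/-- The left translation by a lattice element, on `ℝ^k × ℝ^b`. -/
theorem left_Q (m : R k) (p : V k b) :
    (fderiv ℝ (fun p : V k b => ((N.mul m p.1, p.2) : V k b)) p).comp (N.Q p) =
      N.Q ((N.mul m p.1, p.2) : V k b) := by
  have hd : HasFDerivAt (N.mul m) (fderiv ℝ (N.mul m) p.1) p.1 := by
    have h1 : ContDiff ℝ ∞ (N.mul m) :=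
      N.smooth.comp (contDiff_const.prodMk contDiff_id)
    exact (h1.differentiable (by simp) p.1).hasFDerivAt
  have h2 : fderiv ℝ (fun p : V k b => ((N.mul m p.1, p.2) : V k b)) p =
      (fderiv ℝ (N.mul m) p.1).prodMap (ContinuousLinearMap.id ℝ (R b)) :=
    (hd.prodMap p (hasFDerivAt_id p.2)).fderiv
  rw [h2]
  refine ContinuousLinearMap.ext fun u => ?_
  rw [ContinuousLinearMap.comp_apply, Q_apply, Q_apply, ← N.left_q m p.1]
  rfl

end NilLaw

end Pool.Agent.W_9986fc_h24
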