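import Pool.Agent.W_9986fc_h24.Nil.HatB
import Pool.Agent.W_9986fc_h24.Prod.Split

/-!
Forms whose coefficients in the frame depend only on the point of the base.
-/

set_option autoImplicit false
set_option maxSynthPendingDepth 3

open scoped ContDiff
open Pool.Agent.W_9986fc_h15

namespace Pool.Agent.W_9986fc_h24

/-- The restriction of a bilinear form on `ℝ^k × ℝ^b` to `ℝ^k`. -/
noncomputable def cpart {k b : ℕ} (m : V k b →L[ℝ] V k b →L[ℝ] ℝ) : R k →L[ℝ] R k →L[ℝ] ℝ :=
  m.bilinearComp (ContinuousLinearMap.inl ℝ (R k) (R b)) (ContinuousLinearMap.inl ℝ (R k) (R b))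

theorem cpart_apply {k b : ℕ} (m : V k b →L[ℝ] V k b →L[ℝ] ℝ) (u v : R k) :
    cpart m u v = m (u, 0) (v, 0) := rfl

/-- Families of coefficients which depend only on the point of the base and are closed. -/
structure MForm {k b : ℕ} (N : NilLaw k) (m : R b → V k b →L[ℝ] V k b →L[ℝ] ℝ) : Prop where
  smooth : ContDiff ℝ ∞ m
  alt : ∀ z u, m z u u = 0
  closed : N.HCl2 (fun p : V k b => m p.2)

namespace MForm

variable {k b : ℕ} {N : NilLaw k} {m : R b → V k b →L[ℝ] V k b →L[ℝ] ℝ}

/-- The derivative along the frame of a function of `z`. -/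
theorem D_snd {H : Type*} [NormedAddCommGroup H] [NormedSpace ℝ H] (N : NilLaw k) (F : R b → H)
    (hF : ContDiff ℝ ∞ F) (p u : V k b) : N.D (fun p : V k b => F p.2) p u =
      fderiv ℝ F p.2 u.2 := by
  have h1 : HasFDerivAt (fun p : V k b => F p.2)
      ((fderiv ℝ F p.2).comp (ContinuousLinearMap.snd ℝ (R k) (R b))) p :=
    HasFDerivAt.comp p ((hF.differentiable (by simp)) p.2).hasFDerivAt hasFDerivAt_snd
  show fderiv ℝ (fun p : V k b => F p.2) p (N.Q p u) = _
  rw [h1.fderiv]
  rfl

/-- The relation of closedness for the coefficients. -/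
theorem MForm_closed (h : MForm N m) (z : R b) (u v w : V k b) :
    (fderiv ℝ m z u.2 v w - m z (N.br u.1 v.1, 0) w) +
      (fderiv ℝ m z v.2 w u - m z (N.br v.1 w.1, 0) u) +
      (fderiv ℝ m z w.2 u v - m z (N.br w.1 u.1, 0) v) = 0 := by
  have h1 := h.closed (0, z) u v w
  rw [D_snd N m h.smooth, D_snd N m h.smooth, D_snd N m h.smooth] at h1
  exact h1

/-- The fibre part is a closed form on the Lie algebra (`HCl2` for three vertical vectors). -/
theorem closedC (h : MForm N m) (z : R b) : N.ClosedC (cpart (m z)) := by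
  refine ⟨fun u => ?_, fun u v w => ?_⟩
  · rw [cpart_apply]
    exact h.alt z _
  · have h1 := MForm_closed h z (u, 0) (v, 0) (w, 0)
    simp only [map_zero, zero_apply, zero_sub] at h1
    rw [cpart_apply, cpart_apply, cpart_apply]
    linarith

/-- The derivative of the fibre part (`HCl2` for `(0, w), (u, 0), (v, 0)`). -/
theorem fderiv_cpart (h : MForm N m) (z w : R b) (u v : R k) :
    fderiv ℝ m z w (u, 0) (v, 0) = m z (N.br u v, 0) (0, w) := by
  have h1 := MForm_closed h z (0, w) (u, 0) (v, 0)
  have h0 : (((0 : R k), (0 : R b)) : V k b) = 0 := rfl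
  simp only [map_zero, zero_apply, h0] at h1
  linarith

/-- The derivative of an alternating family is skew. -/
theorem MForm_skew (h : MForm N m) (z w : R b) (u v : V k b) :
    fderiv ℝ m z w u v = - fderiv ℝ m z w v u := by
  have hd : Differentiable ℝ m := h.smooth.differentiable (by simp)
  have h2 : ∀ u v : V k b, HasFDerivAt (fun x => m x u v) (((fderiv ℝ m z).flip u).flip v) z := by
    intro u v
    have h1 : HasFDerivAt (fun x => m x u) ((fderiv ℝ m z).flip u) z := by
      have := (hd z).hasFDerivAt.clm_apply (hasFDerivAt_const u z)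
      simpa using this
    have := h1.clm_apply (hasFDerivAt_const v z)
    simpa using this
  have h3 : (fun x => m x u v) = fun x => -(m x v u) := by
    funext x
    exact skew_of_alt (m x) (h.alt x) u v
  have h4 := h2 u v
  rw [h3] at h4
  have h5 := h4.unique (h2 v u).neg
  have h6 := congrArg (fun f : R b →L[ℝ] ℝ => f w) h5
  exact h6

/-- The mixed part is closed in `z` (`HCl2` for `(0, w), (0, w'), (u, 0)`). -/
theorem fderiv_mixed (h : MForm N m) (z w w' : R b) (u : R k) :
    fderiv ℝ m z w (u, 0) (0, w') = fderiv ℝ m z w' (u, 0) (0, w) := by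
  have h1 := MForm_closed h z (0, w) (0, w') (u, 0)
  have h2 := MForm_skew h z w (0, w') (u, 0)
  have h0 : (((0 : R k), (0 : R b)) : V k b) = 0 := rfl
  simp only [map_zero, zero_apply, h0] at h1
  linarith

/-- The horizontal part is closed. -/
theorem fderiv_hor (h : MForm N m) (z w w' w'' : R b) :
    fderiv ℝ m z w (0, w') (0, w'') + fderiv ℝ m z w' (0, w'') (0, w) +
      fderiv ℝ m z w'' (0, w) (0, w') = 0 := by
  have h1 := MForm_closed h z (0, w) (0, w') (0, w'')
  have h0 : (((0 : R k), (0 : R b)) : V k b) = 0 := rfl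
  simp only [map_zero, zero_apply, h0] at h1
  linarith

/-- The class of the fibre part does not depend on `z`: integrate `fderiv_cpart` over the segment
from `z` to `z'`; `μ u = ∫ t in 0..1, m (z + t (z' - z)) (u, 0) (0, z' - z)`. -/
theorem exists_class (h : MForm N m) (z z' : R b) :
    ∃ μ : R k →L[ℝ] ℝ, ∀ u v, m z' (u, 0) (v, 0) = m z (u, 0) (v, 0) + μ (N.br u v) := by
  have hd : Differentiable ℝ m := h.smooth.differentiable (by simp)
  let Mt : ℝ → (R k →L[ℝ] ℝ) := fun t =>
    ((m (z + t • (z' - z))).flip ((0, z' - z) : V k b)).comp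
      (ContinuousLinearMap.inl ℝ (R k) (R b))
  have hline : Continuous fun t : ℝ => z + t • (z' - z) := by fun_prop
  have hM : Continuous Mt := by
    have h1 : Continuous fun t : ℝ => m (z + t • (z' - z)) := h.smooth.continuous.comp hline
    have h2 : Continuous fun t : ℝ => (m (z + t • (z' - z))).flip ((0, z' - z) : V k b) := by
      have := (ContinuousLinearMap.flipₗᵢ ℝ (V k b) (V k b) ℝ).continuous.comp h1
      exact this.clm_apply continuous_const
    exact h2.clm_comp continuous_const
  refine ⟨∫ t in (0 : ℝ)..1, Mt t, fun u v => ?_⟩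
  have hder : ∀ t : ℝ, HasDerivAt (fun t : ℝ => m (z + t • (z' - z)) (u, 0) (v, 0))
      (Mt t (N.br u v)) t := by
    intro t
    have h1 : HasDerivAt (fun t : ℝ => z + t • (z' - z)) (z' - z) t := by
      have := ((hasDerivAt_id t).smul_const (z' - z)).const_add z
      simpa using this
    have h2 : HasDerivAt (fun t : ℝ => m (z + t • (z' - z)))
        (fderiv ℝ m (z + t • (z' - z)) (z' - z)) t :=
      (hd _).hasFDerivAt.comp_hasDerivAt t h1
    have h3 : HasDerivAt (fun t : ℝ => m (z + t • (z' - z)) (u, 0))
        (fderiv ℝ m (z + t • (z' - z)) (z' - z) (u, 0)) t := by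
      have := h2.clm_apply (hasDerivAt_const t ((u, 0) : V k b))
      simpa using this
    have h4 : HasDerivAt (fun t : ℝ => m (z + t • (z' - z)) (u, 0) (v, 0))
        (fderiv ℝ m (z + t • (z' - z)) (z' - z) (u, 0) (v, 0)) t := by
      have := h3.clm_apply (hasDerivAt_const t ((v, 0) : V k b))
      simpa using this
    rw [fderiv_cpart h] at h4
    exact h4
  have hint : ∫ t in (0 : ℝ)..1, Mt t (N.br u v) =
      m (z + (1 : ℝ) • (z' - z)) (u, 0) (v, 0) - m (z + (0 : ℝ) • (z' - z)) (u, 0) (v, 0) :=
    intervalIntegral.integral_eq_sub_of_hasDerivAt (fun t _ => hder t)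
      ((hM.clm_apply continuous_const).intervalIntegrable _ _)
  rw [one_smul, zero_smul, add_zero, add_sub_cancel] at hint
  rw [ContinuousLinearMap.intervalIntegral_apply (hM.intervalIntegrable _ _), hint]
  ring

/-- If the kernel of the fibre part has dimension greater than `b`, the form is degenerate: some
nonzero vector of the kernel is orthogonal to the horizontal vectors. -/
theorem top_eq_zero_of_large (h : MForm N m) {n : ℕ} (B : Module.Basis (Fin n × Fin 2) ℝ (V k b))
    (z : R b) (hz : b < Module.finrank ℝ (kerC (cpart (m z)))) : top B (m z) = 0 := by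
  let F : kerC (cpart (m z)) →ₗ[ℝ] (Fin b → ℝ) :=
    { toFun := fun y j => m z (y, 0) (0, Pi.single j 1)
      map_add' := by
        intro y y'
        funext j
        have : (((y + y' : kerC (cpart (m z))) : R k), (0 : R b)) =
            ((y : R k), (0 : R b)) + ((y' : R k), (0 : R b)) := by
          simp
        simp only [this, map_add, add_apply, Pi.add_apply]
      map_smul' := by
        intro r y
        funext j
        have : (((r • y : kerC (cpart (m z))) : R k), (0 : R b)) =
            r • ((y : R k), (0 : R b)) := by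
          simp
        simp only [this, map_smul, smul_apply, Pi.smul_apply, RingHom.id_apply] }
  have hF : LinearMap.ker F ≠ ⊥ := by
    apply LinearMap.ker_ne_bot_of_finrank_lt
    simpa using hz
  obtain ⟨y, hy, hy0⟩ := (Submodule.ne_bot_iff _).1 hF
  have hyc : ∀ y', cpart (m z) (y : R k) y' = 0 := by
    intro y'
    have h1 : cpart (m z) (y : R k) = 0 := by
      have := y.2
      simpa [kerC] using this
    rw [h1]
    rfl
  refine top_eq_zero B (m z) (h.alt z) ((y : R k), 0) ?_ ?_
  · intro h
    apply hy0
    have : (y : R k) = 0 := congrArg Prod.fst h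
    exact Subtype.ext this
  · intro u
    have h1 : u = (u.1, 0) + (0, u.2) := by simp
    rw [h1, map_add, ← cpart_apply, hyc, zero_add]
    have h2 : (0, u.2) = ∑ j, u.2 j • ((0, Pi.single j 1) : V k b) := by
      ext j
      · simp [Prod.fst_sum]
      · simp [Prod.snd_sum, Finset.sum_apply, Pi.single_apply]
    rw [h2, map_sum]
    apply Finset.sum_eq_zero
    intro j _
    have h3 : F y j = 0 := by
      have := LinearMap.mem_ker.1 hy
      rw [this]
      rfl
    rw [map_smul]
    have h4 : m z ((y : R k), 0) (0, Pi.single j 1) = 0 := h3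
    rw [h4, smul_zero]

end MForm

/-- The value of the top power of a form with coefficients `m` in the frame: `det (Q p) = 1`. -/
theorem top_hat2 {k b n : ℕ} (N : NilLaw k) (B : Module.Basis (Fin n × Fin 2) ℝ (V k b))
    (α : V k b → V k b →L[ℝ] V k b →L[ℝ] ℝ) (p : V k b) : top B (α p) = top B (N.hat2 α p) := by
  have h := top_bilinearComp B (N.Q p) (α p)
  rw [NilLaw.det_Q, one_mul] at h
  exact h.symm

end Pool.Agent.W_9986fc_h24
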