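import Pool.Agent.W_9986fc_h24.Nil.LawQ

/-!
The unit cube is a fundamental domain for the lattice; integrals over the fibres.
-/

set_option autoImplicit false
set_option maxSynthPendingDepth 3

open scoped ContDiff
open Pool.Agent.W_9986fc_h15 MeasureTheory

namespace Pool.Agent.W_9986fc_h24

namespace NilLaw

variable {k b : ℕ} (N : NilLaw k) {H : Type*} [NormedAddCommGroup H] [NormedSpace ℝ H]
  [CompleteSpace H]

theorem MeanA_intV_zero : intV (0 : Fin k → ℤ) = (0 : R k) := by
  funext i
  simp [intV]

/-- The group of the left translations by lattice elements, as a subgroup of the group of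
permutations of `ℝ^k` (`exists_inv_int` for the inverses). -/
def lattice : Subgroup (Equiv.Perm (R k)) where
  carrier := {σ | ∃ m : Fin k → ℤ, ∀ x, σ x = N.mul (intV m) x}
  mul_mem' := by
    rintro σ τ ⟨m, hm⟩ ⟨m', hm'⟩
    obtain ⟨l, hl⟩ := N.int m m'
    refine ⟨l, fun x => ?_⟩
    rw [Equiv.Perm.mul_apply, hm, hm', ← N.assoc, hl]
  one_mem' := by
    refine ⟨0, fun x => ?_⟩
    rw [MeanA_intV_zero, N.zero_mul, Equiv.Perm.one_apply]
  inv_mem' := by
    rintro σ ⟨m, hm⟩
    obtain ⟨l, hl, -⟩ := N.exists_inv_int m
    refine ⟨l, fun x => ?_⟩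
    rw [Equiv.Perm.inv_eq_iff_eq, hm, ← N.assoc, hl, N.zero_mul]

/-- Every lattice element gives an element of the group. -/
theorem exists_lattice (m : Fin k → ℤ) : ∃ σ : N.lattice, ∀ x, σ • x = N.mul (intV m) x := by
  obtain ⟨l, hl, hl'⟩ := N.exists_inv_int m
  let σ : Equiv.Perm (R k) :=
    { toFun := N.mul (intV m)
      invFun := N.mul (intV l)
      left_inv := fun x => by rw [← N.assoc, hl', N.zero_mul]
      right_inv := fun x => by rw [← N.assoc, hl, N.zero_mul] }
  exact ⟨⟨σ, m, fun x => rfl⟩, fun x => rfl⟩

theorem MeanA_smul (σ : N.lattice) : ∃ m : Fin k → ℤ, ∀ x, σ • x = N.mul (intV m) x := by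
  obtain ⟨σ, m, hm⟩ := σ
  exact ⟨m, fun x => hm x⟩

theorem MeanA_contDiff (x : R k) : ContDiff ℝ ∞ (N.mul x) :=
  N.smooth.comp (contDiff_const.prodMk contDiff_id)

/-- The Jacobian determinant of the left translations is one. -/
theorem MeanA_det (x y : R k) : (fderiv ℝ (N.mul x) y).det = 1 := by
  have h := N.left_q x y
  have h2 : ((fderiv ℝ (N.mul x) y).comp (N.q y)).det = (N.q (N.mul x y)).det := by rw [h]
  rw [N.det_q] at h2
  have h3 : ((fderiv ℝ (N.mul x) y).comp (N.q y)).det =
      (fderiv ℝ (N.mul x) y).det * (N.q y).det := by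
    unfold ContinuousLinearMap.det
    rw [ContinuousLinearMap.toLinearMap_comp, LinearMap.det_comp]
  rw [h3, N.det_q, mul_one] at h2
  exact h2

/-- Left translations preserve the Lebesgue measure (the Jacobian has determinant one: triangular
form, or `left_q` and `det_q`; change of variables
`MeasureTheory.lintegral_image_eq_lintegral_abs_det_fderiv_mul` or
`MeasureTheory.Measure.map` versions). -/
theorem smulInvariant : SMulInvariantMeasure N.lattice (R k) volume := by
  refine ⟨fun σ s hs => ?_⟩
  obtain ⟨m, hm⟩ := MeanA_smul N σ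
  have e1 : (fun x : R k => σ • x) = N.mul (intV m) := funext hm
  rw [e1]
  have hc := MeanA_contDiff N (intV m)
  have hd : ∀ x, HasFDerivAt (N.mul (intV m)) (fderiv ℝ (N.mul (intV m)) x) x := fun x =>
    ((hc.differentiable (by simp)) x).hasFDerivAt
  have hinj : Function.Injective (N.mul (intV m)) := fun y y' h =>
    N.mul_left_cancel (intV m) y y' h
  have hsurj : Function.Surjective (N.mul (intV m)) := fun w => N.exists_mul_eq (intV m) w
  have hms : MeasurableSet (N.mul (intV m) ⁻¹' s) := hc.continuous.measurable hs
  have h := MeasureTheory.lintegral_abs_det_fderiv_eq_addHaar_image (volume : Measure (R k))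
    hms (f := N.mul (intV m)) (f' := fun x => fderiv ℝ (N.mul (intV m)) x)
    (fun x _ => (hd x).hasFDerivWithinAt) hinj.injOn
  rw [Set.image_preimage_eq s hsurj] at h
  simp only [MeanA_det, abs_one, ENNReal.ofReal_one] at h
  rw [← h]
  simp

/-- Existence of the lattice element. -/
theorem MeanA_exists (x : R k) (n : ℕ) : ∃ m : Fin k → ℤ, ∀ j : Fin k, (j : ℕ) < n →
    0 ≤ N.mul (intV m) x j ∧ N.mul (intV m) x j < 1 := by
  induction n with
  | zero => exact ⟨0, fun j hj => absurd hj (Nat.not_lt_zero _)⟩
  | succ n ih =>
    obtain ⟨m, hm⟩ := ih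
    by_cases hn : n < k
    · set a : Fin k := ⟨n, hn⟩ with ha
      set t : ℤ := -⌊N.mul (intV m) x a⌋ with ht
      refine ⟨Function.update m a (m a + t), fun j hj => ?_⟩
      rcases Nat.lt_succ_iff_lt_or_eq.mp hj with hj1 | hj1
      · have h1 : N.mul (intV (Function.update m a (m a + t))) x j = N.mul (intV m) x j := by
          refine N.mul_congr j _ _ _ _ (fun i hi => ?_) (fun i _ => rfl)
          have hia : i ≠ a := by
            rintro rfl
            have : (a : ℕ) ≤ (j : ℕ) := hi
            have h3 : (a : ℕ) = n := rfl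
            omega
          simp only [intV]
          rw [Function.update_of_ne hia]
        rw [h1]
        exact hm j hj1
      · have hja : j = a := Fin.ext hj1
        rw [hja]
        have h1 := N.tri a (intV (Function.update m a (m a + t))) (intV m) x x
          (fun i hi => by
            simp only [intV]
            rw [Function.update_of_ne (ne_of_lt hi)])
          (fun i _ => rfl)
        have h2 : intV (Function.update m a (m a + t)) a = (m a : ℝ) + t := by
          simp [intV]
        have h3 : intV m a = (m a : ℝ) := rfl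
        rw [h2, h3] at h1
        have h4 : N.mul (intV (Function.update m a (m a + t))) x a =
            N.mul (intV m) x a - ⌊N.mul (intV m) x a⌋ := by
          have h5 : (t : ℝ) = -(⌊N.mul (intV m) x a⌋ : ℝ) := by
            rw [ht]
            push_cast
            rfl
          linarith
        rw [h4]
        constructor
        · linarith [Int.floor_le (N.mul (intV m) x a)]
        · linarith [Int.lt_floor_add_one (N.mul (intV m) x a)]
    · refine ⟨m, fun j hj => hm j ?_⟩
      have := j.2
      omega

/-- Uniqueness of the lattice element. -/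
theorem MeanA_unique (x : R k) (m m' : Fin k → ℤ)
    (h : ∀ j, 0 ≤ N.mul (intV m) x j ∧ N.mul (intV m) x j < 1)
    (h' : ∀ j, 0 ≤ N.mul (intV m') x j ∧ N.mul (intV m') x j < 1) : m = m' := by
  have key : ∀ n : ℕ, ∀ j : Fin k, (j : ℕ) < n → m j = m' j := by
    intro n
    induction n with
    | zero => exact fun j hj => absurd hj (Nat.not_lt_zero _)
    | succ n ih =>
      intro j hj
      rcases Nat.lt_succ_iff_lt_or_eq.mp hj with hj1 | hj1
      · exact ih j hj1
      · have h1 := N.tri j (intV m) (intV m') x x
          (fun i hi => by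
            have hi' : (i : ℕ) < n := by
              have : (i : ℕ) < (j : ℕ) := hi
              omega
            simp only [intV]
            rw [ih i hi'])
          (fun i _ => rfl)
        have h3 : intV m j = (m j : ℝ) := rfl
        have h4 : intV m' j = (m' j : ℝ) := rfl
        rw [h3, h4] at h1
        obtain ⟨a1, a2⟩ := h j
        obtain ⟨b1, b2⟩ := h' j
        have h5 : (m j : ℝ) - m' j < 1 := by linarith
        have h6 : (m' j : ℝ) - m j < 1 := by linarith
        have h7 : m j - m' j < 1 := by exact_mod_cast h5
        have h8 : m' j - m j < 1 := by exact_mod_cast h6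
        omega
  funext j
  exact key k j j.2

/-- The half open unit cube is a fundamental domain: given `x`, the integer vector `m` with
`m * x` in the cube exists and is unique; its coordinates are determined successively by
`(m * x) j = m j + x j + (a function of the coordinates before j)`. -/
theorem isFundamentalDomain_cube :
    IsFundamentalDomain N.lattice {x : R k | ∀ i, 0 ≤ x i ∧ x i < 1} volume := by
  refine IsFundamentalDomain.mk' ?_ fun x => ?_
  · have h1 : MeasurableSet {x : R k | ∀ i, 0 ≤ x i ∧ x i < 1} := by
      have h2 : {x : R k | ∀ i, 0 ≤ x i ∧ x i < 1} =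
          ⋂ i, {x : R k | 0 ≤ x i ∧ x i < 1} := by
        ext x
        simp
      rw [h2]
      refine MeasurableSet.iInter fun i => ?_
      exact (measurableSet_le measurable_const (measurable_pi_apply i)).inter
        (measurableSet_lt (measurable_pi_apply i) measurable_const)
    exact h1.nullMeasurableSet
  · obtain ⟨m, hm⟩ := N.MeanA_exists x k
    obtain ⟨σ, hσ⟩ := N.exists_lattice m
    refine ⟨σ, ?_, ?_⟩
    · change σ • x ∈ {x : R k | ∀ i, 0 ≤ x i ∧ x i < 1}
      rw [hσ x]
      exact fun j => hm j j.2
    · intro τ hτ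
      obtain ⟨m', hm'⟩ := N.MeanA_smul τ
      have h1 : ∀ j, 0 ≤ N.mul (intV m') x j ∧ N.mul (intV m') x j < 1 := by
        have h2 : τ • x ∈ {x : R k | ∀ i, 0 ≤ x i ∧ x i < 1} := hτ
        rw [hm' x] at h2
        exact h2
      have h3 : m' = m := N.MeanA_unique x m' m h1 fun j => hm j j.2
      refine Subtype.ext (Equiv.ext fun y => ?_)
      have h4 := hm' y
      have h5 := hσ y
      rw [h3] at h4
      exact h4.trans h5.symm

end NilLaw

end Pool.Agent.W_9986fc_h24
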