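import Pool.Agent.W_9986fc_h24.Nil.MeanC
import Pool.Agent.W_9986fc_h24.Nil.HatB
import Pool.Agent.W_9986fc_h24.Nil.DepA
import Pool.Agent.W_9986fc_h15.Cube

/-!
Means over the fibres.
-/

set_option autoImplicit false
set_option maxSynthPendingDepth 3

open scoped ContDiff
open Pool.Agent.W_9986fc_h15 MeasureTheory

namespace Pool.Agent.W_9986fc_h24

namespace NilLaw

variable {k b : ℕ} (N : NilLaw k) {H : Type*} [NormedAddCommGroup H] [NormedSpace ℝ H]
  [CompleteSpace H]

/-- Right translations are smooth. -/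
theorem MeanB_smooth_right (y : R k) : ContDiff ℝ ∞ (fun x => N.mul x y) :=
  N.smooth.comp (contDiff_id.prodMk contDiff_const)

/-- The derivative of a right translation is lower triangular. -/
theorem MeanB_fderiv_right (y x u : R k) (j : Fin k) (hu : ∀ i, i < j → u i = 0) :
    fderiv ℝ (fun x => N.mul x y) x u j = u j := by
  have h1 : HasFDerivAt (fun x => N.mul x y) (fderiv ℝ (fun x => N.mul x y) x) x :=
    ((N.MeanB_smooth_right y).differentiable (by simp) x).hasFDerivAt
  have h7 : HasDerivAt (fun s : ℝ => x + s • u) u 0 := by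
    simpa using ((hasDerivAt_id (0 : ℝ)).smul_const u).const_add x
  have h1' : HasFDerivAt (fun x => N.mul x y) (fderiv ℝ (fun x => N.mul x y) x)
      (x + (0 : ℝ) • u) := by
    rw [zero_smul, add_zero]
    exact h1
  have h2 : HasDerivAt ((fun x => N.mul x y) ∘ fun s : ℝ => x + s • u)
      (fderiv ℝ (fun x => N.mul x y) x u) 0 := h1'.comp_hasDerivAt 0 h7
  have h3 : HasDerivAt (fun s : ℝ => N.mul (x + s • u) y j)
      (fderiv ℝ (fun x => N.mul x y) x u j) 0 := (hasDerivAt_pi.1 h2) j
  have h4 : (fun s : ℝ => N.mul (x + s • u) y j) = fun s : ℝ => N.mul x y j + s * u j := by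
    funext s
    have h5 := N.tri j (x + s • u) x y y (fun i hi => by
      rw [Pi.add_apply, Pi.smul_apply, hu i hi, smul_zero, add_zero]) (fun _ _ => rfl)
    rw [Pi.add_apply, Pi.smul_apply, smul_eq_mul] at h5
    linarith
  rw [h4] at h3
  have h5 : HasDerivAt (fun s : ℝ => N.mul x y j + s * u j) (u j) 0 := by
    simpa using ((hasDerivAt_id (0 : ℝ)).mul_const (u j)).const_add (N.mul x y j)
  exact h3.unique h5

/-- The Jacobian of a right translation has determinant one. -/
theorem MeanB_det_right (y x : R k) : (fderiv ℝ (fun x => N.mul x y) x).det = 1 := by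
  change LinearMap.det ((fderiv ℝ (fun x => N.mul x y) x : R k →L[ℝ] R k) : R k →ₗ[ℝ] R k) = 1
  rw [← LinearMap.det_toMatrix', Matrix.det_of_isLowerTriangular]
  · refine Finset.prod_eq_one fun i _ => ?_
    rw [LinearMap.toMatrix'_apply]
    change fderiv ℝ (fun x => N.mul x y) x (Pi.single i 1) i = 1
    rw [MeanB_fderiv_right N y x _ i fun l hl => by rw [Pi.single_eq_of_ne hl.ne]]
    simp
  · intro i j hij
    have hij' : i < j := hij
    rw [LinearMap.toMatrix'_apply]
    change fderiv ℝ (fun x => N.mul x y) x (Pi.single j 1) i = 0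
    rw [MeanB_fderiv_right N y x _ i fun l hl => by
      rw [Pi.single_eq_of_ne (hl.trans hij').ne]]
    rw [Pi.single_eq_of_ne hij'.ne]

/-- The mean is invariant under right translations: `integral_comp` for `ψ x = x * y`, which commutes
with the left translations (associativity), is bijective (`exists_inv`), and whose Jacobian is lower
triangular with ones on the diagonal (by `tri`). -/
theorem mean_mul_right (F : V k b → H) (hF : Continuous F) (hL : N.Lam F) (y : R k) (z : R b) :
    mean (fun p => F (N.mul p.1 y, p.2)) z = mean F z := by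
  have hb : Function.Bijective (fun x => N.mul x y) := by
    refine ⟨fun x x' h => N.mul_right_cancel x x' y h, fun w => ?_⟩
    obtain ⟨y', h1, h2⟩ := N.exists_inv y
    refine ⟨N.mul w y', ?_⟩
    change N.mul (N.mul w y') y = w
    rw [N.assoc, h2, N.mul_zero]
  exact N.integral_comp (fun x => F (x, z)) (hF.comp (by fun_prop)) (fun m x => hL m x z)
    (fun x => N.mul x y) (N.MeanB_smooth_right y) hb 1 (fun x => N.MeanB_det_right y x)
    one_ne_zero (fun m => ⟨m, fun x => N.assoc _ _ _⟩) (fun m => ⟨m, fun x => N.assoc _ _ _⟩)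

/-- The mean of a derivative along a vertical field is zero: `t ↦ mean (F (· * t u))` is constant
(`mean_mul_right`); its derivative at `t = 0` is the mean of `D_u F`, because the derivative of
`t ↦ F (x * (t u), z)` at `t = 0` is `fderiv F (x, z) (q x u, 0)` (differentiation under the integral
over the compact cube). -/
theorem mean_D_vert (F : V k b → H) (hF : ContDiff ℝ ∞ F) (hL : N.Lam F) (u : R k) (z : R b) :
    mean (fun p => N.D F p (u, 0)) z = 0 := by
  have h1 : ContDiff ℝ 1 F := hF.of_le (by exact_mod_cast le_top)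
  have hm : ContDiff ℝ 1 (fun p : R k × R k => N.mul p.1 p.2) :=
    N.smooth.of_le (by exact_mod_cast le_top)
  set g : R k × ℝ → H := fun x => F (N.mul x.1 (x.2 • u), z) with hg
  have hg0 : ContDiff ℝ 1 (fun x : R k × ℝ => ((N.mul x.1 (x.2 • u), z) : V k b)) := by
    have h2 : ContDiff ℝ 1 (fun x : R k × ℝ => N.mul x.1 (x.2 • u)) :=
      hm.comp (contDiff_fst.prodMk (contDiff_snd.smul contDiff_const))
    exact h2.prodMk contDiff_const
  have hg1 : ContDiff ℝ 1 g := h1.comp hg0
  have h2 := Cube_hasFDerivAt g hg1 0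
  have hconst : (fun s : ℝ => ∫ v in Set.Icc (0 : R k) 1, g (v, s)) = fun _ => mean F z := by
    funext s
    exact N.mean_mul_right F hF.continuous hL (s • u) z
  rw [hconst] at h2
  have h4 := h2.unique (hasFDerivAt_const (mean F z) (0 : ℝ))
  have hc : Continuous (fun x : R k × ℝ =>
      (fderiv ℝ g x).comp (ContinuousLinearMap.inr ℝ (R k) ℝ)) :=
    (hg1.continuous_fderiv one_ne_zero).clm_comp continuous_const
  have h5 := congrArg (fun T : ℝ →L[ℝ] H => T 1) h4
  simp only [zero_apply] at h5
  rw [ContinuousLinearMap.integral_apply (Cube_intble _ hc 0)] at h5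
  rw [← h5]
  refine MeasureTheory.integral_congr_ae (Filter.Eventually.of_forall fun v => ?_)
  have h6 : HasFDerivAt F (fderiv ℝ F (v, z)) (v, z) :=
    (h1.differentiable one_ne_zero _).hasFDerivAt
  have h7 : HasDerivAt (fun s : ℝ => ((N.mul v (s • u), z) : V k b)) (N.q v u, 0) 0 := by
    have h8 : HasDerivAt (fun s : ℝ => s • u) u 0 := by
      simpa using (hasDerivAt_id (0 : ℝ)).smul_const u
    have h9 : ContDiff ℝ 1 (N.mul v) := hm.comp (contDiff_const.prodMk contDiff_id)
    have h10 : HasFDerivAt (N.mul v) (N.q v) ((0 : ℝ) • u) := by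
      rw [zero_smul]
      exact (h9.differentiable one_ne_zero _).hasFDerivAt
    have h11 : HasDerivAt (fun s : ℝ => N.mul v (s • u)) (N.q v u) 0 :=
      h10.comp_hasDerivAt 0 h8
    exact h11.prodMk (hasDerivAt_const 0 z)
  have h9 : HasDerivAt (fun s : ℝ => g (v, s)) (fderiv ℝ F (v, z) (N.q v u, 0)) 0 := by
    have h10 : HasFDerivAt F (fderiv ℝ F (v, z)) (N.mul v ((0 : ℝ) • u), z) := by
      rw [zero_smul, N.mul_zero]
      exact h6
    exact h10.comp_hasDerivAt 0 h7
  have h11 : HasDerivAt (fun s : ℝ => g (v, s)) (fderiv ℝ g (v, 0) (0, 1)) 0 := by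
    have h12 : HasFDerivAt g (fderiv ℝ g (v, 0)) (v, 0) :=
      (hg1.differentiable one_ne_zero _).hasFDerivAt
    exact h12.comp_hasDerivAt 0 ((hasDerivAt_const 0 v).prodMk (hasDerivAt_id 0))
  exact h9.unique h11

/-- The mean of a derivative in a horizontal direction (`fderiv_mean`, Cube of helper15). -/
theorem mean_D_hor (F : V k b → H) (hF : ContDiff ℝ ∞ F) (w z : R b) :
    mean (fun p => N.D F p (0, w)) z = fderiv ℝ (mean F) z w := by
  rw [fderiv_mean F hF z w]
  have h : (fun p : V k b => N.D F p (0, w)) = fun p => fderiv ℝ F p (0, w) := by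
    funext p
    change fderiv ℝ F p (N.q p.1 0, w) = fderiv ℝ F p (0, w)
    rw [map_zero]
  rw [h]

end NilLaw

end Pool.Agent.W_9986fc_h24
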