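import Pool.Agent.W_9986fc_h24.Nil.MeanA

/-!
Invariance of the integral over the unit cube.
-/

set_option autoImplicit false
set_option maxSynthPendingDepth 3

open scoped ContDiff
open Pool.Agent.W_9986fc_h15 MeasureTheory

namespace Pool.Agent.W_9986fc_h24

namespace NilLaw

variable {k b : ℕ} (N : NilLaw k) {H : Type*} [NormedAddCommGroup H] [NormedSpace ℝ H]
  [CompleteSpace H]

/-- The half open unit cube. -/
def MeanC_cube (k : ℕ) : Set (R k) := {x : R k | ∀ i, 0 ≤ x i ∧ x i < 1}

theorem MeanC_cube_eq : MeanC_cube k = Set.univ.pi fun _ : Fin k => Set.Ico (0 : ℝ) 1 := by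
  ext x
  simp [MeanC_cube]

theorem MeanC_cube_ae : (MeanC_cube k : Set (R k)) =ᵐ[volume] Set.Icc (0 : R k) 1 := by
  rw [MeanC_cube_eq]
  exact Measure.univ_pi_Ico_ae_eq_Icc (μ := fun _ : Fin k => (volume : Measure ℝ))
    (f := fun _ => 0) (g := fun _ => 1)

theorem MeanC_cube_volume : (volume : Measure (R k)) (MeanC_cube k) = 1 := by
  rw [MeanC_cube_eq, Real.volume_pi_Ico]
  simp

theorem MeanC_cube_meas : MeasurableSet (MeanC_cube k) := by
  rw [MeanC_cube_eq]
  exact MeasurableSet.univ_pi fun _ => measurableSet_Ico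

theorem MeanC_countable : Countable N.lattice := by
  choose f hf using N.exists_lattice
  refine Function.Surjective.countable (f := f) fun σ => ?_
  obtain ⟨m, hm⟩ := N.MeanA_smul σ
  refine ⟨m, Subtype.ext (Equiv.ext fun x => ?_)⟩
  exact (hf m x).trans (hm x).symm

theorem MeanC_measurable : MeasurableConstSMul N.lattice (R k) := by
  refine ⟨fun σ => ?_⟩
  obtain ⟨m, hm⟩ := N.MeanA_smul σ
  have h : (fun x : R k => σ • x) = N.mul (intV m) := funext hm
  rw [h]
  exact (N.MeanA_contDiff (intV m)).continuous.measurable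

/-- `ψ` maps the cube to a fundamental domain. -/
theorem MeanC_image (ψ : R k → R k) (hψ : ContDiff ℝ ∞ ψ) (hb : Function.Bijective ψ)
    (h1 : ∀ (m : Fin k → ℤ), ∃ l : Fin k → ℤ, ∀ x, ψ (N.mul (intV m) x) = N.mul (intV l) (ψ x))
    (h2 : ∀ (l : Fin k → ℤ), ∃ m : Fin k → ℤ, ∀ x, ψ (N.mul (intV m) x) = N.mul (intV l) (ψ x)) :
    IsFundamentalDomain N.lattice (ψ '' MeanC_cube k) volume := by
  refine IsFundamentalDomain.mk' ?_ fun y => ?_
  · exact (MeanC_cube_meas.image_of_continuousOn_injOn hψ.continuous.continuousOn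
      hb.injective.injOn).nullMeasurableSet
  · obtain ⟨x, rfl⟩ := hb.surjective y
    obtain ⟨m, hm⟩ := N.MeanA_exists x k
    obtain ⟨l, hl⟩ := h1 m
    obtain ⟨σ, hσ⟩ := N.exists_lattice l
    refine ⟨σ, ?_, ?_⟩
    · change σ • ψ x ∈ ψ '' MeanC_cube k
      rw [hσ, ← hl]
      exact ⟨_, fun j => hm j j.2, rfl⟩
    · intro τ hτ
      obtain ⟨l', hl'⟩ := N.MeanA_smul τ
      obtain ⟨m', hm'⟩ := h2 l'
      have hτ' : τ • ψ x ∈ ψ '' MeanC_cube k := hτ
      rw [hl', ← hm'] at hτ'
      obtain ⟨c, hc, hcx⟩ := hτ'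
      have hcx' := hb.injective hcx
      rw [hcx'] at hc
      have hmm : m' = m := N.MeanA_unique x m' m hc fun j => hm j j.2
      have h3 : N.mul (intV l') (ψ x) = N.mul (intV l) (ψ x) := by
        rw [← hm', ← hl, hmm]
      have h4 := N.mul_right_cancel _ _ _ h3
      refine Subtype.ext (Equiv.ext fun w => ?_)
      have h5 := hl' w
      have h6 := hσ w
      rw [h4] at h5
      exact h5.trans h6.symm

/-- The key invariance property. Let `ψ` be a smooth bijection of `ℝ^k` whose Jacobian has a constant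
determinant and which maps orbits of the lattice to orbits of the lattice, in both directions. Then
the integral over the unit cube of a lattice invariant continuous function does not change under
`ψ`. Proof: `ψ` maps the cube to a fundamental domain (up to null sets): the group of the
translations is normalized by `ψ`. The volume of a fundamental domain is one
(`IsFundamentalDomain.measure_eq`), so that the constant determinant has absolute value one, and
then `IsFundamentalDomain.setIntegral_eq` and the change of variables. The integral over the closed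
cube is the integral over the half open cube. -/
theorem integral_comp (F : R k → H) (hF : Continuous F)
    (hL : ∀ (m : Fin k → ℤ) x, F (N.mul (intV m) x) = F x)
    (ψ : R k → R k) (hψ : ContDiff ℝ ∞ ψ) (hb : Function.Bijective ψ) (δ : ℝ)
    (hδ : ∀ x, (fderiv ℝ ψ x).det = δ) (hδ0 : δ ≠ 0)
    (h1 : ∀ (m : Fin k → ℤ), ∃ l : Fin k → ℤ, ∀ x, ψ (N.mul (intV m) x) = N.mul (intV l) (ψ x))
    (h2 : ∀ (l : Fin k → ℤ), ∃ m : Fin k → ℤ, ∀ x, ψ (N.mul (intV m) x) = N.mul (intV l) (ψ x)) :
    ∫ x in Set.Icc (0 : R k) 1, F (ψ x) = ∫ x in Set.Icc (0 : R k) 1, F x := by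
  have := hF
  have := hδ0
  have hd : ∀ x, HasFDerivAt ψ (fderiv ℝ ψ x) x := fun x =>
    ((hψ.differentiable (by simp)) x).hasFDerivAt
  have hcube : IsFundamentalDomain N.lattice (MeanC_cube k) volume := N.isFundamentalDomain_cube
  have himg := N.MeanC_image ψ hψ hb h1 h2
  have := N.MeanC_countable
  have := N.MeanC_measurable
  have := N.smulInvariant
  have hvol : (volume : Measure (R k)) (ψ '' MeanC_cube k) = 1 := by
    rw [himg.measure_eq hcube, MeanC_cube_volume]
  have hdet : |δ| = 1 := by
    have h := lintegral_abs_det_fderiv_eq_addHaar_image (volume : Measure (R k))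
      (MeanC_cube_meas (k := k)) (f := ψ) (f' := fun x => fderiv ℝ ψ x)
      (fun x _ => (hd x).hasFDerivWithinAt) hb.injective.injOn
    simp only [hδ] at h
    rw [setLIntegral_const, MeanC_cube_volume, hvol, mul_one] at h
    have h3 : |δ| = (ENNReal.ofReal |δ|).toReal := (ENNReal.toReal_ofReal (abs_nonneg δ)).symm
    rw [h3, h]
    simp
  have hcv := integral_image_eq_integral_abs_det_fderiv_smul (volume : Measure (R k))
    (MeanC_cube_meas (k := k)) (f := ψ) (f' := fun x => fderiv ℝ ψ x)
    (fun x _ => (hd x).hasFDerivWithinAt) hb.injective.injOn F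
  simp only [hδ, hdet, one_smul] at hcv
  have hinv : ∫ x in ψ '' MeanC_cube k, F x = ∫ x in MeanC_cube k, F x := by
    refine himg.setIntegral_eq hcube fun σ x => ?_
    obtain ⟨m, hm⟩ := N.MeanA_smul σ
    rw [hm x, hL]
  rw [← setIntegral_congr_set (MeanC_cube_ae (k := k)),
    ← setIntegral_congr_set (MeanC_cube_ae (k := k)), ← hcv, hinv]

end NilLaw

end Pool.Agent.W_9986fc_h24
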