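import Pool.Agent.W_9986fc_h24.Defs

/-!
Nilpotent Lie groups with a lattice in Malcev coordinates, and bundles of nilmanifolds.
-/

set_option autoImplicit false
set_option maxSynthPendingDepth 3

open scoped ContDiff
open Pool.Agent.W_9986fc_h15

namespace Pool.Agent.W_9986fc_h24

/-- A simply connected nilpotent Lie group with a lattice, in Malcev coordinates: a smooth group law
on `ℝ^k` with unit `0`, such that the `j`-th coordinate of `x * y` is `x j + y j` plus a function of
the coordinates `x i, y i` with `i < j`, and such that `ℤ^k` is closed under the multiplication (the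
inverses exist and `ℤ^k` is a subgroup, by triangularity). -/
structure NilLaw (k : ℕ) where
  mul : R k → R k → R k
  smooth : ContDiff ℝ ∞ (fun p : R k × R k => mul p.1 p.2)
  assoc : ∀ x y w, mul (mul x y) w = mul x (mul y w)
  zero_mul : ∀ x, mul 0 x = x
  mul_zero : ∀ x, mul x 0 = x
  tri : ∀ (j : Fin k) (x x' y y' : R k), (∀ i, i < j → x i = x' i) → (∀ i, i < j → y i = y' i) →
    mul x y j - x j - y j = mul x' y' j - x' j - y' j
  int : ∀ m m' : Fin k → ℤ, ∃ l : Fin k → ℤ, mul (intV m) (intV m') = intV l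

namespace NilLaw

variable {k b : ℕ} (N : NilLaw k)

/-- The left invariant frame at `x`: the derivative of the left translation by `x` at the unit. -/
noncomputable def q (x : R k) : R k →L[ℝ] R k := fderiv ℝ (N.mul x) 0

/-- The frame of `ℝ^k × ℝ^b`: left invariant fields on the group and constant fields on `ℝ^b`. -/
noncomputable def Q (p : V k b) : V k b →L[ℝ] V k b :=
  (N.q p.1).prodMap (ContinuousLinearMap.id ℝ (R b))

/-- The Lie bracket of the Lie algebra `ℝ^k`. -/
noncomputable def br : R k →L[ℝ] R k →L[ℝ] R k := fderiv ℝ N.q 0 - (fderiv ℝ N.q 0).flip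

/-- The bracket of the frame of `ℝ^k × ℝ^b`: `[(u, w), (u', w')] = ([u, u'], 0)`. -/
noncomputable def brV : V k b →L[ℝ] V k b →L[ℝ] V k b :=
  (ContinuousLinearMap.compL ℝ (V k b) (R k) (V k b) (ContinuousLinearMap.inl ℝ (R k) (R b))).comp
    (N.br.bilinearComp (ContinuousLinearMap.fst ℝ (R k) (R b))
      (ContinuousLinearMap.fst ℝ (R k) (R b)))

variable {H : Type*} [NormedAddCommGroup H] [NormedSpace ℝ H]

/-- The derivative of `F` along the frame. -/
noncomputable def D (F : V k b → H) (p : V k b) : V k b →L[ℝ] H := (fderiv ℝ F p).comp (N.Q p)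

/-- The coefficients of a 1-form in the frame. -/
noncomputable def hat1 (η : V k b → V k b →L[ℝ] ℝ) (p : V k b) : V k b →L[ℝ] ℝ :=
  (η p).comp (N.Q p)

/-- The coefficients of a 2-form in the frame. -/
noncomputable def hat2 (α : V k b → V k b →L[ℝ] V k b →L[ℝ] ℝ) (p : V k b) :
    V k b →L[ℝ] V k b →L[ℝ] ℝ := (α p).bilinearComp (N.Q p) (N.Q p)

/-- The exterior derivative of a 1-form in terms of its coefficients in the frame:
`(u, v) ↦ D_u η (v) - D_v η (u) - η [u, v]`. -/
noncomputable def hd1 (η : V k b → V k b →L[ℝ] ℝ) (p : V k b) : V k b →L[ℝ] V k b →L[ℝ] ℝ :=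
  N.D η p - (N.D η p).flip -
    (ContinuousLinearMap.compL ℝ (V k b) (V k b) ℝ (η p)).comp N.brV

/-- Closedness of a 2-form in terms of its coefficients in the frame. -/
def HCl2 (ξ : V k b → V k b →L[ℝ] V k b →L[ℝ] ℝ) : Prop := ∀ p u v w,
  (N.D ξ p u v w - ξ p (N.brV u v) w) + (N.D ξ p v w u - ξ p (N.brV v w) u) +
    (N.D ξ p w u v - ξ p (N.brV w u) v) = 0

/-- Invariance of a function under the lattice. -/
def Lam {H : Type*} (F : V k b → H) : Prop :=
  ∀ (m : Fin k → ℤ) x z, F (N.mul (intV m) x, z) = F (x, z)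

/-- Closed alternating bilinear forms on the Lie algebra: left invariant closed 2-forms. -/
def ClosedC (c : R k →L[ℝ] R k →L[ℝ] ℝ) : Prop :=
  (∀ u, c u u = 0) ∧ ∀ u v w, c (N.br u v) w + c (N.br v w) u + c (N.br w u) v = 0

end NilLaw

/-- `F` depends only on the coordinates `x i` with `i < j` and on `z`. -/
def Dep {k b : ℕ} {H : Type*} (j : ℕ) (F : V k b → H) : Prop :=
  ∀ x x' z, (∀ i : Fin k, (i : ℕ) < j → x i = x' i) → F (x, z) = F (x', z)

/-- The `j`-th coordinate vector of `ℝ^k`, in `ℝ^k × ℝ^b`. -/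
def dir {k b : ℕ} (j : Fin k) : V k b := (Pi.single j 1, 0)

/-- A bundle of nilmanifolds `M = (ℝ^k × ℝ^b) / Γ → ℝ^b / G`: the group `Γ` is an extension of `G` by
the lattice `ℤ^k` of the nilpotent group `(ℝ^k, N.mul)`, which acts by left translations on the
fibres, and the elements of `Γ` act by fibrewise affine maps
`(x, z) ↦ (A γ x * m γ z, π γ • z)`, where `A γ` is an automorphism preserving the lattice. -/
structure NilBundle {k : ℕ} (N : NilLaw k) (b : ℕ) (Γ G : Type) [Group Γ] [Group G]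
    [MulAction Γ (V k b)] [MulAction G (R b)] where
  π : Γ →* G
  surj : Function.Surjective π
  lam : (Fin k → ℤ) → Γ
  ker : ∀ γ, π γ = 1 ↔ ∃ n, γ = lam n
  lam_act : ∀ n x z, lam n • ((x, z) : V k b) = (N.mul (intV n) x, z)
  A : Γ → R k → R k
  m : Γ → R b → R k
  smoothA : ∀ γ, ContDiff ℝ ∞ (A γ)
  smoothm : ∀ γ, ContDiff ℝ ∞ (m γ)
  hom : ∀ γ x y, A γ (N.mul x y) = N.mul (A γ x) (A γ y)
  lat : ∀ γ (n : Fin k → ℤ), ∃ l : Fin k → ℤ, A γ (intV n) = intV l
  lat' : ∀ γ (l : Fin k → ℤ), ∃ n : Fin k → ℤ, A γ (intV n) = intV l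
  act : ∀ γ x z, γ • ((x, z) : V k b) = (N.mul (A γ x) (m γ z), π γ • z)

namespace NilBundle

variable {k b : ℕ} {N : NilLaw k} {Γ G : Type} [Group Γ] [Group G]
    [MulAction Γ (V k b)] [MulAction G (R b)] (X : NilBundle N b Γ G)

/-- The derivative of `γ` in the frames at the points `p` and `γ • p`: the linear map `T` with
`Q (γ • p) ∘ T = D γ (p) ∘ Q p`. -/
noncomputable def Th (N : NilLaw k) (γ : Γ) (p : V k b) : V k b →L[ℝ] V k b :=
  (N.Q (γ • p)).inverse.comp ((fderiv ℝ (fun x : V k b => γ • x) p).comp (N.Q p))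

/-- The automorphism of the Lie algebra induced by `γ` at the point `(0, z)`. -/
noncomputable def a (N : NilLaw k) (γ : Γ) (z : R b) : R k →L[ℝ] R k :=
  (ContinuousLinearMap.fst ℝ (R k) (R b)).comp
    ((Th N γ ((0, z) : V k b)).comp (ContinuousLinearMap.inl ℝ (R k) (R b)))

/-- The class of the closed form `c` in the cohomology of the Lie algebra is invariant under the
monodromy. -/
def InvClass (_X : NilBundle N b Γ G) (c : R k →L[ℝ] R k →L[ℝ] ℝ) : Prop :=
  ∀ (γ : Γ) (z : R b), ∃ μ : R k →L[ℝ] ℝ, ∀ u v,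
    c (a N γ z u) (a N γ z v) = c u v + μ (N.br u v)

/-- The monodromy is large: a closed form on the Lie algebra whose class is invariant and whose
kernel has dimension at most `b` is nondegenerate. -/
def Large (X : NilBundle N b Γ G) : Prop :=
  ∀ c : R k →L[ℝ] R k →L[ℝ] ℝ, N.ClosedC c → X.InvClass c →
    Module.finrank ℝ (kerC c) ≤ b → kerC c = ⊥

end NilBundle

end Pool.Agent.W_9986fc_h24
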