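import Pool.Agent.W_9986fc_h24.Nil.Stage

/-!
The Nomizu theorem with parameters for 2-forms.
-/

set_option autoImplicit false
set_option maxSynthPendingDepth 3

open scoped ContDiff
open Pool.Agent.W_9986fc_h15 MeasureTheory

namespace Pool.Agent.W_9986fc_h24

namespace NilLaw

variable {k b : ℕ} (N : NilLaw k)

theorem Prim2_hd1_zero (p : V k b) : N.hd1 (fun _ => 0) p = 0 := by
  refine ContinuousLinearMap.ext fun u => ContinuousLinearMap.ext fun v => ?_
  rw [hd1_apply]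
  simp [NilLaw.D]

theorem Prim2_main (n : ℕ) : n ≤ k → ∀ ξ : V k b → V k b →L[ℝ] V k b →L[ℝ] ℝ, N.Good n ξ →
    ∃ (ξ₀ : V k b → V k b →L[ℝ] V k b →L[ℝ] ℝ) (η : V k b → V k b →L[ℝ] ℝ),
      N.Good 0 ξ₀ ∧ ContDiff ℝ ∞ η ∧ N.Lam η ∧ (∀ z, mean η z = 0) ∧
      ∀ p, ξ p = ξ₀ p + N.hd1 η p := by
  induction n with
  | zero =>
    intro _ ξ hξ
    refine ⟨ξ, fun _ => 0, hξ, contDiff_const, fun _ _ _ => rfl, fun z => mean_const 0 z, ?_⟩
    intro p
    rw [Prim2_hd1_zero, add_zero]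
  | succ n ih =>
    intro hn ξ hξ
    obtain ⟨hg, η₁, hs₁, hl₁, hm₁, he₁⟩ := N.stage2 (⟨n, hn⟩ : Fin k) ξ hξ
    obtain ⟨ξ₀, η₂, hg₀, hs₂, hl₂, hm₂, he₂⟩ := ih (Nat.le_of_succ_le hn) _ hg
    refine ⟨ξ₀, fun p => η₂ p + η₁ p, hg₀, hs₂.add hs₁, ?_, ?_, ?_⟩
    · intro m x z
      change η₂ (N.mul (intV m) x, z) + η₁ (N.mul (intV m) x, z) = η₂ (x, z) + η₁ (x, z)
      rw [hl₁ m x z, hl₂ m x z]
    · intro z
      rw [mean_add_fun η₂ η₁ hs₂.continuous hs₁.continuous, hm₁, hm₂, add_zero]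
    · intro p
      rw [N.hd1_add η₂ η₁ hs₂ hs₁, he₁ p, he₂ p, add_assoc]

/-- Every closed 2-form, invariant under the lattice, is its mean plus the exterior derivative of a
lattice invariant 1-form with mean zero (in terms of coefficients): apply `stage2` for
`j = k - 1, ..., 0` (induction on the number of coordinates on which the form depends; every function
satisfies `Dep k`). The resulting form satisfies `Dep 0`, hence is equal to its mean
(`mean_dep_zero`), which is the mean of the original form by `mean_hd1`. -/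
theorem exists_prim2 (ξ : V k b → V k b →L[ℝ] V k b →L[ℝ] ℝ) (hξ : IsForm ξ) (hL : N.Lam ξ)
    (hc : N.HCl2 ξ) :
    ∃ η : V k b → V k b →L[ℝ] ℝ, ContDiff ℝ ∞ η ∧ N.Lam η ∧ (∀ z, mean η z = 0) ∧
      ∀ p, ξ p = mean ξ p.2 + N.hd1 η p := by
  have hk : N.Good k ξ :=
    { smooth := hξ.smooth
      alt := hξ.alt
      dep := by
        intro x x' z hx
        have h1 : x = x' := funext fun i => hx i i.2
        rw [h1]
      lam := hL
      closed := hc }
  obtain ⟨ξ₀, η, hg, hs, hl, hm, he⟩ := N.Prim2_main k le_rfl ξ hk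
  refine ⟨η, hs, hl, hm, ?_⟩
  intro p
  have h1 : ξ = fun p => ξ₀ p + N.hd1 η p := funext he
  have h2 : mean ξ p.2 = ξ₀ p := by
    rw [h1, mean_add_fun ξ₀ (N.hd1 η) hg.smooth.continuous (N.contDiff_hd1 η hs).continuous,
      N.mean_hd1 η hs hl hm, add_zero, mean_dep_zero ξ₀ hg.dep p]
  rw [h2]
  exact he p

end NilLaw

end Pool.Agent.W_9986fc_h24
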