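import Pool.Agent.W_9986fc_h24.Nil.StageA

/-!
One stage of the averaging for 2-forms.
-/

set_option autoImplicit false
set_option maxSynthPendingDepth 3

open scoped ContDiff
open Pool.Agent.W_9986fc_h15 MeasureTheory

namespace Pool.Agent.W_9986fc_h24

namespace NilLaw

variable {k b : ℕ} (N : NilLaw k)

theorem Stage_alt_swap (q : V k b →L[ℝ] V k b →L[ℝ] ℝ) (h : ∀ u, q u u = 0) (u v : V k b) :
    q u v = - q v u := by
  have h1 := h (u + v)
  simp only [map_add, ContinuousLinearMap.add_apply, h, zero_add, add_zero] at h1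
  linarith

/-- The average of the primitive of a periodic function with average zero is zero. -/
theorem Stage_avg_prim {E : Type*} [NormedAddCommGroup E] [NormedSpace ℝ E]
    {H : Type*} [NormedAddCommGroup H] [NormedSpace ℝ H] [CompleteSpace H]
    (e : E) (F : E → H) (hF : ContDiff ℝ ∞ F) (hper : ∀ x, F (x + e) = F x)
    (h0 : ∀ x, avg e F x = 0) (x : E) : avg e (prim e F) x = 0 := by
  have hw : Continuous fun t : ℝ => t - 1 / 2 := continuous_id.sub continuous_const
  have hP : ContDiff ℝ ∞ (prim e F) := contDiff_prim e F hF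
  have hPper : ∀ y, prim e F (y + e) = prim e F y := by
    intro y
    rw [← wavg_prim]
    exact wavg_add _ e F e hper y
  have h1 := fderiv_prim_self e (prim e F) hP hPper x
  have h2 : fderiv ℝ (prim e (prim e F)) x e = prim e F x := by
    rw [fderiv_prim e (prim e F) hP x, ← wavg_prim]
    have hc' : Continuous (fderiv ℝ (prim e F)) := hP.continuous_fderiv (by norm_num)
    have h3 := wavg_clm (ContinuousLinearMap.apply ℝ H e) (fun t : ℝ => t - 1 / 2) hw e
      (fderiv ℝ (prim e F)) hc' x
    simp only [ContinuousLinearMap.apply_apply] at h3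
    rw [← h3]
    have h4 : (fun y => fderiv ℝ (prim e F) y e) = F := by
      funext y
      rw [fderiv_prim_self e F hF hper y, h0 y, sub_zero]
    rw [h4, wavg_prim]
  rw [h2] at h1
  have h5 : avg e (prim e F) x = prim e F x - prim e F x := by
    rw [eq_sub_iff_add_eq]
    rw [eq_sub_iff_add_eq] at h1
    rw [add_comm]
    exact h1
  rw [h5, sub_self]

/-- One step: let `f` be as in `Good (j + 1)`, with `avg (dir j) f = 0`. Then
`f = hd1 (ι) - nu2 (prim f)`, where `ι p = prim f p (dir j)`: by `cartan2` for `prim f` and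
`D (prim f) (dir j) = fderiv (prim f) (dir j) = f - avg f` (`D_dir`, `fderiv_prim_self`,
`periodic_dir`). The function `f₁ = - nu2 (prim f)` has the same properties as `f`: it is closed since
`f` and `hd1 ι` are (`hcl2_hd1`, `HCl2.sub`), its average is `- nu2 (avg (prim f)) = 0` (the average of
`prim f` is zero: exchange the integrals and use periodicity, or differentiate). -/
theorem step2 (j : Fin k) (f : V k b → V k b →L[ℝ] V k b →L[ℝ] ℝ) (h : N.Good (j + 1) f)
    (h0 : ∀ p, avg (dir j : V k b) f p = 0) :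
    N.Good (j + 1) (fun p => - N.nu2 j (prim (dir j : V k b) f p)) ∧
    (∀ p, avg (dir j : V k b) (fun p => - N.nu2 j (prim (dir j : V k b) f p)) p = 0) ∧
    ∀ p, f p = N.hd1 (fun p => prim (dir j : V k b) f p (dir j)) p +
      (- N.nu2 j (prim (dir j : V k b) f p)) := by
  have hw : Continuous fun t : ℝ => t - 1 / 2 := continuous_id.sub continuous_const
  have hP : N.Good (j + 1) (prim (dir j : V k b) f) := by
    rw [← wavg_prim]
    exact N.good_wavg j h _ hw
  have hper : ∀ p, f (p + dir j) = f p := fun p => N.periodic_dir j h.dep h.lam p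
  have h3 : ∀ p, f p = N.hd1 (fun p => prim (dir j : V k b) f p (dir j)) p +
      (- N.nu2 j (prim (dir j : V k b) f p)) := by
    intro p
    have h1 := N.cartan2 j (prim (dir j : V k b) f) hP.toIsForm hP.closed p
    have h2 := N.D_dir j hP.dep hP.smooth p
    have h4 := fderiv_prim_self (dir j : V k b) f h.smooth hper p
    rw [h0 p, sub_zero] at h4
    rw [h2, h4] at h1
    rw [← h1]
    abel
  have hι : ContDiff ℝ ∞ (fun p => prim (dir j : V k b) f p (dir j)) :=
    hP.smooth.clm_apply contDiff_const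
  refine ⟨?_, ?_, h3⟩
  · refine { smooth := ?_, alt := ?_, dep := ?_, lam := ?_, closed := ?_ }
    · exact ((N.nu2 j).contDiff.comp hP.smooth).neg
    · intro x u
      have h5 := N.nu2_apply j (prim (dir j : V k b) f x) u u
      have h6 := Stage_alt_swap (prim (dir j : V k b) f x) (hP.alt x) u (N.brV (dir j) u)
      show (- N.nu2 j (prim (dir j : V k b) f x)) u u = 0
      rw [ContinuousLinearMap.neg_apply, ContinuousLinearMap.neg_apply, h5, h6]
      ring
    · intro x x' z hx
      show - N.nu2 j (prim (dir j : V k b) f (x, z)) = - N.nu2 j (prim (dir j : V k b) f (x', z))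
      rw [hP.dep x x' z hx]
    · intro m x z
      show - N.nu2 j (prim (dir j : V k b) f (N.mul (intV m) x, z)) =
        - N.nu2 j (prim (dir j : V k b) f (x, z))
      rw [hP.lam m x z]
    · have h7 : (fun p => - N.nu2 j (prim (dir j : V k b) f p)) =
          fun p => f p - N.hd1 (fun p => prim (dir j : V k b) f p (dir j)) p := by
        funext p
        have h8 := h3 p
        rw [eq_sub_iff_add_eq, add_comm]
        exact h8.symm
      rw [h7]
      exact HCl2.sub N h.smooth (N.contDiff_hd1 _ hι) h.closed (N.hcl2_hd1 _ hι)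
  · intro p
    have h9 := wavg_clm (-(N.nu2 j : (V k b →L[ℝ] V k b →L[ℝ] ℝ) →L[ℝ] _)) (fun _ => (1 : ℝ))
      continuous_const (dir j : V k b) (prim (dir j : V k b) f) hP.smooth.continuous p
    rw [wavg_one, wavg_one, Stage_avg_prim (dir j : V k b) f h.smooth hper h0 p, map_zero] at h9
    exact h9

/-- The iteration of `step2`. -/
theorem Stage_iter (j : Fin k) (f : V k b → V k b →L[ℝ] V k b →L[ℝ] ℝ) (h : N.Good (j + 1) f)
    (h0 : ∀ p, avg (dir j : V k b) f p = 0) (n : ℕ) :
    ∃ (η : V k b → V k b →L[ℝ] ℝ) (g g' : V k b → V k b →L[ℝ] V k b →L[ℝ] ℝ),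
      ContDiff ℝ ∞ η ∧ N.Lam η ∧ (∀ z, mean η z = 0) ∧ N.Good (j + 1) g ∧
      (∀ p, avg (dir j : V k b) g p = 0) ∧ Continuous g' ∧
      (∀ p, g p = ((N.nu2 j : (V k b →L[ℝ] V k b →L[ℝ] ℝ) →L[ℝ] _) ^ n) (g' p)) ∧
      ∀ p, f p = N.hd1 η p + g p := by
  have hw : Continuous fun t : ℝ => t - 1 / 2 := continuous_id.sub continuous_const
  induction n with
  | zero =>
    refine ⟨fun _ => 0, f, f, contDiff_const, fun _ _ _ => rfl, fun z => ?_, h, h0,
      h.smooth.continuous, fun p => ?_, fun p => ?_⟩
    · unfold mean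
      simp
    · rw [pow_zero]
      rfl
    · have h1 : N.hd1 (fun _ => 0) p = 0 := by
        refine ContinuousLinearMap.ext fun u => ContinuousLinearMap.ext fun v => ?_
        rw [N.hd1_apply]
        simp [D]
      rw [h1, zero_add]
  | succ n ih =>
    obtain ⟨η, g, g', h1, h2, h3, h4, h5, h6, h7, h8⟩ := ih
    obtain ⟨s1, s2, s3⟩ := N.step2 j g h4 h5
    have hP : N.Good (j + 1) (prim (dir j : V k b) g) := by
      rw [← wavg_prim]
      exact N.good_wavg j h4 _ hw
    have hι : ContDiff ℝ ∞ (fun p => prim (dir j : V k b) g p (dir j)) :=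
      hP.smooth.clm_apply contDiff_const
    refine ⟨fun p => η p + prim (dir j : V k b) g p (dir j),
      fun p => - N.nu2 j (prim (dir j : V k b) g p), fun p => - prim (dir j : V k b) g' p,
      h1.add hι, ?_, ?_, s1, s2, ?_, ?_, ?_⟩
    · intro m x z
      show η (N.mul (intV m) x, z) + prim (dir j : V k b) g (N.mul (intV m) x, z) (dir j) =
        η (x, z) + prim (dir j : V k b) g (x, z) (dir j)
      rw [h2 m x z, hP.lam m x z]
    · intro z
      rw [mean_add_fun η (fun p => prim (dir j : V k b) g p (dir j)) h1.continuous hι.continuous z,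
        h3 z, zero_add]
      have h9 := mean_clm (fun _ => ContinuousLinearMap.apply ℝ (V k b →L[ℝ] ℝ) (dir j : V k b))
        (prim (dir j : V k b) g) hP.smooth.continuous z
      simp only [ContinuousLinearMap.apply_apply] at h9
      rw [h9, N.mean_prim_dir j g h4.smooth.continuous h4.dep h4.lam z]
      rfl
    · have h10 : Continuous fun p : V k b × ℝ => (p.2 - 1 / 2) • g' (p.1 + p.2 • (dir j : V k b)) :=
        (hw.comp continuous_snd).smul (h6.comp (Avg_seg (dir j : V k b)))
      exact (intervalIntegral.continuous_parametric_intervalIntegral_of_continuous' h10 0 1).neg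
    · intro p
      have h11 : g = fun p =>
          ((N.nu2 j : (V k b →L[ℝ] V k b →L[ℝ] ℝ) →L[ℝ] _) ^ n) (g' p) := funext h7
      have h12 := wavg_clm ((N.nu2 j : (V k b →L[ℝ] V k b →L[ℝ] ℝ) →L[ℝ] _) ^ n)
        (fun t : ℝ => t - 1 / 2) hw (dir j : V k b) g' h6 p
      rw [wavg_prim, wavg_prim, ← h11] at h12
      show - N.nu2 j (prim (dir j : V k b) g p) = _
      rw [h12, map_neg, pow_succ']
      rfl
    · intro p
      rw [h8 p, N.hd1_add η _ h1 hι p, add_assoc, ← s3 p]

/-- The stage for 2-forms. Apply `step2` `2 * k` times, starting with `f = ξ - avg ξ`; after `n` steps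
the remaining form is `(- nu2) ^ n (prim ^ n f)`, since `nu2` commutes with `prim` (`wavg_clm`), and it
vanishes for `n = 2 * k` (`nu2_pow`). The sum `η` of the 1-forms has mean zero
(`mean_prim_dir`, `mean_clm`). -/
theorem stage2 (j : Fin k) (ξ : V k b → V k b →L[ℝ] V k b →L[ℝ] ℝ) (h : N.Good (j + 1) ξ) :
    N.Good (j : ℕ) (avg (dir j : V k b) ξ) ∧
    ∃ η : V k b → V k b →L[ℝ] ℝ, ContDiff ℝ ∞ η ∧ N.Lam η ∧ (∀ z, mean η z = 0) ∧
      ∀ p, ξ p = avg (dir j : V k b) ξ p + N.hd1 η p := by
  have hA : N.Good (j + 1) (avg (dir j : V k b) ξ) := by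
    rw [← wavg_one]
    exact N.good_wavg j h _ continuous_const
  have hdep : Dep (j : ℕ) (avg (dir j : V k b) ξ) := N.dep_avg j h.dep h.lam h.smooth.continuous
  have hper : ∀ p, ξ (p + dir j) = ξ p := fun p => N.periodic_dir j h.dep h.lam p
  refine ⟨{ smooth := hA.smooth, alt := hA.alt, dep := hdep, lam := hA.lam, closed := hA.closed },
    ?_⟩
  have hf : N.Good (j + 1) (fun p => ξ p - avg (dir j : V k b) ξ p) := by
    refine { smooth := h.smooth.sub hA.smooth, alt := ?_, dep := ?_, lam := ?_, closed := ?_ }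
    · intro x u
      show (ξ x - avg (dir j : V k b) ξ x) u u = 0
      rw [ContinuousLinearMap.sub_apply, ContinuousLinearMap.sub_apply, h.alt, hA.alt, sub_zero]
    · intro x x' z hx
      show ξ (x, z) - avg (dir j : V k b) ξ (x, z) = ξ (x', z) - avg (dir j : V k b) ξ (x', z)
      rw [h.dep x x' z hx, hA.dep x x' z hx]
    · intro m x z
      show ξ (N.mul (intV m) x, z) - avg (dir j : V k b) ξ (N.mul (intV m) x, z) =
        ξ (x, z) - avg (dir j : V k b) ξ (x, z)
      rw [h.lam m x z, hA.lam m x z]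
    · exact HCl2.sub N h.smooth hA.smooth h.closed hA.closed
  have hf0 : ∀ p, avg (dir j : V k b) (fun p => ξ p - avg (dir j : V k b) ξ p) p = 0 := by
    intro p
    have h1 : avg (dir j : V k b) (fun p => ξ p - avg (dir j : V k b) ξ p) p =
        avg (dir j : V k b) ξ p - avg (dir j : V k b) (avg (dir j : V k b) ξ) p := by
      unfold avg
      rw [← intervalIntegral.integral_sub]
      · exact (h.smooth.continuous.comp (Avg_line (dir j : V k b) p)).intervalIntegrable 0 1
      · exact (hA.smooth.continuous.comp (Avg_line (dir j : V k b) p)).intervalIntegrable 0 1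
    have h2 : avg (dir j : V k b) (avg (dir j : V k b) ξ) p = avg (dir j : V k b) ξ p := by
      have h3 : ∀ t : ℝ, avg (dir j : V k b) ξ (p + t • dir j) = avg (dir j : V k b) ξ p :=
        fun t => avg_add_smul (dir j : V k b) ξ h.smooth.continuous hper p t
      show ∫ t in (0 : ℝ)..1, avg (dir j : V k b) ξ (p + t • dir j) = _
      simp only [h3]
      simp
    rw [h1, h2, sub_self]
  obtain ⟨η, g, g', h1, h2, h3, _, _, _, h7, h8⟩ := N.Stage_iter j _ hf hf0 (2 * k)
  refine ⟨η, h1, h2, h3, fun p => ?_⟩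
  have h9 : g p = 0 := by
    rw [h7 p, N.nu2_pow]
    rfl
  have h10 := h8 p
  rw [h9, add_zero] at h10
  rw [← h10]
  abel

end NilLaw

end Pool.Agent.W_9986fc_h24
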