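import Pool.Agent.W_9986fc_h24.Nil.Stage1A

/-!
One stage of the averaging for 1-forms.
-/

set_option autoImplicit false
set_option maxSynthPendingDepth 3

open scoped ContDiff
open Pool.Agent.W_9986fc_h15 MeasureTheory

namespace Pool.Agent.W_9986fc_h24

section aux

variable {E : Type*} [NormedAddCommGroup E] [NormedSpace ℝ E]
  {H : Type*} [NormedAddCommGroup H] [NormedSpace ℝ H] [CompleteSpace H]

theorem Stage1_avg_prim (e : E) (F : E → H) (hF : Continuous F) (hper : ∀ x, F (x + e) = F x)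
    (x : E) : avg e (prim e F) x = 0 := by
  have hc : Continuous (Function.uncurry fun t s : ℝ => (s - 1 / 2) • F (x + t • e + s • e)) := by
    have h1 : Continuous fun p : ℝ × ℝ => (p.2 - 1 / 2) • F (x + p.1 • e + p.2 • e) := by
      fun_prop
    exact h1
  have hint : IntegrableOn (Function.uncurry fun t s : ℝ => (s - 1 / 2) • F (x + t • e + s • e))
      (Set.uIoc 0 1 ×ˢ Set.uIoc 0 1) := by
    refine IntegrableOn.mono_set (hc.continuousOn.integrableOn_compact
      ((isCompact_uIcc (a := (0 : ℝ)) (b := 1)).prod (isCompact_uIcc (a := (0 : ℝ)) (b := 1)))) ?_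
    exact Set.prod_mono Set.uIoc_subset_uIcc Set.uIoc_subset_uIcc
  have h1 : avg e (prim e F) x = ∫ t in (0 : ℝ)..1, ∫ s in (0 : ℝ)..1,
      (s - 1 / 2) • F (x + t • e + s • e) := rfl
  rw [h1, intervalIntegral_intervalIntegral_swap hint]
  have h2 : ∀ s : ℝ, ∫ t in (0 : ℝ)..1, (s - 1 / 2) • F (x + t • e + s • e) =
      (s - 1 / 2) • avg e F x := by
    intro s
    rw [intervalIntegral.integral_smul, ← avg_add_smul e F hF hper x s]
    congr 1
    refine intervalIntegral.integral_congr fun t _ => ?_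
    show F (x + t • e + s • e) = F (x + s • e + t • e)
    congr 1
    abel
  simp only [h2]
  rw [intervalIntegral.integral_smul_const]
  have h3 : ∫ t in (0 : ℝ)..1, (t - 1 / 2) = 0 := by
    rw [intervalIntegral.integral_sub (by simp) (by simp)]
    simp
  rw [h3, zero_smul]

theorem Stage1_wavg_sub (w : ℝ → ℝ) (hw : Continuous w) (e : E) (F F' : E → H)
    (hF : Continuous F) (hF' : Continuous F') (x : E) :
    wavg w e (fun x => F x - F' x) x = wavg w e F x - wavg w e F' x := by
  unfold wavg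
  rw [← intervalIntegral.integral_sub (Avg_int w hw e F hF x) (Avg_int w hw e F' hF' x)]
  refine intervalIntegral.integral_congr fun t _ => ?_
  exact smul_sub _ _ _

end aux

namespace NilLaw

variable {k b : ℕ} (N : NilLaw k)

theorem Stage1_D_add {H : Type*} [NormedAddCommGroup H] [NormedSpace ℝ H]
    (F F' : V k b → H) (hF : ContDiff ℝ ∞ F) (hF' : ContDiff ℝ ∞ F') (p : V k b) :
    N.D (fun p => F p + F' p) p = N.D F p + N.D F' p := by
  unfold D
  rw [fderiv_fun_add (hF.differentiable (by simp) p) (hF'.differentiable (by simp) p)]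
  exact ContinuousLinearMap.add_comp _ _ _

theorem Stage1_D_sub {H : Type*} [NormedAddCommGroup H] [NormedSpace ℝ H]
    (F F' : V k b → H) (hF : ContDiff ℝ ∞ F) (hF' : ContDiff ℝ ∞ F') (p : V k b) :
    N.D (fun p => F p - F' p) p = N.D F p - N.D F' p := by
  unfold D
  rw [fderiv_fun_sub (hF.differentiable (by simp) p) (hF'.differentiable (by simp) p)]
  exact ContinuousLinearMap.sub_comp _ _ _

theorem Stage1_hd1_sub (η η' : V k b → V k b →L[ℝ] ℝ) (h : ContDiff ℝ ∞ η)
    (h' : ContDiff ℝ ∞ η') (p : V k b) :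
    N.hd1 (fun p => η p - η' p) p = N.hd1 η p - N.hd1 η' p := by
  refine ContinuousLinearMap.ext fun u => ContinuousLinearMap.ext fun v => ?_
  rw [_root_.sub_apply, _root_.sub_apply, hd1_apply, hd1_apply, hd1_apply, N.Stage1_D_sub η η' h h' p]
  simp only [_root_.sub_apply]
  ring

theorem Stage1_wavg {j : Fin k} {θ : V k b → V k b →L[ℝ] ℝ} (h : N.Good1 (j + 1) θ) (w : ℝ → ℝ)
    (hw : Continuous w) : N.Good1 (j + 1) (wavg w (dir j : V k b) θ) := by
  refine ⟨contDiff_wavg w hw _ _ h.smooth, dep_wavg h.dep w j, N.lam_wavg j h.dep h.lam w, ?_⟩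
  intro p
  refine ContinuousLinearMap.ext fun u => ContinuousLinearMap.ext fun v => ?_
  have hDθ := N.Stage1A_contDiff_D θ h.smooth
  have e1 : ∀ u v, N.D (wavg w (dir j : V k b) θ) p u v =
      wavg w (dir j : V k b) (fun p => N.D θ p u v) p := by
    intro u v
    rw [N.D_wavg j h.dep h.smooth w hw p u]
    exact (wavg_clm (ContinuousLinearMap.apply ℝ ℝ v) w hw _ (fun p => N.D θ p u)
      (hDθ.continuous.clm_apply continuous_const) p).symm
  have e2 : (wavg w (dir j : V k b) θ p) (N.brV u v) =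
      wavg w (dir j : V k b) (fun p => θ p (N.brV u v)) p :=
    (wavg_clm (ContinuousLinearMap.apply ℝ ℝ (N.brV u v)) w hw _ θ h.smooth.continuous p).symm
  rw [hd1_apply, e1, e1, e2, ← Stage1_wavg_sub w hw, ← Stage1_wavg_sub w hw]
  · have e3 : (fun x => N.D θ x u v - N.D θ x v u - θ x (N.brV u v)) = fun _ => (0 : ℝ) := by
      funext x
      rw [← hd1_apply, h.closed x]
      rfl
    rw [e3]
    simp [wavg]
  · exact ((hDθ.continuous.clm_apply continuous_const).clm_apply continuous_const).sub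
      ((hDθ.continuous.clm_apply continuous_const).clm_apply continuous_const)
  · exact h.smooth.continuous.clm_apply continuous_const
  · exact (hDθ.continuous.clm_apply continuous_const).clm_apply continuous_const
  · exact (hDθ.continuous.clm_apply continuous_const).clm_apply continuous_const

theorem Stage1_Good1_avg {j : Fin k} {θ : V k b → V k b →L[ℝ] ℝ} (h : N.Good1 (j + 1) θ) :
    N.Good1 (j + 1) (avg (dir j : V k b) θ) := by
  rw [← wavg_one]
  exact N.Stage1_wavg h _ continuous_const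

theorem Stage1_Good1_prim {j : Fin k} {θ : V k b → V k b →L[ℝ] ℝ} (h : N.Good1 (j + 1) θ) :
    N.Good1 (j + 1) (prim (dir j : V k b) θ) := by
  rw [← wavg_prim]
  exact N.Stage1_wavg h _ (continuous_id.sub continuous_const)

/-- One step. -/
theorem Stage1_step (j : Fin k) (f : V k b → V k b →L[ℝ] ℝ) (h : N.Good1 (j + 1) f)
    (h0 : ∀ p, avg (dir j : V k b) f p = 0) :
    N.Good1 (j + 1) (fun p => - N.nu1 j (prim (dir j : V k b) f p)) ∧
    (∀ p, avg (dir j : V k b) (fun p => - N.nu1 j (prim (dir j : V k b) f p)) p = 0) ∧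
    ∀ p, f p = N.D (fun p => prim (dir j : V k b) f p (dir j)) p +
      (- N.nu1 j (prim (dir j : V k b) f p)) := by
  have hP := N.Stage1_Good1_prim h
  have hper : ∀ p, f (p + dir j) = f p := N.periodic_dir j h.dep h.lam
  have hι : ContDiff ℝ ∞ (fun p => prim (dir j : V k b) f p (dir j)) :=
    hP.smooth.clm_apply contDiff_const
  have key : ∀ p, f p = N.D (fun p => prim (dir j : V k b) f p (dir j)) p +
      (- N.nu1 j (prim (dir j : V k b) f p)) := by
    intro p
    have h1 := N.cartan1 j (prim (dir j : V k b) f) hP.smooth hP.closed p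
    rw [N.D_dir j hP.dep hP.smooth p, fderiv_prim_self (dir j : V k b) f h.smooth hper p, h0,
      sub_zero] at h1
    rw [← h1]
    abel
  have hfun : (fun p => - N.nu1 j (prim (dir j : V k b) f p)) =
      fun p => f p - N.D (fun p => prim (dir j : V k b) f p (dir j)) p := by
    funext p
    conv_rhs => rw [key p]
    abel
  refine ⟨⟨?_, ?_, ?_, ?_⟩, ?_, key⟩
  · exact ((N.nu1 j).contDiff.comp hP.smooth).neg
  · intro x x' z hx
    show - N.nu1 j (prim (dir j : V k b) f (x, z)) = - N.nu1 j (prim (dir j : V k b) f (x', z))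
    rw [hP.dep x x' z hx]
  · intro m x z
    show - N.nu1 j (prim (dir j : V k b) f (N.mul (intV m) x, z)) =
      - N.nu1 j (prim (dir j : V k b) f (x, z))
    rw [hP.lam m x z]
  · intro p
    rw [hfun, N.Stage1_hd1_sub _ _ h.smooth (N.Stage1A_contDiff_D _ hι) p, h.closed,
      N.hd1_D _ hι p, sub_zero]
  · intro p
    have h1 : (fun p => - N.nu1 j (prim (dir j : V k b) f p)) =
        fun p => (-N.nu1 j) (prim (dir j : V k b) f p) := rfl
    rw [h1, ← wavg_one, wavg_clm (-N.nu1 j) _ continuous_const _ _ hP.smooth.continuous p, wavg_one,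
      Stage1_avg_prim (dir j : V k b) f h.smooth.continuous hper p, map_zero]

theorem Stage1_iter (j : Fin k) (n : ℕ) : ∀ f : V k b → V k b →L[ℝ] ℝ, N.Good1 (j + 1) f →
    (∀ p, avg (dir j : V k b) f p = 0) →
    (∀ p, ((N.nu1 j : (V k b →L[ℝ] ℝ) →L[ℝ] _) ^ n) (f p) = 0) →
    ∃ g : V k b → ℝ, ContDiff ℝ ∞ g ∧ N.Lam g ∧ (∀ z, mean g z = 0) ∧ ∀ p, f p = N.D g p := by
  induction n with
  | zero =>
    intro f h h0 hn
    refine ⟨fun _ => 0, contDiff_const, fun _ _ _ => rfl, fun z => by simp [mean], fun p => ?_⟩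
    have h1 : f p = 0 := hn p
    rw [h1]
    unfold D
    rw [fderiv_fun_const]
    rfl
  | succ n ih =>
    intro f h h0 hn
    obtain ⟨h1, h2, h3⟩ := N.Stage1_step j f h h0
    have hP := N.Stage1_Good1_prim h
    obtain ⟨g, hg1, hg2, hg3, hg4⟩ := ih _ h1 h2 (by
      intro p
      have e1 : ((N.nu1 j : (V k b →L[ℝ] ℝ) →L[ℝ] _) ^ n) (- N.nu1 j (prim (dir j : V k b) f p)) =
          - ((N.nu1 j : (V k b →L[ℝ] ℝ) →L[ℝ] _) ^ (n + 1)) (prim (dir j : V k b) f p) := by
        rw [map_neg, pow_succ]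
        rfl
      have e2 := wavg_clm ((N.nu1 j : (V k b →L[ℝ] ℝ) →L[ℝ] _) ^ (n + 1)) (fun t => t - 1 / 2)
        (continuous_id.sub continuous_const) (dir j : V k b) f h.smooth.continuous p
      rw [wavg_prim, wavg_prim] at e2
      rw [e1, ← e2]
      simp only [hn]
      simp [prim])
    have hι : ContDiff ℝ ∞ (fun p => prim (dir j : V k b) f p (dir j)) :=
      hP.smooth.clm_apply contDiff_const
    refine ⟨fun p => prim (dir j : V k b) f p (dir j) + g p, hι.add hg1, ?_, ?_, ?_⟩
    · intro m x z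
      show prim (dir j : V k b) f (N.mul (intV m) x, z) (dir j) + g (N.mul (intV m) x, z) = _
      rw [hP.lam m x z, hg2 m x z]
    · intro z
      rw [mean_add_fun _ _ hι.continuous hg1.continuous, hg3, add_zero]
      have e3 := mean_clm (fun _ => ContinuousLinearMap.apply ℝ ℝ (dir j : V k b))
        (prim (dir j : V k b) f) hP.smooth.continuous z
      have e4 := N.mean_prim_dir j f h.smooth.continuous h.dep h.lam z
      rw [e4, map_zero] at e3
      exact e3
    · intro p
      rw [N.Stage1_D_add _ _ hι hg1 p, ← hg4 p]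
      exact h3 p

/-- The stage for 1-forms, as for 2-forms: start with `f = θ - avg θ`, which is `Good1 (j + 1)` with
average zero; then `f = D (prim f (dir j)) - nu1 (prim f)`, and `- nu1 (prim f)` has the same
properties; iterate `k` times. -/
theorem stage1 (j : Fin k) (θ : V k b → V k b →L[ℝ] ℝ) (h : N.Good1 (j + 1) θ) :
    N.Good1 (j : ℕ) (avg (dir j : V k b) θ) ∧
    ∃ f : V k b → ℝ, ContDiff ℝ ∞ f ∧ N.Lam f ∧ (∀ z, mean f z = 0) ∧
      ∀ p, θ p = avg (dir j : V k b) θ p + N.D f p := by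
  have hA := N.Stage1_Good1_avg h
  have hper : ∀ p, θ (p + dir j) = θ p := N.periodic_dir j h.dep h.lam
  refine ⟨⟨hA.smooth, N.dep_avg j h.dep h.lam h.smooth.continuous, hA.lam, hA.closed⟩, ?_⟩
  have hG : N.Good1 (j + 1) (fun p => θ p - avg (dir j : V k b) θ p) := by
    refine ⟨h.smooth.sub hA.smooth, ?_, ?_, ?_⟩
    · intro x x' z hx
      show θ (x, z) - avg (dir j : V k b) θ (x, z) = θ (x', z) - avg (dir j : V k b) θ (x', z)
      rw [h.dep x x' z hx, hA.dep x x' z hx]
    · intro m x z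
      show θ (N.mul (intV m) x, z) - avg (dir j : V k b) θ (N.mul (intV m) x, z) = _
      rw [h.lam m x z, hA.lam m x z]
    · intro p
      rw [N.Stage1_hd1_sub _ _ h.smooth hA.smooth, h.closed, hA.closed, sub_zero]
  obtain ⟨f, hf1, hf2, hf3, hf4⟩ := N.Stage1_iter j k _ hG (by
    intro p
    rw [← wavg_one, Stage1_wavg_sub _ continuous_const _ _ _ h.smooth.continuous
      hA.smooth.continuous, wavg_one, wavg_one, sub_eq_zero]
    have e1 : avg (dir j : V k b) (avg (dir j : V k b) θ) p =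
        ∫ t in (0 : ℝ)..1, avg (dir j : V k b) θ p := by
      refine intervalIntegral.integral_congr fun t _ => ?_
      exact avg_add_smul (dir j : V k b) θ h.smooth.continuous hper p t
    rw [e1, intervalIntegral.integral_const, sub_zero, one_smul]) (by
    intro p
    rw [N.nu1_pow]
    rfl)
  refine ⟨f, hf1, hf2, hf3, fun p => ?_⟩
  rw [← hf4 p]
  abel

theorem Stage1_ind (n : ℕ) : n ≤ k → ∀ θ : V k b → V k b →L[ℝ] ℝ, N.Good1 n θ →
    ∃ f : V k b → ℝ, ContDiff ℝ ∞ f ∧ N.Lam f ∧ (∀ z, mean f z = 0) ∧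
      ∀ p, θ p = mean θ p.2 + N.D f p := by
  induction n with
  | zero =>
    intro _ θ h
    refine ⟨fun _ => 0, contDiff_const, fun _ _ _ => rfl, fun z => by simp [mean], fun p => ?_⟩
    rw [mean_dep_zero θ h.dep p]
    unfold D
    rw [fderiv_fun_const]
    simp
  | succ n ih =>
    intro hn θ h
    obtain ⟨h1, f, hf1, hf2, hf3, hf4⟩ := N.stage1 (⟨n, hn⟩ : Fin k) θ h
    obtain ⟨g, hg1, hg2, hg3, hg4⟩ := ih (by omega) _ h1
    refine ⟨fun p => f p + g p, hf1.add hg1, ?_, ?_, ?_⟩
    · intro m x z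
      show f (N.mul (intV m) x, z) + g (N.mul (intV m) x, z) = _
      rw [hf2 m x z, hg2 m x z]
    · intro z
      rw [mean_add_fun _ _ hf1.continuous hg1.continuous, hf3, hg3, add_zero]
    · intro p
      rw [N.Stage1_D_add _ _ hf1 hg1 p, hf4 p]
      conv_lhs => rw [hg4 p]
      rw [N.mean_avg_dir (⟨n, hn⟩ : Fin k) θ h.smooth.continuous h.dep h.lam]
      abel

/-- Every closed 1-form, invariant under the lattice, is its mean plus the differential of a lattice
invariant function with mean zero: apply `stage1` for `j = k - 1, ..., 0` (induction), then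
`mean_dep_zero`, `mean_avg_dir`. -/
theorem exists_prim1 (θ : V k b → V k b →L[ℝ] ℝ) (hθ : ContDiff ℝ ∞ θ) (hL : N.Lam θ)
    (hc : ∀ p, N.hd1 θ p = 0) :
    ∃ f : V k b → ℝ, ContDiff ℝ ∞ f ∧ N.Lam f ∧ (∀ z, mean f z = 0) ∧
      ∀ p, θ p = mean θ p.2 + N.D f p := by
  refine N.Stage1_ind k le_rfl θ ⟨hθ, ?_, hL, hc⟩
  intro x x' z hx
  have h1 : x = x' := funext fun i => hx i i.2
  rw [h1]

end NilLaw

end Pool.Agent.W_9986fc_h24
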