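import Pool.Agent.W_9986fc_h24.Nil.MeanD

/-!
One stage of the averaging for 1-forms.
-/

set_option autoImplicit false
set_option maxSynthPendingDepth 3

open scoped ContDiff
open Pool.Agent.W_9986fc_h15 MeasureTheory

namespace Pool.Agent.W_9986fc_h24

namespace NilLaw

variable {k b : ℕ} (N : NilLaw k)

/-- The action of the adjoint map of `dir j` on linear forms: `v ↦ - q [e_j, v]`. -/
noncomputable def nu1 (j : Fin k) : (V k b →L[ℝ] ℝ) →L[ℝ] (V k b →L[ℝ] ℝ) :=
  - (ContinuousLinearMap.compL ℝ (V k b) (V k b) ℝ).flip (N.brV (dir j))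

theorem nu1_apply (j : Fin k) (q : V k b →L[ℝ] ℝ) (v : V k b) :
    N.nu1 j q v = - q (N.brV (dir j) v) := rfl

theorem Stage1A_brV_pow (j : Fin k) (n : ℕ) (v : V k b) :
    (((N.brV (dir j) : V k b →L[ℝ] V k b) : V k b →ₗ[ℝ] V k b) ^ (n + 1)) v =
      (((N.br (Pi.single j 1) : R k →ₗ[ℝ] R k) ^ (n + 1)) v.1, 0) := by
  induction n with
  | zero => simp only [zero_add, pow_one]; rfl
  | succ n ih =>
    rw [pow_succ', Module.End.mul_apply, ih, pow_succ' _ (n + 1), Module.End.mul_apply]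
    rfl

theorem Stage1A_nu1_pow (j : Fin k) (n : ℕ) (q : V k b →L[ℝ] ℝ) (v : V k b) :
    ((N.nu1 j : (V k b →L[ℝ] ℝ) →L[ℝ] _) ^ n) q v =
      (-1) ^ n * q ((((N.brV (dir j) : V k b →L[ℝ] V k b) : V k b →ₗ[ℝ] V k b) ^ n) v) := by
  induction n generalizing v with
  | zero => simp
  | succ n ih =>
    rw [pow_succ']
    show (N.nu1 j (((N.nu1 j : (V k b →L[ℝ] ℝ) →L[ℝ] _) ^ n) q)) v = _
    have h : (((N.brV (dir j) : V k b →L[ℝ] V k b) : V k b →ₗ[ℝ] V k b) ^ (n + 1)) v =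
        (((N.brV (dir j) : V k b →L[ℝ] V k b) : V k b →ₗ[ℝ] V k b) ^ n) (N.brV (dir j) v) := by
      rw [pow_succ, Module.End.mul_apply]
      rfl
    rw [nu1_apply, ih, h]
    ring

theorem nu1_pow (j : Fin k) : (N.nu1 j : (V k b →L[ℝ] ℝ) →L[ℝ] _) ^ k = 0 := by
  obtain ⟨n, hn⟩ : ∃ n, k = n + 1 := by
    cases k with
    | zero => exact j.elim0
    | succ n => exact ⟨n, rfl⟩
  refine ContinuousLinearMap.ext fun q => ContinuousLinearMap.ext fun v => ?_
  rw [Stage1A_nu1_pow]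
  have h1 := N.br_pow (Pi.single j 1) v.1
  have h2 : (((N.brV (dir j) : V k b →L[ℝ] V k b) : V k b →ₗ[ℝ] V k b) ^ k) v = 0 := by
    have h3 := N.Stage1A_brV_pow j n v
    rw [← hn, h1] at h3
    exact h3
  rw [h2, map_zero, MulZeroClass.mul_zero]
  rfl

theorem Stage1A_D_eval {H : Type*} [NormedAddCommGroup H] [NormedSpace ℝ H]
    (θ : V k b → V k b →L[ℝ] H) (hθ : ContDiff ℝ ∞ θ) (p u v : V k b) :
    N.D (fun p => θ p v) p u = N.D θ p u v := by
  have h1 : fderiv ℝ (fun p => θ p v) p = (fderiv ℝ θ p).flip v := by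
    have := fderiv_clm_apply (hθ.differentiable (by simp) p) (differentiableAt_const v)
    rw [this]
    simp
  show fderiv ℝ (fun p => θ p v) p (N.Q p u) = fderiv ℝ θ p (N.Q p u) v
  rw [h1]
  rfl

/-- The Cartan formula for closed 1-forms. -/
theorem cartan1 (j : Fin k) (θ : V k b → V k b →L[ℝ] ℝ) (hθ : ContDiff ℝ ∞ θ)
    (hc : ∀ p, N.hd1 θ p = 0) (p : V k b) :
    N.D θ p (dir j) + N.nu1 j (θ p) = N.D (fun p => θ p (dir j)) p := by
  refine ContinuousLinearMap.ext fun v => ?_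
  rw [Stage1A_D_eval N θ hθ p v (dir j), _root_.add_apply, nu1_apply]
  have h1 : N.hd1 θ p (dir j) v = 0 := by rw [hc p]; rfl
  rw [hd1_apply] at h1
  linear_combination h1

/-- The properties of the coefficients which are preserved by the construction. -/
structure Good1 (j : ℕ) (θ : V k b → V k b →L[ℝ] ℝ) : Prop where
  smooth : ContDiff ℝ ∞ θ
  dep : Dep j θ
  lam : N.Lam θ
  closed : ∀ p, N.hd1 θ p = 0

theorem Stage1A_contDiff_D {H : Type*} [NormedAddCommGroup H] [NormedSpace ℝ H]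
    (h : V k b → H) (hh : ContDiff ℝ ∞ h) : ContDiff ℝ ∞ (N.D h) :=
  (hh.fderiv_right (by simp)).clm_comp N.contDiff_Q

/-- The exterior derivative of the derivative of a function is zero (`D_comm`). -/
theorem hd1_D (h : V k b → ℝ) (hh : ContDiff ℝ ∞ h) (p : V k b) : N.hd1 (N.D h) p = 0 := by
  refine ContinuousLinearMap.ext fun u => ContinuousLinearMap.ext fun v => ?_
  have hD := N.Stage1A_contDiff_D h hh
  rw [hd1_apply, ← Stage1A_D_eval N (N.D h) hD p u v, ← Stage1A_D_eval N (N.D h) hD p v u,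
    N.D_comm h hh p u v, sub_self]
  rfl

end NilLaw

end Pool.Agent.W_9986fc_h24
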