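import Pool.Agent.W_9986fc_h24.Nil.MeanD

/-!
The operator `nu2`, the Cartan formula.
-/

set_option autoImplicit false
set_option maxSynthPendingDepth 3

open scoped ContDiff
open Pool.Agent.W_9986fc_h15 MeasureTheory

namespace Pool.Agent.W_9986fc_h24

namespace NilLaw

variable {k b : ℕ} (N : NilLaw k)

/-- The action of the adjoint map of `dir j` on bilinear forms:
`(u, v) ↦ - q [e_j, u] v - q u [e_j, v]`. -/
noncomputable def nu2 (j : Fin k) : (V k b →L[ℝ] V k b →L[ℝ] ℝ) →L[ℝ] (V k b →L[ℝ] V k b →L[ℝ] ℝ) :=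
  LinearMap.toContinuousLinearMap
    { toFun := fun q => -(q.comp (N.brV (dir j))) - (q.flip.comp (N.brV (dir j))).flip
      map_add' := by
        intro q q'
        refine ContinuousLinearMap.ext fun u => ContinuousLinearMap.ext fun v => ?_
        simp only [ContinuousLinearMap.sub_apply, ContinuousLinearMap.neg_apply,
          ContinuousLinearMap.comp_apply, ContinuousLinearMap.flip_apply,
          ContinuousLinearMap.add_apply]
        ring
      map_smul' := by
        intro c q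
        refine ContinuousLinearMap.ext fun u => ContinuousLinearMap.ext fun v => ?_
        simp only [ContinuousLinearMap.sub_apply, ContinuousLinearMap.neg_apply,
          ContinuousLinearMap.comp_apply, ContinuousLinearMap.flip_apply,
          ContinuousLinearMap.smul_apply, smul_eq_mul, RingHom.id_apply]
        ring }

theorem nu2_apply (j : Fin k) (q : V k b →L[ℝ] V k b →L[ℝ] ℝ) (u v : V k b) :
    N.nu2 j q u v = - q (N.brV (dir j) u) v - q u (N.brV (dir j) v) := by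
  rfl

/-- composition with `P` in the first variable -/
noncomputable def StageA_A (P : V k b →L[ℝ] V k b) :
    (V k b →L[ℝ] V k b →L[ℝ] ℝ) →L[ℝ] (V k b →L[ℝ] V k b →L[ℝ] ℝ) :=
  (ContinuousLinearMap.compL ℝ (V k b) (V k b) (V k b →L[ℝ] ℝ)).flip P

/-- the flip -/
noncomputable def StageA_F (k b : ℕ) :
    (V k b →L[ℝ] V k b →L[ℝ] ℝ) →L[ℝ] (V k b →L[ℝ] V k b →L[ℝ] ℝ) :=
  (ContinuousLinearMap.flipₗᵢ ℝ (V k b) (V k b) ℝ).toContinuousLinearEquiv.toContinuousLinearMap

theorem StageA_A_apply (P : V k b →L[ℝ] V k b) (q : V k b →L[ℝ] V k b →L[ℝ] ℝ) :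
    StageA_A P q = q.comp P := rfl

theorem StageA_F_apply (q : V k b →L[ℝ] V k b →L[ℝ] ℝ) (u v : V k b) :
    StageA_F k b q u v = q v u := rfl

theorem StageA_A_pow (P : V k b →L[ℝ] V k b) (n : ℕ) (q : V k b →L[ℝ] V k b →L[ℝ] ℝ) :
    (StageA_A P ^ n) q = q.comp (P ^ n) := by
  induction n generalizing q with
  | zero =>
    rw [pow_zero, pow_zero]
    rfl
  | succ n ih =>
    rw [pow_succ', ContinuousLinearMap.mul_apply, ih, StageA_A_apply, pow_succ]
    rfl

theorem StageA_FF : StageA_F k b * StageA_F k b = 1 := by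
  refine ContinuousLinearMap.ext fun q => ContinuousLinearMap.ext fun u =>
    ContinuousLinearMap.ext fun v => ?_
  rfl

theorem StageA_FAF (A : (V k b →L[ℝ] V k b →L[ℝ] ℝ) →L[ℝ] (V k b →L[ℝ] V k b →L[ℝ] ℝ)) (n : ℕ) :
    (StageA_F k b * A * StageA_F k b) ^ n = StageA_F k b * A ^ n * StageA_F k b := by
  induction n with
  | zero => rw [pow_zero, pow_zero, mul_one, StageA_FF]
  | succ n ih =>
    rw [pow_succ, ih, pow_succ]
    calc StageA_F k b * A ^ n * StageA_F k b * (StageA_F k b * A * StageA_F k b)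
        = StageA_F k b * A ^ n * (StageA_F k b * StageA_F k b) * A * StageA_F k b := by
          simp only [mul_assoc]
      _ = StageA_F k b * (A ^ n * A) * StageA_F k b := by
          rw [StageA_FF, mul_one]
          simp only [mul_assoc]

theorem StageA_nu2_eq (j : Fin k) : (N.nu2 j : (V k b →L[ℝ] V k b →L[ℝ] ℝ) →L[ℝ] _) =
    -(StageA_A (N.brV (dir j)) +
      StageA_F k b * StageA_A (N.brV (dir j)) * StageA_F k b) := by
  refine ContinuousLinearMap.ext fun q => ContinuousLinearMap.ext fun u =>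
    ContinuousLinearMap.ext fun v => ?_
  have h : (-(StageA_A (N.brV (dir j)) +
      StageA_F k b * StageA_A (N.brV (dir j)) * StageA_F k b) :
      (V k b →L[ℝ] V k b →L[ℝ] ℝ) →L[ℝ] (V k b →L[ℝ] V k b →L[ℝ] ℝ)) q u v =
      -(q (N.brV (dir j) u) v + q u (N.brV (dir j) v)) := rfl
  rw [h, nu2_apply]
  ring

theorem StageA_P_pow (j : Fin k) (n : ℕ) (u : V k b) :
    ((N.brV (dir j) : V k b →L[ℝ] V k b) ^ (n + 1)) u =
      (((N.br (Pi.single j 1) : R k →ₗ[ℝ] R k) ^ (n + 1)) u.1, 0) := by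
  induction n generalizing u with
  | zero =>
    rw [zero_add, pow_one, pow_one]
    rfl
  | succ n ih =>
    rw [pow_succ', ContinuousLinearMap.mul_apply, ih, pow_succ' _ (n + 1), Module.End.mul_apply]
    rfl

theorem StageA_P_zero (j : Fin k) : (N.brV (dir j) : V k b →L[ℝ] V k b) ^ k = 0 := by
  obtain ⟨n, hn⟩ : ∃ n, k = n + 1 := ⟨k - 1, by
    have := j.2
    omega⟩
  refine ContinuousLinearMap.ext fun u => ?_
  have h1 := N.br_pow (Pi.single j 1) u.1
  have h2 : ((N.brV (dir j) : V k b →L[ℝ] V k b) ^ k) u =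
      (((N.br (Pi.single j 1) : R k →ₗ[ℝ] R k) ^ k) u.1, 0) := by
    have h3 := N.StageA_P_pow j n u
    rwa [← hn] at h3
  rw [h2, h1]
  rfl

/-- The operator `nu2 j` is nilpotent, because the adjoint map `P = brV (dir j)` is (`br_pow`):
`nu2 j ^ n` is a sum of terms `q (P ^ i u) (P ^ (n - i) v)` with binomial coefficients. -/
theorem nu2_pow (j : Fin k) : (N.nu2 j : (V k b →L[ℝ] V k b →L[ℝ] ℝ) →L[ℝ] _) ^ (2 * k) = 0 := by
  have hA : StageA_A (N.brV (dir j) : V k b →L[ℝ] V k b) ^ k = 0 := by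
    refine ContinuousLinearMap.ext fun q => ?_
    rw [StageA_A_pow, StageA_P_zero, ContinuousLinearMap.comp_zero]
    rfl
  have hB : (StageA_F k b * StageA_A (N.brV (dir j) : V k b →L[ℝ] V k b) *
      StageA_F k b) ^ k = 0 := by
    rw [StageA_FAF, hA, MulZeroClass.mul_zero, MulZeroClass.zero_mul]
  have hc : Commute (StageA_A (N.brV (dir j) : V k b →L[ℝ] V k b))
      (StageA_F k b * StageA_A (N.brV (dir j)) * StageA_F k b) := by
    refine ContinuousLinearMap.ext fun q => ContinuousLinearMap.ext fun u =>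
      ContinuousLinearMap.ext fun v => ?_
    rfl
  have h0 := hc.add_pow_eq_zero_of_add_le_succ_of_pow_eq_zero hA hB
    (show k + k ≤ 2 * k + 1 by omega)
  have h1 := neg_pow (StageA_A (N.brV (dir j) : V k b →L[ℝ] V k b) +
    StageA_F k b * StageA_A (N.brV (dir j)) * StageA_F k b) (2 * k)
  rw [h0, MulZeroClass.mul_zero] at h1
  rw [StageA_nu2_eq]
  exact h1

theorem StageA_brV_swap (u v : V k b) : (N.brV u v : V k b) = -N.brV v u := by
  rw [brV_apply, brV_apply, N.br_swap, Prod.neg_mk, neg_zero]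

/-- the derivative of the coefficients -/
theorem StageA_fd {F : V k b → V k b →L[ℝ] V k b →L[ℝ] ℝ} (hF : ContDiff ℝ ∞ F) (p x u : V k b) :
    fderiv ℝ (fun p => F p u) p x = fderiv ℝ F p x u := by
  have h1 : HasFDerivAt F (fderiv ℝ F p) p :=
    (hF.differentiable (by simp) p).hasFDerivAt
  have h2 := (ContinuousLinearMap.apply ℝ (V k b →L[ℝ] ℝ) u).hasFDerivAt.comp p h1
  have h3 : HasFDerivAt (fun p => F p u)
      ((ContinuousLinearMap.apply ℝ (V k b →L[ℝ] ℝ) u).comp (fderiv ℝ F p)) p := h2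
  rw [h3.fderiv]
  rfl

theorem StageA_fd2 {F : V k b → V k b →L[ℝ] V k b →L[ℝ] ℝ} (hF : ContDiff ℝ ∞ F)
    (p x u v : V k b) : fderiv ℝ (fun p => F p u v) p x = fderiv ℝ F p x u v := by
  have h1 : HasFDerivAt F (fderiv ℝ F p) p :=
    (hF.differentiable (by simp) p).hasFDerivAt
  have h2 := (((ContinuousLinearMap.apply ℝ ℝ v).comp
    (ContinuousLinearMap.apply ℝ (V k b →L[ℝ] ℝ) u))).hasFDerivAt.comp p h1
  have h3 : HasFDerivAt (fun p => F p u v)
      (((ContinuousLinearMap.apply ℝ ℝ v).comp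
        (ContinuousLinearMap.apply ℝ (V k b →L[ℝ] ℝ) u)).comp (fderiv ℝ F p)) p := h2
  rw [h3.fderiv]
  rfl

theorem StageA_alt {q : V k b →L[ℝ] V k b →L[ℝ] ℝ} (h : ∀ u, q u u = 0) (u v : V k b) :
    q u v = -q v u := by
  have h1 := h (u + v)
  have h2 : q (u + v) (u + v) = q u u + q u v + (q v u + q v v) := by
    rw [map_add q u v]
    have h3 : (q u + q v) (u + v) = q u (u + v) + q v (u + v) := rfl
    rw [h3, map_add (q u) u v, map_add (q v) u v]
  rw [h2, h u, h v] at h1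
  linarith

theorem StageA_D_alt {ξ : V k b → V k b →L[ℝ] V k b →L[ℝ] ℝ} (hξ : IsForm ξ) (p x u v : V k b) :
    N.D ξ p x u v = -N.D ξ p x v u := by
  have h1 : N.D ξ p x u v = fderiv ℝ (fun p => ξ p u v) p (N.Q p x) :=
    (StageA_fd2 hξ.smooth p (N.Q p x) u v).symm
  have h2 : N.D ξ p x v u = fderiv ℝ (fun p => ξ p v u) p (N.Q p x) :=
    (StageA_fd2 hξ.smooth p (N.Q p x) v u).symm
  have h3 : (fun p => ξ p u v) = fun p => -ξ p v u := by
    funext p
    exact StageA_alt (hξ.alt p) u v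
  rw [h1, h2, h3, fderiv_fun_neg]
  rfl

/-- The Cartan formula: from `HCl2 ξ` for the vectors `dir j, u, v` (and the alternation of `ξ`):
`D_e ξ (u, v) - ξ ([e, u], v) - ξ (u, [e, v]) = D_u ξ (e, v) - D_v ξ (e, u) - ξ (e, [u, v])`. -/
theorem cartan2 (j : Fin k) (ξ : V k b → V k b →L[ℝ] V k b →L[ℝ] ℝ) (hξ : IsForm ξ)
    (hc : N.HCl2 ξ) (p : V k b) :
    N.D ξ p (dir j) + N.nu2 j (ξ p) = N.hd1 (fun p => ξ p (dir j)) p := by
  refine ContinuousLinearMap.ext fun u => ContinuousLinearMap.ext fun v => ?_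
  have hc' := hc p (dir j) u v
  have hL : (N.D ξ p (dir j) + N.nu2 j (ξ p)) u v =
      N.D ξ p (dir j) u v + N.nu2 j (ξ p) u v := rfl
  have hR : N.hd1 (fun p => ξ p (dir j)) p u v =
      N.D (fun p => ξ p (dir j)) p u v - N.D (fun p => ξ p (dir j)) p v u -
        ξ p (dir j) (N.brV u v) := rfl
  have hD : ∀ x y, N.D (fun p => ξ p (dir j)) p x y = N.D ξ p x (dir j) y := by
    intro x y
    have h1 := StageA_fd hξ.smooth p (N.Q p x) (dir j)
    have h2 : N.D (fun p => ξ p (dir j)) p x = N.D ξ p x (dir j) := h1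
    rw [h2]
  rw [hL, hR, hD, hD, nu2_apply]
  have e1 := N.StageA_D_alt hξ p u v (dir j)
  have e2 := StageA_alt (hξ.alt p) (N.brV u v) (dir j)
  have e3 : ξ p (N.brV v (dir j)) u = ξ p u (N.brV (dir j) v) := by
    rw [N.StageA_brV_swap v (dir j), map_neg, ContinuousLinearMap.neg_apply,
      StageA_alt (hξ.alt p) (N.brV (dir j) v) u, neg_neg]
  rw [e1, e2, e3] at hc'
  linarith

/-- The properties of the coefficients which are preserved by the construction. -/
structure Good (j : ℕ) (ξ : V k b → V k b →L[ℝ] V k b →L[ℝ] ℝ) : Prop extends IsForm ξ where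
  dep : Dep j ξ
  lam : N.Lam ξ
  closed : N.HCl2 ξ

/-- Primitives (and averages) in the direction `dir j` preserve the properties: `contDiff_wavg`,
`D_wavg`, `wavg_clm`, `dep_wavg`, `lam_wavg`. -/
theorem good_wavg (j : Fin k) {ξ : V k b → V k b →L[ℝ] V k b →L[ℝ] ℝ} (h : N.Good (j + 1) ξ)
    (w : ℝ → ℝ) (hw : Continuous w) : N.Good (j + 1) (wavg w (dir j : V k b) ξ) := by
  have hcont : Continuous ξ := h.smooth.continuous
  have hDs : ContDiff ℝ ∞ (N.D ξ) :=
    (h.smooth.fderiv_right (m := ∞) (by simp)).clm_comp N.contDiff_Q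
  have hDc : Continuous (N.D ξ) := hDs.continuous
  refine
    { smooth := contDiff_wavg w hw (dir j) ξ h.smooth
      alt := ?_
      dep := dep_wavg h.dep w j
      lam := N.lam_wavg j h.dep h.lam w
      closed := ?_ }
  · intro p u
    have h1 := wavg_clm ((ContinuousLinearMap.apply ℝ ℝ u).comp
      (ContinuousLinearMap.apply ℝ (V k b →L[ℝ] ℝ) u)) w hw (dir j : V k b) ξ hcont p
    have h2 : (((ContinuousLinearMap.apply ℝ ℝ u).comp
      (ContinuousLinearMap.apply ℝ (V k b →L[ℝ] ℝ) u)) (wavg w (dir j : V k b) ξ p)) =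
      wavg w (dir j : V k b) ξ p u u := rfl
    rw [← h2, ← h1]
    have h3 : (fun y => ((ContinuousLinearMap.apply ℝ ℝ u).comp
      (ContinuousLinearMap.apply ℝ (V k b →L[ℝ] ℝ) u)) (ξ y)) = fun _ => (0 : ℝ) := by
      funext y
      exact h.alt y u
    rw [h3]
    simp [wavg]
  · intro p u v x
    have hD1 : N.D (wavg w (dir j : V k b) ξ) p = wavg w (dir j : V k b) (N.D ξ) p := by
      refine ContinuousLinearMap.ext fun y => ?_
      rw [N.D_wavg j h.dep h.smooth w hw p y]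
      exact wavg_clm (ContinuousLinearMap.apply ℝ (V k b →L[ℝ] V k b →L[ℝ] ℝ) y) w hw
        (dir j : V k b) (N.D ξ) hDc p
    let ev2 : V k b → V k b → (V k b →L[ℝ] V k b →L[ℝ] ℝ) →L[ℝ] ℝ := fun v w =>
      (ContinuousLinearMap.apply ℝ ℝ w).comp (ContinuousLinearMap.apply ℝ (V k b →L[ℝ] ℝ) v)
    let ev3 : V k b → V k b → V k b → (V k b →L[ℝ] V k b →L[ℝ] V k b →L[ℝ] ℝ) →L[ℝ] ℝ :=
      fun u v w => (ev2 v w).comp (ContinuousLinearMap.apply ℝ (V k b →L[ℝ] V k b →L[ℝ] ℝ) u)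
    let T1 : (V k b →L[ℝ] V k b →L[ℝ] V k b →L[ℝ] ℝ) →L[ℝ] ℝ :=
      ev3 u v x + ev3 v x u + ev3 x u v
    let T2 : (V k b →L[ℝ] V k b →L[ℝ] ℝ) →L[ℝ] ℝ :=
      ev2 (N.brV u v) x + ev2 (N.brV v x) u + ev2 (N.brV x u) v
    have hT1 : ∀ A, T1 A = A u v x + A v x u + A x u v := fun A => rfl
    have hT2 : ∀ q, T2 q = q (N.brV u v) x + q (N.brV v x) u + q (N.brV x u) v := fun q => rfl
    have h4 := wavg_clm T1 w hw (dir j : V k b) (N.D ξ) hDc p
    have h5 := wavg_clm T2 w hw (dir j : V k b) ξ hcont p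
    have h6 : (fun y => T1 (N.D ξ y)) = fun y => T2 (ξ y) := by
      funext y
      have h7 := h.closed y u v x
      rw [hT1, hT2]
      linarith
    rw [h6, h5, hT1, hT2] at h4
    rw [hD1]
    linarith

end NilLaw

end Pool.Agent.W_9986fc_h24
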